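import Mathlib

/-!
# Functions which are concave in each of four columns (helper44, TET checker)

`CC Y` : `Y` is concave in each of the four columns.  `MA Y` : `Y` is affine in each of the four
columns.  If column `k` of `D` lies in the convex hull of three points `c k i`, then a function which
is concave in each column is somewhere on the 81 corners at most `Y D`.
-/

set_option autoImplicit false

namespace Pool.Agent.Helper44.CK

/-- Four columns in a space of vectors with four entries. -/
abbrev Cols := Fin 4 → Fin 4 → ℝ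

/-- Concave in each column. -/
def CC (Y : Cols → ℝ) : Prop :=
  ∀ (k : Fin 4) (D : Cols) (a b : Fin 4 → ℝ) (s t : ℝ), 0 ≤ s → 0 ≤ t → s + t = 1 →
    s * Y (Function.update D k a) + t * Y (Function.update D k b)
      ≤ Y (Function.update D k (s • a + t • b))

/-- Affine in each column. -/
def MA (Y : Cols → ℝ) : Prop :=
  ∀ (k : Fin 4) (D : Cols) (a b : Fin 4 → ℝ) (s t : ℝ), s + t = 1 →
    Y (Function.update D k (s • a + t • b))
      = s * Y (Function.update D k a) + t * Y (Function.update D k b)

lemma MA.cc {Y : Cols → ℝ} (h : MA Y) : CC Y := fun k D a b s t _ _ hst => (h k D a b s t hst).ge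

lemma MA.neg {Y : Cols → ℝ} (h : MA Y) : MA (fun D => - Y D) := by
  intro k D a b s t hst
  simp only []
  rw [h k D a b s t hst]; ring

lemma MA.add {Y Z : Cols → ℝ} (h : MA Y) (h' : MA Z) : MA (fun D => Y D + Z D) := by
  intro k D a b s t hst
  simp only []
  rw [h k D a b s t hst, h' k D a b s t hst]; ring

lemma MA.sub {Y Z : Cols → ℝ} (h : MA Y) (h' : MA Z) : MA (fun D => Y D - Z D) := by
  intro k D a b s t hst
  simp only []
  rw [h k D a b s t hst, h' k D a b s t hst]; ring

lemma MA.smul {Y : Cols → ℝ} (h : MA Y) (c : ℝ) : MA (fun D => c * Y D) := by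
  intro k D a b s t hst
  simp only []
  rw [h k D a b s t hst]; ring

lemma MA.const (c : ℝ) : MA (fun _ => c) := by
  intro k D a b s t hst
  simp only []
  rw [← add_mul, hst, one_mul]

/-- An entry is affine in each column. -/
lemma MA.entry (k j : Fin 4) : MA (fun D => D k j) := by
  intro k' D a b s t hst
  simp only []
  by_cases h : k' = k
  · subst h; simp
  · rw [Function.update_of_ne (Ne.symm h), Function.update_of_ne (Ne.symm h),
      Function.update_of_ne (Ne.symm h), ← add_mul, hst, one_mul]

/-- The product of two functions depending on disjoint columns: `Y` does not depend on the columns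
outside `S`, `Z` not on the columns in `S`. -/
lemma MA.mul {Y Z : Cols → ℝ} (S : Set (Fin 4)) (hY : MA Y) (hZ : MA Z)
    (h : ∀ (k : Fin 4) (D : Cols) (a : Fin 4 → ℝ), k ∉ S → Y (Function.update D k a) = Y D)
    (h' : ∀ (k : Fin 4) (D : Cols) (a : Fin 4 → ℝ), k ∈ S → Z (Function.update D k a) = Z D) :
    MA (fun D => Y D * Z D) := by
  intro k D a b s t hst
  simp only []
  by_cases hk : k ∈ S
  · rw [hY k D a b s t hst, h' k D _ hk, h' k D _ hk, h' k D _ hk]; ring
  · rw [hZ k D a b s t hst, h k D _ hk, h k D _ hk, h k D _ hk]; ring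

lemma CC.add {Y Z : Cols → ℝ} (h : CC Y) (h' : CC Z) : CC (fun D => Y D + Z D) := by
  intro k D a b s t hs ht hst
  simp only []
  have := h k D a b s t hs ht hst
  have := h' k D a b s t hs ht hst
  linarith

lemma CC.smul {Y : Cols → ℝ} (h : CC Y) {c : ℝ} (hc : 0 ≤ c) : CC (fun D => c * Y D) := by
  intro k D a b s t hs ht hst
  simp only []
  have := mul_le_mul_of_nonneg_left (h k D a b s t hs ht hst) hc
  linarith

lemma CC.min {Y Z : Cols → ℝ} (h : CC Y) (h' : CC Z) : CC (fun D => Min.min (Y D) (Z D)) := by
  intro k D a b s t hs ht hst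
  simp only []
  have h1 := h k D a b s t hs ht hst
  have h2 := h' k D a b s t hs ht hst
  apply le_min
  · refine le_trans ?_ h1
    have := mul_le_mul_of_nonneg_left (min_le_left (Y (Function.update D k a)) (Z (Function.update D k a))) hs
    have := mul_le_mul_of_nonneg_left (min_le_left (Y (Function.update D k b)) (Z (Function.update D k b))) ht
    linarith
  · refine le_trans ?_ h2
    have := mul_le_mul_of_nonneg_left (min_le_right (Y (Function.update D k a)) (Z (Function.update D k a))) hs
    have := mul_le_mul_of_nonneg_left (min_le_right (Y (Function.update D k b)) (Z (Function.update D k b))) ht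
    linarith

/-- Minus the absolute value of a multi-affine function. -/
lemma MA.neg_abs {Y : Cols → ℝ} (h : MA Y) : CC (fun D => - |Y D|) := by
  intro k D a b s t hs ht hst
  simp only []
  rw [h k D a b s t hst]
  have := abs_add_le (s * Y (Function.update D k a)) (t * Y (Function.update D k b))
  rw [abs_mul, abs_mul, abs_of_nonneg hs, abs_of_nonneg ht] at this
  linarith

/-- Minus the largest difference of four multi-affine functions. -/
lemma cc_neg_range {ι : Type*} [Fintype ι] [Nonempty ι] (A : ι → Cols → ℝ) (h : ∀ i, MA (A i)) :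
    CC (fun D => - (Finset.univ.sup' Finset.univ_nonempty fun p : ι × ι => A p.1 D - A p.2 D)) := by
  intro k D a b s t hs ht hst
  simp only []
  have key : (Finset.univ.sup' Finset.univ_nonempty fun p : ι × ι =>
        A p.1 (Function.update D k (s • a + t • b)) - A p.2 (Function.update D k (s • a + t • b)))
      ≤ s * (Finset.univ.sup' Finset.univ_nonempty fun p : ι × ι =>
          A p.1 (Function.update D k a) - A p.2 (Function.update D k a))
        + t * (Finset.univ.sup' Finset.univ_nonempty fun p : ι × ι =>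
          A p.1 (Function.update D k b) - A p.2 (Function.update D k b)) := by
    apply Finset.sup'_le
    intro p _
    rw [h p.1 k D a b s t hst, h p.2 k D a b s t hst]
    have h1 := mul_le_mul_of_nonneg_left (Finset.le_sup' (fun p : ι × ι =>
          A p.1 (Function.update D k a) - A p.2 (Function.update D k a)) (Finset.mem_univ p)) hs
    have h2 := mul_le_mul_of_nonneg_left (Finset.le_sup' (fun p : ι × ι =>
          A p.1 (Function.update D k b) - A p.2 (Function.update D k b)) (Finset.mem_univ p)) ht
    linarith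
  linarith

/-- One column moves to one of its three corners. -/
lemma step {Y : Cols → ℝ} (h : CC Y) (k : Fin 4) (D : Cols) (c : Fin 3 → Fin 4 → ℝ)
    (w : Fin 3 → ℝ) (hw : ∀ i, 0 ≤ w i) (h1 : ∑ i, w i = 1) (hD : D k = ∑ i, w i • c i) :
    ∃ i, Y (Function.update D k (c i)) ≤ Y D := by
  have hcon : ConcaveOn ℝ Set.univ (fun x : Fin 4 → ℝ => Y (Function.update D k x)) := by
    refine ⟨convex_univ, ?_⟩
    intro a _ b _ s t hs ht hst
    simp only [smul_eq_mul]
    exact h k D a b s t hs ht hst
  have hx : D k ∈ convexHull ℝ (Set.range c) := by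
    rw [hD]
    exact (convex_convexHull ℝ _).sum_mem (fun i _ => hw i) h1
      (fun i _ => subset_convexHull ℝ _ ⟨i, rfl⟩)
  obtain ⟨y, ⟨i, rfl⟩, hy⟩ := hcon.exists_le_of_mem_convexHull (Set.subset_univ _) hx
  exact ⟨i, by simpa using hy⟩

/-- **Corners.** -/
theorem corner {Y : Cols → ℝ} (h : CC Y) (D : Cols) (c : Fin 4 → Fin 3 → Fin 4 → ℝ)
    (w : Fin 4 → Fin 3 → ℝ) (hw : ∀ k i, 0 ≤ w k i) (h1 : ∀ k, ∑ i, w k i = 1)
    (hD : ∀ k, D k = ∑ i, w k i • c k i) :
    ∃ i : Fin 4 → Fin 3, Y (fun k => c k (i k)) ≤ Y D := by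
  obtain ⟨i0, e0⟩ := step h 0 D (c 0) (w 0) (hw 0) (h1 0) (hD 0)
  obtain ⟨i1, e1⟩ := step h 1 (Function.update D 0 (c 0 i0)) (c 1) (w 1) (hw 1) (h1 1)
    (by rw [Function.update_of_ne (by decide)]; exact hD 1)
  obtain ⟨i2, e2⟩ := step h 2 (Function.update (Function.update D 0 (c 0 i0)) 1 (c 1 i1)) (c 2)
    (w 2) (hw 2) (h1 2)
    (by rw [Function.update_of_ne (by decide), Function.update_of_ne (by decide)]; exact hD 2)
  obtain ⟨i3, e3⟩ := step h 3 (Function.update (Function.update (Function.update D 0 (c 0 i0)) 1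
    (c 1 i1)) 2 (c 2 i2)) (c 3) (w 3) (hw 3) (h1 3)
    (by rw [Function.update_of_ne (by decide), Function.update_of_ne (by decide),
      Function.update_of_ne (by decide)]; exact hD 3)
  refine ⟨![i0, i1, i2, i3], ?_⟩
  have : (fun k => c k (![i0, i1, i2, i3] k)) = Function.update (Function.update (Function.update
      (Function.update D 0 (c 0 i0)) 1 (c 1 i1)) 2 (c 2 i2)) 3 (c 3 i3) := by
    funext k
    fin_cases k
    · simp [Function.update]
    · simp [Function.update]
    · simp [Function.update]
    · simp [Function.update]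
  rw [this]
  linarith

/-- The contradiction in a leaf. -/
theorem corner_false {Y : Cols → ℝ} (h : CC Y) (D : Cols) (hY : Y D ≤ 0)
    (c : Fin 4 → Fin 3 → Fin 4 → ℝ)
    (w : Fin 4 → Fin 3 → ℝ) (hw : ∀ k i, 0 ≤ w k i) (h1 : ∀ k, ∑ i, w k i = 1)
    (hD : ∀ k, D k = ∑ i, w k i • c k i) (hc : ∀ i : Fin 4 → Fin 3, 0 < Y (fun k => c k (i k))) :
    False := by
  obtain ⟨i, hi⟩ := corner h D c w hw h1 hD
  have := hc i
  linarith

end Pool.Agent.Helper44.CK
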