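import Mathlib

/-!
# Digits of big integers (helper44, TET checker)

`W = 128` bits per digit.  `P n g` is the natural number with the digits `g 0, …, g (n-1)`.
-/

set_option autoImplicit false

namespace Pool.Agent.Helper44.CK

open Finset

/-- the base -/
abbrev Zb : ℕ := 2 ^ 128

/-- half of the base -/
abbrev Hb : ℕ := 2 ^ 127

/-- the number with the digits `g` -/
def P (n : ℕ) (g : ℕ → ℕ) : ℕ := ∑ d ∈ range n, g d * Zb ^ d

lemma P_zero (g : ℕ → ℕ) : P 0 g = 0 := rfl

lemma P_succ (n : ℕ) (g : ℕ → ℕ) : P (n + 1) g = Zb * P n (fun d => g (d + 1)) + g 0 := by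
  unfold P
  rw [sum_range_succ', mul_sum, pow_zero, mul_one]
  congr 1
  exact sum_congr rfl fun d _ => by rw [pow_succ]; ring

lemma P_add (n : ℕ) (a b : ℕ → ℕ) : P n (fun d => a d + b d) = P n a + P n b := by
  unfold P
  rw [← sum_add_distrib]
  exact sum_congr rfl fun d _ => by ring

lemma P_sub (n : ℕ) (a b : ℕ → ℕ) (h : ∀ d < n, b d ≤ a d) :
    P n a - P n b = P n (fun d => a d - b d) := by
  have h1 : P n a = P n (fun d => (a d - b d) + b d) := by
    unfold P
    exact sum_congr rfl fun d hd => by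
      simp only []
      rw [Nat.sub_add_cancel (h d (mem_range.1 hd))]
  rw [h1, P_add]
  omega

lemma P_congr (n : ℕ) (a b : ℕ → ℕ) (h : ∀ d < n, a d = b d) : P n a = P n b := by
  unfold P
  exact sum_congr rfl fun d hd => by rw [h d (mem_range.1 hd)]

lemma P_mul (n : ℕ) (c : ℕ) (a : ℕ → ℕ) : P n (fun d => c * a d) = c * P n a := by
  unfold P
  rw [mul_sum]
  exact sum_congr rfl fun d _ => by ring

lemma land_split (w x y X Y : ℕ) (hx : x < 2 ^ w) (hy : y < 2 ^ w) :
    (2 ^ w * X + x) &&& (2 ^ w * Y + y) = 2 ^ w * (X &&& Y) + (x &&& y) := by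
  apply Nat.eq_of_testBit_eq
  intro j
  have hxy : x &&& y < 2 ^ w := lt_of_le_of_lt Nat.and_le_left hx
  rw [Nat.testBit_and, Nat.testBit_two_pow_mul_add _ hx, Nat.testBit_two_pow_mul_add _ hy,
    Nat.testBit_two_pow_mul_add _ hxy]
  by_cases h : j < w
  · simp only [h, if_true, Nat.testBit_and]
  · simp only [h, if_false, Nat.testBit_and]

lemma P_land (n : ℕ) : ∀ a b : ℕ → ℕ, (∀ d < n, a d < Zb) → (∀ d < n, b d < Zb) →
    P n a &&& P n b = P n (fun d => a d &&& b d) := by
  induction n with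
  | zero => intro a b _ _; simp [P_zero]
  | succ n ih =>
    intro a b ha hb
    rw [P_succ, P_succ, P_succ, land_split 128 _ _ _ _ (ha 0 (by omega)) (hb 0 (by omega)),
      ih _ _ (fun d hd => ha (d + 1) (by omega)) (fun d hd => hb (d + 1) (by omega))]

lemma P_inj (n : ℕ) : ∀ a b : ℕ → ℕ, (∀ d < n, a d < Zb) → (∀ d < n, b d < Zb) →
    P n a = P n b → ∀ d < n, a d = b d := by
  induction n with
  | zero => intro a b _ _ _ d hd; omega
  | succ n ih =>
    intro a b ha hb h d hd
    rw [P_succ, P_succ] at h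
    have h0 : a 0 = b 0 := by
      have := congrArg (· % Zb) h
      simp only [Nat.mul_add_mod] at this
      rwa [Nat.mod_eq_of_lt (ha 0 (by omega)), Nat.mod_eq_of_lt (hb 0 (by omega))] at this
    have h1 : P n (fun d => a (d + 1)) = P n (fun d => b (d + 1)) := by
      rw [h0] at h
      have := Nat.add_right_cancel h
      exact Nat.eq_of_mul_eq_mul_left (by norm_num) this
    cases d with
    | zero => exact h0
    | succ d =>
      exact ih _ _ (fun d hd => ha (d + 1) (by omega)) (fun d hd => hb (d + 1) (by omega)) h1 d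
        (by omega)

/-- **The test.** -/
lemma P_test (n : ℕ) (g : ℕ → ℕ) (hg : ∀ d < n, g d < Zb)
    (h : P n g &&& P n (fun _ => Hb) = P n (fun _ => Hb)) : ∀ d < n, Hb ≤ g d := by
  have hH : Hb < Zb := by norm_num
  rw [P_land n g _ hg (fun _ _ => hH)] at h
  intro d hd
  have h2 : g d &&& Hb = Hb :=
    P_inj n _ _ (fun d hd => lt_of_le_of_lt Nat.and_le_left (hg d hd)) (fun _ _ => hH) h d hd
  calc Hb = g d &&& Hb := h2.symm
    _ ≤ g d := Nat.and_le_left

lemma and_Hb (x : ℕ) (hx : x < Zb) : x &&& Hb = if Hb ≤ x then Hb else 0 := by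
  rw [Nat.and_two_pow]
  by_cases h : Hb ≤ x
  · have h1 : x.testBit 127 = true := by
      rw [Nat.testBit_eq_decide_div_mod_eq]
      have h2 : x < 2 ^ 128 := hx
      have h3 : 2 ^ 127 ≤ x := h
      have : x / 2 ^ 127 = 1 := by
        rw [Nat.div_eq_iff (by norm_num)]
        constructor
        · omega
        · omega
      rw [this]; rfl
    rw [if_pos h, h1]
    exact one_mul _
  · have h1 : x.testBit 127 = false := Nat.testBit_lt_two_pow (not_le.1 h)
    rw [if_neg h, h1]
    exact zero_mul _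

/-- The difference part: digits `a d - b d` (truncated). -/
def dif (H A B : ℕ) : ℕ :=
  (A + H - B) &&& (((A + H - B) &&& H) - ((A + H - B) &&& H) / Hb)

/-- the same with raw operations -/
def difR (H A B : ℕ) : ℕ :=
  (fun D => (fun T => Nat.land D (Nat.sub T (Nat.shiftRight T 127))) (Nat.land D H))
    (Nat.sub (Nat.add A H) B)

lemma difR_eq (H A B : ℕ) : difR H A B = dif H A B := by
  unfold difR dif
  simp only []
  change _ = (A + H - B) &&& (((A + H - B) &&& H) - ((A + H - B) &&& H) / Hb)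
  have h : Nat.shiftRight (Nat.land (Nat.sub (Nat.add A H) B) H) 127
      = ((A + H - B) &&& H) / Hb := Nat.shiftRight_eq_div_pow _ _
  rw [h]
  rfl

lemma dif_eq (n : ℕ) (a b : ℕ → ℕ) (ha : ∀ d < n, a d < Hb) (hb : ∀ d < n, b d < Hb) :
    dif (P n (fun _ => Hb)) (P n a) (P n b) = P n (fun d => a d - b d) := by
  unfold dif
  have hD : P n a + P n (fun _ => Hb) - P n b = P n (fun d => a d + Hb - b d) := by
    rw [← P_add, P_sub _ _ _ (fun d hd => by have := hb d hd; omega)]
  have hDl : ∀ d < n, a d + Hb - b d < Zb := by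
    intro d hd
    have h1 := ha d hd
    have : Zb = 2 * Hb := by norm_num
    omega
  have hH : Hb < Zb := by norm_num
  rw [hD]
  have hT : P n (fun d => a d + Hb - b d) &&& P n (fun _ => Hb)
      = P n (fun d => if b d ≤ a d then Hb else 0) := by
    rw [P_land _ _ _ hDl (fun _ _ => hH)]
    apply P_congr
    intro d hd
    have h1 := ha d hd
    have h2 := hb d hd
    rw [and_Hb _ (hDl d hd)]
    by_cases h : b d ≤ a d
    · rw [if_pos h, if_pos (by omega)]
    · rw [if_neg h, if_neg (by omega)]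
  rw [hT]
  have hTd : P n (fun d => if b d ≤ a d then Hb else 0) / Hb = P n (fun d => if b d ≤ a d then 1 else 0) := by
    have : P n (fun d => if b d ≤ a d then Hb else 0) = Hb * P n (fun d => if b d ≤ a d then 1 else 0) := by
      rw [← P_mul]
      apply P_congr
      intro d _
      split_ifs <;> simp
    rw [this]
    exact Nat.mul_div_cancel_left _ (by norm_num)
  have hle : ∀ d < n, (if b d ≤ a d then 1 else 0) ≤ (if b d ≤ a d then Hb else 0) := by
    intro d _
    by_cases h : b d ≤ a d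
    · rw [if_pos h, if_pos h]; norm_num
    · rw [if_neg h, if_neg h]
  rw [hTd, P_sub _ _ _ hle]
  have hlt : ∀ d < n, (if b d ≤ a d then Hb else 0) - (if b d ≤ a d then 1 else 0) < Zb := by
    intro d _
    refine lt_of_le_of_lt (Nat.sub_le _ _) ?_
    by_cases h : b d ≤ a d
    · rw [if_pos h]; exact hH
    · rw [if_neg h]; norm_num
  rw [P_land _ _ _ hDl hlt]
  apply P_congr
  intro d hd
  by_cases h : b d ≤ a d
  · rw [if_pos h, if_pos h]
    have : (Hb : ℕ) - 1 = 2 ^ 127 - 1 := rfl
    rw [this, Nat.and_two_pow_sub_one_eq_mod]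
    have h1 := ha d hd
    have e : a d + Hb - b d = (a d - b d) + 2 ^ 127 := by omega
    rw [e, Nat.add_mod_right]
    exact Nat.mod_eq_of_lt (by omega)
  · rw [if_neg h, if_neg h]
    simp only [Nat.sub_self, Nat.and_zero]
    omega

lemma max_eq (n : ℕ) (a b : ℕ → ℕ) (ha : ∀ d < n, a d < Hb) (hb : ∀ d < n, b d < Hb) :
    P n b + dif (P n (fun _ => Hb)) (P n a) (P n b) = P n (fun d => max (a d) (b d)) := by
  rw [dif_eq n a b ha hb, ← P_add]
  apply P_congr
  intro d _
  omega

lemma min_eq (n : ℕ) (a b : ℕ → ℕ) (ha : ∀ d < n, a d < Hb) (hb : ∀ d < n, b d < Hb) :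
    P n a - dif (P n (fun _ => Hb)) (P n a) (P n b) = P n (fun d => min (a d) (b d)) := by
  rw [dif_eq n a b ha hb, P_sub _ _ _ (fun d _ => by omega)]
  apply P_congr
  intro d _
  omega

end Pool.Agent.Helper44.CK
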