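import Mathlib
import Pool.Agent.Helper44.CK.Pack

/-!
# Multilinear functions of four packed columns (helper44, TET checker)
-/

set_option autoImplicit false

namespace Pool.Agent.Helper44.CK

open Finset

/-- Four integer columns with six entries: four coordinates, the square, the sum. -/
abbrev C6 := Fin 4 → Fin 6 → ℤ

section
variable {R : Type*} [CommRing R]

/-- `F` is linear in the columns in `S` and does not depend on the other ones. -/
def Lin (S : Finset (Fin 4)) (F : (Fin 4 → Fin 6 → R) → R) : Prop :=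
  (∀ k ∈ S, ∀ (X : Fin 4 → Fin 6 → R) (a b : Fin 6 → R) (s t : R),
      F (Function.update X k (s • a + t • b))
      = s * F (Function.update X k a) + t * F (Function.update X k b)) ∧
  (∀ k ∉ S, ∀ (X : Fin 4 → Fin 6 → R) (a : Fin 6 → R), F (Function.update X k a) = F X)

lemma Lin.ent (k : Fin 4) (j : Fin 6) : Lin {k} (fun X : Fin 4 → Fin 6 → R => X k j) := by
  constructor
  · intro k' hk' X a b s t
    rw [Finset.mem_singleton] at hk'
    subst hk'
    simp
  · intro k' hk' X a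
    rw [Finset.mem_singleton] at hk'
    simp only []
    rw [Function.update_of_ne (Ne.symm hk')]

lemma Lin.add {S : Finset (Fin 4)} {F G : (Fin 4 → Fin 6 → R) → R} (h : Lin S F)
    (h' : Lin S G) :
    Lin S (fun X => F X + G X) := by
  constructor
  · intro k hk X a b s t
    simp only []
    rw [h.1 k hk X a b s t, h'.1 k hk X a b s t]; ring
  · intro k hk X a
    simp only []
    rw [h.2 k hk X a, h'.2 k hk X a]

lemma Lin.sub {S : Finset (Fin 4)} {F G : (Fin 4 → Fin 6 → R) → R} (h : Lin S F)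
    (h' : Lin S G) :
    Lin S (fun X => F X - G X) := by
  constructor
  · intro k hk X a b s t
    simp only []
    rw [h.1 k hk X a b s t, h'.1 k hk X a b s t]; ring
  · intro k hk X a
    simp only []
    rw [h.2 k hk X a, h'.2 k hk X a]

lemma Lin.smul {S : Finset (Fin 4)} {F : (Fin 4 → Fin 6 → R) → R} (c : R) (h : Lin S F) :
    Lin S (fun X => c * F X) := by
  constructor
  · intro k hk X a b s t
    simp only []
    rw [h.1 k hk X a b s t]; ring
  · intro k hk X a
    simp only []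
    rw [h.2 k hk X a]

lemma Lin.mul {S T U : Finset (Fin 4)} {F G : (Fin 4 → Fin 6 → R) → R} (h : Lin S F) (h' : Lin T G)
    (hST : S ∩ T = ∅) (hU : S ∪ T = U) : Lin U (fun X => F X * G X) := by
  subst hU
  constructor
  · intro k hk X a b s t
    simp only []
    rcases Finset.mem_union.1 hk with hk | hk
    · have hk' : k ∉ T := by
        intro h2
        have : k ∈ S ∩ T := Finset.mem_inter.2 ⟨hk, h2⟩
        rw [hST] at this
        exact absurd this (Finset.notMem_empty k)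
      rw [h.1 k hk X a b s t, h'.2 k hk', h'.2 k hk', h'.2 k hk']; ring
    · have hk' : k ∉ S := by
        intro h2
        have : k ∈ S ∩ T := Finset.mem_inter.2 ⟨h2, hk⟩
        rw [hST] at this
        exact absurd this (Finset.notMem_empty k)
      rw [h'.1 k hk X a b s t, h.2 k hk', h.2 k hk', h.2 k hk']; ring
  · intro k hk X a
    simp only []
    rw [Finset.mem_union, not_or] at hk
    rw [h.2 k hk.1, h'.2 k hk.2]

end

/-- the multilinear map -/
def toML (F : C6 → ℤ) (h : Lin univ F) : MultilinearMap ℤ (fun _ : Fin 4 => Fin 6 → ℤ) ℤ where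
  toFun := F
  map_update_add' := by
    intro inst m i x y
    have e : inst = instDecidableEqFin 4 := Subsingleton.elim _ _
    subst e
    have := h.1 i (mem_univ i) m x y 1 1
    simpa using this
  map_update_smul' := by
    intro inst m i c x
    have e : inst = instDecidableEqFin 4 := Subsingleton.elim _ _
    subst e
    have := h.1 i (mem_univ i) m x x c 0
    simpa using this

/-- the position of a corner -/
def pos (r : Fin 4 → Fin 3) : ℕ := ∑ k, (r k : ℕ) * 3 ^ (k : ℕ)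

/-- packed integers -/
def pk (v : (Fin 4 → Fin 3) → ℤ) : ℤ := ∑ r, v r * (Zb : ℤ) ^ pos r

/-- The packed columns. -/
def packed (a : Fin 4 → Fin 3 → Fin 6 → ℤ) : C6 :=
  fun k => ∑ i : Fin 3, ((Zb : ℤ) ^ ((i : ℕ) * 3 ^ (k : ℕ))) • a k i

/-- **Expansion.** -/
theorem expand (F : C6 → ℤ) (h : Lin univ F) (a : Fin 4 → Fin 3 → Fin 6 → ℤ) :
    F (packed a) = pk (fun r => F (fun k => a k (r k))) := by
  have h1 : F (packed a) = toML F h (fun k => ∑ i : Fin 3, ((Zb : ℤ) ^ ((i : ℕ) * 3 ^ (k : ℕ))) • a k i) := rfl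
  rw [h1, MultilinearMap.map_sum]
  unfold pk
  refine Finset.sum_congr rfl fun r _ => ?_
  have := MultilinearMap.map_smul_univ (toML F h)
    (fun k => ((Zb : ℤ) ^ ((r k : ℕ) * 3 ^ (k : ℕ)))) (fun k => a k (r k))
  rw [this, Finset.prod_pow_eq_pow_sum, smul_eq_mul, mul_comm]
  rfl

lemma pk_add (u v : (Fin 4 → Fin 3) → ℤ) : pk (fun r => u r + v r) = pk u + pk v := by
  unfold pk
  rw [← Finset.sum_add_distrib]
  exact Finset.sum_congr rfl fun r _ => by ring

lemma pk_sub (u v : (Fin 4 → Fin 3) → ℤ) : pk (fun r => u r - v r) = pk u - pk v := by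
  unfold pk
  rw [← Finset.sum_sub_distrib]
  exact Finset.sum_congr rfl fun r _ => by ring

lemma pk_smul (c : ℤ) (u : (Fin 4 → Fin 3) → ℤ) : pk (fun r => c * u r) = c * pk u := by
  unfold pk
  rw [Finset.mul_sum]
  exact Finset.sum_congr rfl fun r _ => by ring

/-- number of digits -/
def nd : ℕ := 3 ^ 4

/-- the digits as a function of a natural number -/
noncomputable def dg (v : (Fin 4 → Fin 3) → ℕ) (d : ℕ) : ℕ :=
  if h : d < 3 ^ 4 then v (finFunctionFinEquiv.symm ⟨d, h⟩) else 0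

lemma pos_eq (r : Fin 4 → Fin 3) : pos r = (finFunctionFinEquiv r : ℕ) := by
  rw [finFunctionFinEquiv_apply]
  rfl

lemma dg_apply (v : (Fin 4 → Fin 3) → ℕ) (r : Fin 4 → Fin 3) : dg v (finFunctionFinEquiv r : ℕ) = v r := by
  unfold dg
  rw [dif_pos (finFunctionFinEquiv r).2]
  congr 1
  exact Equiv.symm_apply_apply _ _

lemma sum_digits (n : ℕ) (f : ℕ → ℕ) :
    ((∑ d ∈ range n, f d * Zb ^ d : ℕ) : ℤ) = ∑ d : Fin n, ((f d : ℕ) : ℤ) * (Zb : ℤ) ^ (d : ℕ) := by
  rw [Nat.cast_sum, ← Fin.sum_univ_eq_sum_range (fun d => ((f d * Zb ^ d : ℕ) : ℤ)) n]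
  exact Finset.sum_congr rfl fun d _ => by rw [Nat.cast_mul, Nat.cast_pow]

lemma pk_nat (v : (Fin 4 → Fin 3) → ℕ) : pk (fun r => (v r : ℤ)) = ((P nd (dg v) : ℕ) : ℤ) := by
  unfold pk P nd
  rw [sum_digits, ← Equiv.sum_comp (finFunctionFinEquiv (m := 3) (n := 4))]
  refine Finset.sum_congr rfl fun r _ => ?_
  rw [pos_eq, dg_apply]

lemma dg_lt (v : (Fin 4 → Fin 3) → ℕ) (B : ℕ) (hB : 0 < B) (h : ∀ r, v r < B) (d : ℕ) : dg v d < B := by
  unfold dg
  split_ifs
  · exact h _
  · exact hB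

lemma dg_pos (v : (Fin 4 → Fin 3) → ℕ) (r : Fin 4 → Fin 3) : ∃ d < nd, dg v d = v r :=
  ⟨(finFunctionFinEquiv r : ℕ), (finFunctionFinEquiv r).2, dg_apply v r⟩

/-- the constant with all digits equal to `c` -/
def cst (c : ℕ) : ℕ := P nd (fun _ => c)

lemma pk_cst (c : ℕ) : pk (fun _ => (c : ℤ)) = (cst c : ℤ) := by
  rw [pk_nat (fun _ => c)]
  unfold cst
  congr 1

attribute [irreducible] pk nd

attribute [local irreducible] P

/-- **Final test.** -/
theorem test_sound (v : (Fin 4 → Fin 3) → ℤ) (hv : ∀ r, |v r| < 2 ^ 127) (T : ℕ)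
    (hT : (T : ℤ) = pk v + (cst (2 ^ 127 - 1) : ℤ))
    (h : Nat.land T (cst (2 ^ 127)) = cst (2 ^ 127)) :
    ∀ r, 0 < v r := by
  have hg0 : ∀ r, 0 ≤ v r + (2 ^ 127 - 1 : ℤ) := fun r => by
    have := (abs_lt.1 (hv r)).1; linarith
  have h1 : pk v + (cst (2 ^ 127 - 1) : ℤ)
      = ((P nd (dg fun r => (v r + (2 ^ 127 - 1 : ℤ)).toNat) : ℕ) : ℤ) := by
    rw [← pk_nat, ← pk_cst, ← pk_add]
    congr 1
    funext r
    rw [Int.toNat_of_nonneg (hg0 r)]
    norm_num
  rw [h1] at hT
  have hT' : T = P nd (dg fun r => (v r + (2 ^ 127 - 1 : ℤ)).toNat) := by exact_mod_cast hT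
  have hlt : ∀ d < nd, dg (fun r => (v r + (2 ^ 127 - 1 : ℤ)).toNat) d < Zb := by
    intro d _
    apply dg_lt _ _ (by norm_num)
    intro r
    have := (abs_lt.1 (hv r)).2
    rw [Int.toNat_lt (hg0 r)]
    push_cast
    linarith
  rw [hT'] at h
  have h2 := P_test nd _ hlt h
  intro r
  obtain ⟨d, hd, hdr⟩ := dg_pos (fun r => (v r + (2 ^ 127 - 1 : ℤ)).toNat) r
  have h3 := h2 d hd
  rw [hdr] at h3
  have h4 : ((2 ^ 127 : ℕ) : ℤ) ≤ ((v r + (2 ^ 127 - 1 : ℤ)).toNat : ℤ) := by exact_mod_cast h3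
  rw [Int.toNat_of_nonneg (hg0 r)] at h4
  push_cast at h4
  linarith

end Pool.Agent.Helper44.CK
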