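import Mathlib
import Pool.Agent.Helper44.CK.Mult

/-!
# Residues modulo `2 ^ 10368` (helper44, TET checker)
-/

set_option autoImplicit false

namespace Pool.Agent.Helper44.CK

open Finset

/-- powers of two -/
def pw (n : ℕ) : ℕ := Nat.pow 2 n

lemma pw_eq (n : ℕ) : pw n = 2 ^ n := rfl

lemma pw_add (m n : ℕ) : pw (m + n) = pw m * pw n := by
  rw [pw_eq, pw_eq, pw_eq, pow_add]

lemma land_pw (x n : ℕ) : Nat.land x (Nat.sub (pw n) 1) = x % pw n := by
  change x &&& (2 ^ n - 1) = x % 2 ^ n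
  rw [Nat.and_two_pow_sub_one_eq_mod]

attribute [local irreducible] pw

/-- the modulus -/
def MM : ℕ := pw 10368

/-- the mask -/
def M1 : ℕ := Nat.sub (pw 10368) 1

/-- a large multiple of the modulus -/
def BG : ℕ := pw 20800

lemma MM_pos : 0 < MM := by
  unfold MM
  rw [pw_eq]
  exact pow_pos (by norm_num) _

lemma MM_eq : MM = Zb ^ (3 ^ 4) := by
  unfold MM Zb
  rw [pw_eq, ← pow_mul]
  congr 1

lemma BG_eq : BG = MM * (MM * 2 ^ 64) := by
  unfold BG MM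
  rw [← pw_eq 64, ← pw_add, ← pw_add]

/-- reduction -/
def rd (n : ℕ) : ℕ := Nat.land n M1

lemma rd_eq (n : ℕ) : rd n = n % MM := by
  unfold rd M1 MM
  exact land_pw n 10368

attribute [irreducible] MM BG rd

/-- `n` is the residue of `x`. -/
structure Rd (n : ℕ) (x : ℤ) : Prop where
  lt : n < MM
  dvd : (MM : ℤ) ∣ (n : ℤ) - x

lemma Rd.of {n : ℕ} {x : ℤ} (h : (MM : ℤ) ∣ (n : ℤ) - x) : Rd (rd n) x := by
  rw [rd_eq]
  refine ⟨Nat.mod_lt _ MM_pos, ?_⟩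
  have h1 : ((n % MM : ℕ) : ℤ) = (n : ℤ) - MM * ((n / MM : ℕ) : ℤ) := by
    have := Nat.mod_add_div n MM
    have h2 : ((n % MM + MM * (n / MM) : ℕ) : ℤ) = (n : ℤ) := by rw [this]
    push_cast at h2 ⊢
    linarith
  rw [h1]
  have : (n : ℤ) - MM * ((n / MM : ℕ) : ℤ) - x = ((n : ℤ) - x) - MM * ((n / MM : ℕ) : ℤ) := by ring
  rw [this]
  exact dvd_sub h (dvd_mul_right _ _)

lemma dvd_mul_sub {M p q a b : ℤ} (h1 : M ∣ p - a) (h2 : M ∣ q - b) : M ∣ p * q - a * b := by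
  have : p * q - a * b = (p - a) * q + a * (q - b) := by ring
  rw [this]
  exact dvd_add (dvd_mul_of_dvd_left h1 _) (dvd_mul_of_dvd_right h2 _)

lemma dvd_add_sub {M p q a b : ℤ} (h1 : M ∣ p - a) (h2 : M ∣ q - b) : M ∣ (p + q) - (a + b) := by
  have : (p + q) - (a + b) = (p - a) + (q - b) := by ring
  rw [this]
  exact dvd_add h1 h2

lemma dvd_sub_sub {M p q a b : ℤ} (h1 : M ∣ p - a) (h2 : M ∣ q - b) : M ∣ (p - q) - (a - b) := by
  have : (p - q) - (a - b) = (p - a) - (q - b) := by ring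
  rw [this]
  exact dvd_sub h1 h2

/-- product -/
def mm (p q : ℕ) : ℕ := rd (Nat.mul p q)

/-- sum -/
def ad (p q : ℕ) : ℕ := rd (Nat.add p q)

/-- difference -/
def sb (p q : ℕ) : ℕ := rd (Nat.sub (Nat.add p MM) q)

/-- `p q - r s` -/
def mn (p q r s : ℕ) : ℕ := rd (Nat.sub (Nat.add (Nat.mul p q) BG) (Nat.mul r s))

/-- `p q - r s + t u` -/
def tr (p q r s t u : ℕ) : ℕ :=
  rd (Nat.sub (Nat.add (Nat.add (Nat.mul p q) (Nat.mul t u)) BG) (Nat.mul r s))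

lemma Rd.mm {p q : ℕ} {a b : ℤ} (h1 : Rd p a) (h2 : Rd q b) : Rd (mm p q) (a * b) := by
  apply Rd.of
  change (MM : ℤ) ∣ ((p * q : ℕ) : ℤ) - a * b
  push_cast
  exact dvd_mul_sub h1.dvd h2.dvd

lemma Rd.ad {p q : ℕ} {a b : ℤ} (h1 : Rd p a) (h2 : Rd q b) : Rd (ad p q) (a + b) := by
  apply Rd.of
  change (MM : ℤ) ∣ ((p + q : ℕ) : ℤ) - (a + b)
  push_cast
  exact dvd_add_sub h1.dvd h2.dvd

lemma Rd.sb {p q : ℕ} {a b : ℤ} (h1 : Rd p a) (h2 : Rd q b) : Rd (sb p q) (a - b) := by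
  apply Rd.of
  change (MM : ℤ) ∣ ((p + MM - q : ℕ) : ℤ) - (a - b)
  have := h2.lt
  rw [Nat.cast_sub (by omega)]
  push_cast
  have e : (p : ℤ) + MM - q - (a - b) = (((p : ℤ) - q) - (a - b)) + MM := by ring
  rw [e]
  exact dvd_add (dvd_sub_sub h1.dvd h2.dvd) (dvd_refl _)

lemma mul_le_BG {r s : ℕ} (h1 : r < MM) (h2 : s < MM) : r * s ≤ BG := by
  rw [BG_eq]
  calc r * s ≤ MM * MM := Nat.mul_le_mul h1.le h2.le
    _ ≤ MM * (MM * 2 ^ 64) := Nat.mul_le_mul_left _ (Nat.le_mul_of_pos_right _ (by positivity))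

lemma MM_dvd_BG : (MM : ℤ) ∣ (BG : ℤ) := by
  rw [BG_eq]
  push_cast
  exact dvd_mul_right _ _

lemma Rd.mn {p q r s : ℕ} {a b c d : ℤ} (h1 : Rd p a) (h2 : Rd q b) (h3 : Rd r c) (h4 : Rd s d) :
    Rd (mn p q r s) (a * b - c * d) := by
  apply Rd.of
  change (MM : ℤ) ∣ ((p * q + BG - r * s : ℕ) : ℤ) - (a * b - c * d)
  have := mul_le_BG h3.lt h4.lt
  rw [Nat.cast_sub (by omega)]
  push_cast
  have e : (p : ℤ) * q + BG - r * s - (a * b - c * d)
      = (((p : ℤ) * q - r * s) - (a * b - c * d)) + BG := by ring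
  rw [e]
  exact dvd_add (dvd_sub_sub (dvd_mul_sub h1.dvd h2.dvd) (dvd_mul_sub h3.dvd h4.dvd)) MM_dvd_BG

lemma Rd.tr {p q r s t u : ℕ} {a b c d e f : ℤ} (h1 : Rd p a) (h2 : Rd q b) (h3 : Rd r c)
    (h4 : Rd s d) (h5 : Rd t e) (h6 : Rd u f) :
    Rd (tr p q r s t u) (a * b - c * d + e * f) := by
  apply Rd.of
  change (MM : ℤ) ∣ ((p * q + t * u + BG - r * s : ℕ) : ℤ) - (a * b - c * d + e * f)
  have := mul_le_BG h3.lt h4.lt
  rw [Nat.cast_sub (by omega)]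
  push_cast
  have e' : (p : ℤ) * q + t * u + BG - r * s - (a * b - c * d + e * f)
      = ((((p : ℤ) * q - r * s) + t * u) - ((a * b - c * d) + e * f)) + BG := by ring
  rw [e']
  exact dvd_add (dvd_add_sub (dvd_sub_sub (dvd_mul_sub h1.dvd h2.dvd) (dvd_mul_sub h3.dvd h4.dvd))
    (dvd_mul_sub h5.dvd h6.dvd)) MM_dvd_BG

lemma Rd.nat {n : ℕ} (h : n < MM) : Rd n (n : ℤ) := ⟨h, by simp⟩

lemma Rd.congr {n : ℕ} {x y : ℤ} (h : Rd n x) (e : x = y) : Rd n y := e ▸ h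

/-- two residues in the window are equal -/
lemma Rd.eq_nat {n m : ℕ} (h : Rd n (m : ℤ)) (hm : m < MM) : n = m := by
  have h1 := h.dvd
  have h2 := h.lt
  obtain ⟨c, hc⟩ := h1
  have h3 : c = 0 := by
    have e1 : (n : ℤ) - m < MM := by
      have : (n : ℤ) < MM := by exact_mod_cast h2
      have : (0 : ℤ) ≤ m := Int.natCast_nonneg m
      linarith
    have e2 : -(MM : ℤ) < (n : ℤ) - m := by
      have : (m : ℤ) < MM := by exact_mod_cast hm
      have : (0 : ℤ) ≤ n := Int.natCast_nonneg n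
      linarith
    have hM : (0 : ℤ) < MM := by exact_mod_cast MM_pos
    rw [hc] at e1 e2
    have c1 : c < 1 := by nlinarith
    have c2 : -1 < c := by nlinarith
    omega
  rw [h3, mul_zero] at hc
  have : (n : ℤ) = m := by linarith
  exact_mod_cast this

lemma P_lt (n : ℕ) : ∀ g : ℕ → ℕ, (∀ d < n, g d < Zb) → P n g < Zb ^ n := by
  induction n with
  | zero => intro g _; simp [P_zero]
  | succ n ih =>
    intro g hg
    rw [P_succ, pow_succ]
    have h1 := ih (fun d => g (d + 1)) (fun d hd => hg (d + 1) (by omega))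
    have h2 := hg 0 (by omega)
    generalize P n (fun d => g (d + 1)) = A at *
    generalize Zb ^ n = B at *
    have h3 : A + 1 ≤ B := h1
    calc Zb * A + g 0 < Zb * A + Zb := by omega
      _ = Zb * (A + 1) := by ring
      _ ≤ Zb * B := Nat.mul_le_mul_left _ h3
      _ = B * Zb := by ring

/-- A residue of a packed number plus a constant is that number. -/
lemma Rd.exact {T : ℕ} {v : (Fin 4 → Fin 3) → ℤ} {c : ℕ} (h : Rd T (pk v + (cst c : ℤ)))
    (h0 : ∀ r, 0 ≤ v r + c) (h1 : ∀ r, v r + c < Zb) : (T : ℤ) = pk v + (cst c : ℤ) := by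
  have e : pk v + (cst c : ℤ) = ((P nd (dg fun r => (v r + (c : ℤ)).toNat) : ℕ) : ℤ) := by
    rw [← pk_nat, ← pk_cst, ← pk_add]
    congr 1
    funext r
    rw [Int.toNat_of_nonneg (h0 r)]
  rw [e] at h ⊢
  have hlt : P nd (dg fun r => (v r + (c : ℤ)).toNat) < MM := by
    rw [MM_eq]
    have : nd = 3 ^ 4 := by unfold nd; rfl
    rw [this]
    apply P_lt
    intro d _
    apply dg_lt _ _ (by norm_num)
    intro r
    rw [Int.toNat_lt (h0 r)]
    exact h1 r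
  rw [Rd.eq_nat h hlt]

end Pool.Agent.Helper44.CK
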