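import Mathlib
import Pool.Agent.Helper44.CK.Res
import Pool.Agent.Helper44.CK.Corner

/-!
# The polynomials of the certificate (helper44, TET checker)

A column has six entries: `a 0, .., a 3`, the square `a 4`, the unit `a 5`.
-/

set_option autoImplicit false

namespace Pool.Agent.Helper44.CK

open Finset

section
variable {R : Type*} [CommRing R]

/-- minor of the columns `p`, `q` -/
def mi (p q : Fin 4) (i j : Fin 6) (X : Fin 4 → Fin 6 → R) : R := X p i * X q j - X q i * X p j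

/-- minors of three columns -/
def cr (i j l : Fin 6) (k p q : Fin 4) (X : Fin 4 → Fin 6 → R) : R :=
  X k i * mi p q j l X - X k j * mi p q i l X + X k l * mi p q i j X

/-- homogenised -/
def hc (i j l : Fin 6) (m k p q : Fin 4) (X : Fin 4 → Fin 6 → R) : R := X m 5 * cr i j l k p q X

/-- the determinant -/
def det4 (X : Fin 4 → Fin 6 → R) : R :=
  (X 0 0 * cr 1 2 3 1 2 3 X - X 0 1 * cr 0 2 3 1 2 3 X)
    + (X 0 2 * cr 0 1 3 1 2 3 X - X 0 3 * cr 0 1 2 1 2 3 X)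

/-- homogenised scalar product of the columns `a`, `b`; `c`, `d` are the other two -/
def dd (a b c d : Fin 4) (X : Fin 4 → Fin 6 → R) : R :=
  ((X a 0 * X b 0 + X a 1 * X b 1) + (X a 2 * X b 2 + X a 3 * X b 3)) * (X c 5 * X d 5)

/-- homogenised entry -/
def hh (j : Fin 6) (k a b c : Fin 4) (X : Fin 4 → Fin 6 → R) : R := X k j * (X a 5 * (X b 5 * X c 5))

end

section
variable {R : Type*} [CommRing R]

lemma Lin.mi {p q : Fin 4} (i j : Fin 6) (h : ({p} : Finset (Fin 4)) ∩ {q} = ∅) :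
    Lin ({p} ∪ {q}) (mi p q i j : (Fin 4 → Fin 6 → R) → R) := by
  unfold CK.mi
  apply Lin.sub
  · exact (Lin.ent p i).mul (Lin.ent q j) h rfl
  · exact (Lin.ent q i).mul (Lin.ent p j) (by rw [inter_comm]; exact h) (union_comm _ _)

lemma Lin.cr {k p q : Fin 4} (i j l : Fin 6) (h : ({p} : Finset (Fin 4)) ∩ {q} = ∅)
    (h' : ({k} : Finset (Fin 4)) ∩ ({p} ∪ {q}) = ∅) :
    Lin ({k} ∪ ({p} ∪ {q})) (cr i j l k p q : (Fin 4 → Fin 6 → R) → R) := by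
  unfold CK.cr
  apply Lin.add
  · apply Lin.sub
    · exact (Lin.ent k i).mul (Lin.mi j l h) h' rfl
    · exact (Lin.ent k j).mul (Lin.mi i l h) h' rfl
  · exact (Lin.ent k l).mul (Lin.mi i j h) h' rfl

lemma Lin.hc {m k p q : Fin 4} (i j l : Fin 6) (h : ({p} : Finset (Fin 4)) ∩ {q} = ∅)
    (h' : ({k} : Finset (Fin 4)) ∩ ({p} ∪ {q}) = ∅)
    (h'' : ({m} : Finset (Fin 4)) ∩ ({k} ∪ ({p} ∪ {q})) = ∅)
    (hu : ({m} : Finset (Fin 4)) ∪ ({k} ∪ ({p} ∪ {q})) = univ) :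
    Lin univ (hc i j l m k p q : (Fin 4 → Fin 6 → R) → R) := by
  unfold CK.hc
  exact (Lin.ent m 5).mul (Lin.cr i j l h h') h'' hu

lemma Lin.det4 : Lin univ (det4 : (Fin 4 → Fin 6 → R) → R) := by
  unfold CK.det4
  have h := fun (j a b c : Fin 6) => (Lin.ent (R := R) 0 j).mul (Lin.cr (k := 1) (p := 2) (q := 3) a b c
    (by decide) (by decide)) (by decide : ({0} : Finset (Fin 4)) ∩ ({1} ∪ ({2} ∪ {3})) = ∅)
    (by decide : ({0} : Finset (Fin 4)) ∪ ({1} ∪ ({2} ∪ {3})) = univ)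
  exact ((h 0 1 2 3).sub (h 1 0 2 3)).add ((h 2 0 1 3).sub (h 3 0 1 2))

lemma Lin.dd {a b c d : Fin 4} (h1 : ({a} : Finset (Fin 4)) ∩ {b} = ∅)
    (h2 : ({c} : Finset (Fin 4)) ∩ {d} = ∅)
    (h3 : (({a} ∪ {b}) : Finset (Fin 4)) ∩ ({c} ∪ {d}) = ∅)
    (h4 : (({a} ∪ {b}) : Finset (Fin 4)) ∪ ({c} ∪ {d}) = univ) :
    Lin univ (dd a b c d : (Fin 4 → Fin 6 → R) → R) := by
  unfold CK.dd
  have h := fun j : Fin 6 => (Lin.ent (R := R) a j).mul (Lin.ent b j) h1 rfl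
  exact (((h 0).add (h 1)).add ((h 2).add (h 3))).mul ((Lin.ent c 5).mul (Lin.ent d 5) h2 rfl) h3 h4

lemma Lin.hh {k a b c : Fin 4} (j : Fin 6) (h1 : ({b} : Finset (Fin 4)) ∩ {c} = ∅)
    (h2 : ({a} : Finset (Fin 4)) ∩ ({b} ∪ {c}) = ∅)
    (h3 : ({k} : Finset (Fin 4)) ∩ ({a} ∪ ({b} ∪ {c})) = ∅)
    (h4 : ({k} : Finset (Fin 4)) ∪ ({a} ∪ ({b} ∪ {c})) = univ) :
    Lin univ (hh j k a b c : (Fin 4 → Fin 6 → R) → R) := by
  unfold CK.hh
  exact (Lin.ent k j).mul ((Lin.ent a 5).mul ((Lin.ent b 5).mul (Lin.ent c 5) h1 rfl) h2 rfl) h3 h4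

end

section Cast

/-- the integer columns as real columns -/
def cX (X : C6) : Fin 4 → Fin 6 → ℝ := fun k j => (X k j : ℝ)

lemma cast_mi (p q : Fin 4) (i j : Fin 6) (X : C6) : ((mi p q i j X : ℤ) : ℝ) = mi p q i j (cX X) := by
  unfold mi cX; push_cast; rfl

lemma cast_cr (i j l : Fin 6) (k p q : Fin 4) (X : C6) :
    ((cr i j l k p q X : ℤ) : ℝ) = cr i j l k p q (cX X) := by
  unfold cr
  rw [← cast_mi, ← cast_mi, ← cast_mi]
  unfold cX; push_cast; rfl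

lemma cast_hc (i j l : Fin 6) (m k p q : Fin 4) (X : C6) :
    ((hc i j l m k p q X : ℤ) : ℝ) = hc i j l m k p q (cX X) := by
  unfold hc
  rw [← cast_cr]
  unfold cX; push_cast; rfl

lemma cast_det4 (X : C6) : ((det4 X : ℤ) : ℝ) = det4 (cX X) := by
  unfold det4
  rw [← cast_cr, ← cast_cr, ← cast_cr, ← cast_cr]
  unfold cX; push_cast; rfl

lemma cast_dd (a b c d : Fin 4) (X : C6) : ((dd a b c d X : ℤ) : ℝ) = dd a b c d (cX X) := by
  unfold dd cX; push_cast; rfl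

lemma cast_hh (j : Fin 6) (k a b c : Fin 4) (X : C6) : ((hh j k a b c X : ℤ) : ℝ) = hh j k a b c (cX X) := by
  unfold hh cX; push_cast; rfl

end Cast

section Bound

/-- the box of the integer columns -/
structure Bx (X : C6) : Prop where
  e : ∀ k, ∀ j : Fin 6, j ≠ 4 → j ≠ 5 → |X k j| ≤ 2 ^ 17
  q : ∀ k, |X k 4| ≤ 2 ^ 36
  u : ∀ k, X k 5 = 1

lemma b_mul {x y a b : ℤ} (h1 : |x| ≤ a) (h2 : |y| ≤ b) : |x * y| ≤ a * b := by
  rw [abs_mul]
  exact mul_le_mul h1 h2 (abs_nonneg _) (le_trans (abs_nonneg _) h1)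

lemma b_add {x y a b : ℤ} (h1 : |x| ≤ a) (h2 : |y| ≤ b) : |x + y| ≤ a + b :=
  le_trans (abs_add_le _ _) (add_le_add h1 h2)

lemma b_sub {x y a b : ℤ} (h1 : |x| ≤ a) (h2 : |y| ≤ b) : |x - y| ≤ a + b :=
  le_trans (abs_sub _ _) (add_le_add h1 h2)

lemma bd_mi {X : C6} (h : Bx X) (p q : Fin 4) (i j : Fin 6) (hi : i ≠ 4 ∧ i ≠ 5) (hj : j ≠ 4 ∧ j ≠ 5) :
    |mi p q i j X| ≤ 2 ^ 35 := by
  unfold mi
  have := b_sub (b_mul (h.e p i hi.1 hi.2) (h.e q j hj.1 hj.2)) (b_mul (h.e q i hi.1 hi.2) (h.e p j hj.1 hj.2))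
  refine le_trans this (by norm_num)

lemma bd_cr {X : C6} (h : Bx X) (k p q : Fin 4) (i j l : Fin 6) (hi : i ≠ 4 ∧ i ≠ 5) (hj : j ≠ 4 ∧ j ≠ 5)
    (hl : l ≠ 4 ∧ l ≠ 5) : |cr i j l k p q X| ≤ 2 ^ 54 := by
  unfold cr
  have := b_add (b_sub (b_mul (h.e k i hi.1 hi.2) (bd_mi h p q j l hj hl))
    (b_mul (h.e k j hj.1 hj.2) (bd_mi h p q i l hi hl))) (b_mul (h.e k l hl.1 hl.2) (bd_mi h p q i j hi hj))
  refine le_trans this (by norm_num)

lemma bd_hc {X : C6} (h : Bx X) (m k p q : Fin 4) (i j l : Fin 6) (hi : i ≠ 4 ∧ i ≠ 5)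
    (hj : j ≠ 4 ∧ j ≠ 5) (hl : l ≠ 4 ∧ l ≠ 5) : |hc i j l m k p q X| ≤ 2 ^ 54 := by
  unfold hc
  rw [h.u, one_mul]
  exact bd_cr h k p q i j l hi hj hl

lemma bd_det4 {X : C6} (h : Bx X) : |det4 X| ≤ 2 ^ 73 := by
  unfold det4
  have := b_add (b_sub (b_mul (h.e 0 0 (by decide) (by decide)) (bd_cr h 1 2 3 1 2 3 (by decide) (by decide) (by decide)))
    (b_mul (h.e 0 1 (by decide) (by decide)) (bd_cr h 1 2 3 0 2 3 (by decide) (by decide) (by decide))))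
    (b_sub (b_mul (h.e 0 2 (by decide) (by decide)) (bd_cr h 1 2 3 0 1 3 (by decide) (by decide) (by decide)))
    (b_mul (h.e 0 3 (by decide) (by decide)) (bd_cr h 1 2 3 0 1 2 (by decide) (by decide) (by decide))))
  refine le_trans this (by norm_num)

lemma bd_dd {X : C6} (h : Bx X) (a b c d : Fin 4) : |dd a b c d X| ≤ 2 ^ 36 := by
  unfold dd
  rw [h.u, h.u, mul_one, mul_one]
  have e := fun j (h1 : j ≠ 4) (h2 : j ≠ 5) => b_mul (h.e a j h1 h2) (h.e b j h1 h2)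
  have := b_add (b_add (e 0 (by decide) (by decide)) (e 1 (by decide) (by decide)))
    (b_add (e 2 (by decide) (by decide)) (e 3 (by decide) (by decide)))
  refine le_trans this (by norm_num)

lemma bd_hh {X : C6} (h : Bx X) (j : Fin 6) (k a b c : Fin 4) (hj : j ≠ 4 ∧ j ≠ 5) :
    |hh j k a b c X| ≤ 2 ^ 17 := by
  unfold hh
  rw [h.u, h.u, h.u, mul_one, mul_one, mul_one]
  exact h.e k j hj.1 hj.2

lemma bd_hq {X : C6} (h : Bx X) (k a b c : Fin 4) : |hh 4 k a b c X| ≤ 2 ^ 36 := by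
  unfold hh
  rw [h.u, h.u, h.u, mul_one, mul_one, mul_one]
  exact h.q k

lemma bd_hu {X : C6} (h : Bx X) (k a b c : Fin 4) : |hh 5 k a b c X| ≤ 1 := by
  unfold hh
  rw [h.u, h.u, h.u, h.u]
  norm_num

end Bound

end Pool.Agent.Helper44.CK
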