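import Mathlib
import Pool.Agent.Helper44.CK.Res

/-!
# Digitwise range (helper44, TET checker)
-/

set_option autoImplicit false

namespace Pool.Agent.Helper44.CK

open Finset

/-- `A` is packed with the natural digits `g < 2 ^ 127`. -/
structure Np (A : ℕ) (g : (Fin 4 → Fin 3) → ℕ) : Prop where
  eq : A = P nd (dg g)
  lt : ∀ r, g r < Hb

lemma nd_eq : nd = 3 ^ 4 := by unfold nd; rfl

lemma dg_map2 (f : ℕ → ℕ → ℕ) (g h : (Fin 4 → Fin 3) → ℕ) (d : ℕ) (hd : d < nd) :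
    f (dg g d) (dg h d) = dg (fun r => f (g r) (h r)) d := by
  rw [nd_eq] at hd
  unfold dg
  simp only [dif_pos hd]

lemma dg_map1 (f : ℕ → ℕ) (g : (Fin 4 → Fin 3) → ℕ) (d : ℕ) (hd : d < nd) :
    f (dg g d) = dg (fun r => f (g r)) d := by
  rw [nd_eq] at hd
  unfold dg
  simp only [dif_pos hd]

attribute [local irreducible] pw

/-- all digits one -/
def RU : ℕ := Nat.div (Nat.sub (pw 10368) 1) 340282366920938463463374607431768211455

lemma RU_eq : RU = ∑ k ∈ range (3 ^ 4), Zb ^ k := by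
  rw [Nat.geomSum_eq (by norm_num)]
  have h : Zb ^ (3 ^ 4) = pw 10368 := by
    unfold Zb
    rw [pw_eq, ← pow_mul]
    have e : 128 * 3 ^ 4 = 10368 := by norm_num
    rw [e]
  have hc : Zb - 1 = 340282366920938463463374607431768211455 := by norm_num
  rw [h, hc]
  unfold RU
  generalize pw 10368 = a
  rfl

attribute [irreducible] RU

lemma cst_eq (c : ℕ) : cst c = Nat.mul RU c := by
  have h : cst c = RU * c := by
    unfold cst P
    rw [RU_eq, nd_eq, ← mul_sum, mul_comm]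
  rw [h]
  rfl

/-- the constant `2 ^ 127` in each digit -/
def KH : ℕ := Nat.mul RU 170141183460469231731687303715884105728

lemma KH_eq : KH = cst Hb := by
  rw [cst_eq Hb]
  rfl

lemma Np.max {A B : ℕ} {g h : (Fin 4 → Fin 3) → ℕ} (hA : Np A g) (hB : Np B h) :
    Np (Nat.add B (difR KH A B)) (fun r => max (g r) (h r)) := by
  refine ⟨?_, fun r => max_lt (hA.lt r) (hB.lt r)⟩
  have h1 := max_eq nd (dg g) (dg h) (fun d _ => dg_lt g _ (by norm_num) hA.lt d)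
    (fun d _ => dg_lt h _ (by norm_num) hB.lt d)
  rw [hA.eq, hB.eq, difR_eq, KH_eq]
  refine Eq.trans h1 (P_congr _ _ _ fun d hd => dg_map2 Max.max g h d hd)

lemma Np.min {A B : ℕ} {g h : (Fin 4 → Fin 3) → ℕ} (hA : Np A g) (hB : Np B h) :
    Np (Nat.sub A (difR KH A B)) (fun r => min (g r) (h r)) := by
  refine ⟨?_, fun r => lt_of_le_of_lt (min_le_left _ _) (hA.lt r)⟩
  have h1 := min_eq nd (dg g) (dg h) (fun d _ => dg_lt g _ (by norm_num) hA.lt d)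
    (fun d _ => dg_lt h _ (by norm_num) hB.lt d)
  rw [hA.eq, hB.eq, difR_eq, KH_eq]
  refine Eq.trans h1 (P_congr _ _ _ fun d hd => dg_map2 Min.min g h d hd)

lemma Np.sub {A B : ℕ} {g h : (Fin 4 → Fin 3) → ℕ} (hA : Np A g) (hB : Np B h) (hgh : ∀ r, h r ≤ g r) :
    Np (Nat.sub A B) (fun r => g r - h r) := by
  refine ⟨?_, fun r => lt_of_le_of_lt (Nat.sub_le _ _) (hA.lt r)⟩
  rw [hA.eq, hB.eq]
  have h1 := P_sub nd (dg g) (dg h) (fun d hd => by
    rw [nd_eq] at hd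
    unfold dg
    simp only [dif_pos hd]
    exact hgh _)
  refine Eq.trans h1 (P_congr _ _ _ fun d hd => dg_map2 (fun a b => a - b) g h d hd)

lemma Np.add {A B : ℕ} {g h : (Fin 4 → Fin 3) → ℕ} (hA : Np A g) (hB : Np B h)
    (hlt : ∀ r, g r + h r < Hb) :
    Np (Nat.add A B) (fun r => g r + h r) := by
  refine ⟨?_, hlt⟩
  rw [hA.eq, hB.eq]
  have h1 := P_add nd (dg g) (dg h)
  refine Eq.trans h1.symm (P_congr _ _ _ fun d hd => dg_map2 (fun a b => a + b) g h d hd)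

lemma Np.mul {A : ℕ} {g : (Fin 4 → Fin 3) → ℕ} (hA : Np A g) (c : ℕ) (hlt : ∀ r, c * g r < Hb) :
    Np (Nat.mul c A) (fun r => c * g r) := by
  refine ⟨?_, hlt⟩
  rw [hA.eq]
  have h1 := P_mul nd c (dg g)
  refine Eq.trans h1.symm (P_congr _ _ _ fun d hd => dg_map1 (fun a => c * a) g d hd)

lemma Np.congr {A : ℕ} {g h : (Fin 4 → Fin 3) → ℕ} (hA : Np A g) (e : ∀ r, g r = h r) : Np A h := by
  have : g = h := funext e
  rw [← this]
  exact hA

lemma Np.toInt {A : ℕ} {g : (Fin 4 → Fin 3) → ℕ} (hA : Np A g) :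
    (A : ℤ) = pk (fun r => (g r : ℤ)) := by
  rw [pk_nat, hA.eq]

lemma Np.lt_MM {A : ℕ} {g : (Fin 4 → Fin 3) → ℕ} (hA : Np A g) : A < MM := by
  rw [hA.eq, MM_eq, nd_eq]
  apply P_lt
  intro d _
  exact lt_trans (dg_lt g _ (by norm_num) hA.lt d) (by norm_num)

/-- the constant `2 ^ 110` in each digit -/
def KQ : ℕ := Nat.mul RU 1298074214633706907132624082305024

lemma KQ_eq : KQ = cst (2 ^ 110) := by
  rw [cst_eq (2 ^ 110)]
  unfold KQ
  norm_num

lemma cst_lt (c : ℕ) (hc : c < Zb) : cst c < MM := by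
  rw [MM_eq]
  unfold cst
  rw [nd_eq]
  exact P_lt _ _ fun _ _ => hc

lemma KQ_lt : KQ < MM := by
  rw [KQ_eq]
  exact cst_lt _ (by norm_num)

/-- A residue of a packed vector, shifted. -/
lemma Np.of_rd {T : ℕ} {v : (Fin 4 → Fin 3) → ℤ} (h : Rd T (pk v))
    (hv : ∀ r, |v r| < 2 ^ 110) : Np (ad T KQ) (fun r => (v r + 2 ^ 110).toNat) := by
  have h1 : Rd (ad T KQ) (pk v + (cst (2 ^ 110) : ℤ)) := by
    rw [← KQ_eq]
    exact h.ad (Rd.nat KQ_lt)
  have hg0 : ∀ r, 0 ≤ v r + (2 ^ 110 : ℤ) := fun r => by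
    have := (abs_lt.1 (hv r)).1; linarith
  have hg1 : ∀ r, v r + (2 ^ 110 : ℤ) < 2 ^ 111 := fun r => by
    have := (abs_lt.1 (hv r)).2; linarith
  have h2 : ((ad T KQ : ℕ) : ℤ) = pk v + (cst (2 ^ 110) : ℤ) := by
    refine Rd.exact h1 (fun r => ?_) (fun r => ?_)
    · have := hg0 r
      push_cast
      linarith
    · have := hg1 r
      push_cast
      linarith
  refine ⟨?_, fun r => ?_⟩
  · have h3 : pk v + (cst (2 ^ 110) : ℤ) = ((P nd (dg fun r => (v r + 2 ^ 110).toNat) : ℕ) : ℤ) := by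
      rw [← pk_nat, ← pk_cst, ← pk_add]
      congr 1
      funext r
      rw [Int.toNat_of_nonneg (hg0 r)]
      norm_num
    rw [h3] at h2
    exact_mod_cast h2
  · rw [Int.toNat_lt (hg0 r)]
    have := hg1 r
    push_cast
    linarith

/-- the range of four integers -/
def rg4 (x0 x1 x2 x3 : ℤ) : ℤ := max (max x0 x1) (max x2 x3) - min (min x0 x1) (min x2 x3)

/-- the truncated range: `64 m` and `(64 - j) y + j m`, `m` in the three values -/
def rgT (j : ℕ) (y x1 x2 x3 : ℤ) : ℤ :=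
  max (64 * max (max x1 x2) x3) ((64 - j) * y + j * max (max x1 x2) x3)
    - min (64 * min (min x1 x2) x3) ((64 - j) * y + j * min (min x1 x2) x3)

/-- raw computation -/
def rng4 (A0 A1 A2 A3 : ℕ) : ℕ :=
  (fun d01 d23 =>
    (fun M01 M23 m01 m23 =>
      Nat.sub (Nat.add M23 (difR KH M01 M23)) (Nat.sub m01 (difR KH m01 m23)))
      (Nat.add A1 d01) (Nat.add A3 d23) (Nat.sub A0 d01) (Nat.sub A2 d23))
    (difR KH A0 A1) (difR KH A2 A3)

/-- raw computation -/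
def rngT (j : ℕ) (Y A1 A2 A3 : ℕ) : ℕ :=
  (fun d =>
    (fun M12 m12 =>
      (fun M m =>
        (fun a b c e =>
          Nat.sub (Nat.add b (difR KH a b)) (Nat.sub c (difR KH c e)))
          (Nat.mul 64 M) (Nat.add (Nat.mul (Nat.sub 64 j) Y) (Nat.mul j M))
          (Nat.mul 64 m) (Nat.add (Nat.mul (Nat.sub 64 j) Y) (Nat.mul j m)))
        (Nat.add A3 (difR KH M12 A3)) (Nat.sub m12 (difR KH m12 A3)))
      (Nat.add A2 d) (Nat.sub A1 d))
    (difR KH A1 A2)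

lemma rng4_sound {A0 A1 A2 A3 : ℕ} {x0 x1 x2 x3 : (Fin 4 → Fin 3) → ℤ}
    (h0 : Np A0 (fun r => (x0 r + 2 ^ 110).toNat)) (h1 : Np A1 (fun r => (x1 r + 2 ^ 110).toNat))
    (h2 : Np A2 (fun r => (x2 r + 2 ^ 110).toNat)) (h3 : Np A3 (fun r => (x3 r + 2 ^ 110).toNat))
    (b0 : ∀ r, |x0 r| < 2 ^ 110) (b1 : ∀ r, |x1 r| < 2 ^ 110) (b2 : ∀ r, |x2 r| < 2 ^ 110)
    (b3 : ∀ r, |x3 r| < 2 ^ 110) :
    Rd (rng4 A0 A1 A2 A3) (pk (fun r => rg4 (x0 r) (x1 r) (x2 r) (x3 r))) := by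
  have hM01 := h0.max h1
  have hM23 := h2.max h3
  have hm01 := h0.min h1
  have hm23 := h2.min h3
  have hM := hM01.max hM23
  have hm := hm01.min hm23
  have hR := hM.sub hm (fun r => le_trans (min_le_left _ _) (le_trans (min_le_left _ _)
      (le_trans (le_max_left _ _) (le_max_left _ _))))
  have e : (rng4 A0 A1 A2 A3 : ℤ) = pk (fun r => rg4 (x0 r) (x1 r) (x2 r) (x3 r)) := by
    have := hR.toInt
    refine Eq.trans this ?_
    congr 1
    funext r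
    have c0 := (abs_lt.1 (b0 r)).1
    have c1 := (abs_lt.1 (b1 r)).1
    have c2 := (abs_lt.1 (b2 r)).1
    have c3 := (abs_lt.1 (b3 r)).1
    unfold rg4
    generalize x0 r = a at *
    generalize x1 r = b at *
    generalize x2 r = c at *
    generalize x3 r = d at *
    omega
  rw [← e]
  exact Rd.nat hR.lt_MM

lemma toNat_lt_of {x : ℤ} (b : |x| < 2 ^ 110) : (x + 2 ^ 110).toNat < 2 ^ 111 := by
  have c := abs_lt.1 b
  omega

lemma rgT_nat (j : ℕ) (hj : j ≤ 64) (y x1 x2 x3 : ℤ) (c0 : -2 ^ 110 < y) (c1 : -2 ^ 110 < x1)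
    (c2 : -2 ^ 110 < x2) (c3 : -2 ^ 110 < x3) :
    ((max (64 * max (max (x1 + 2 ^ 110).toNat (x2 + 2 ^ 110).toNat) (x3 + 2 ^ 110).toNat)
        ((64 - j) * (y + 2 ^ 110).toNat
          + j * max (max (x1 + 2 ^ 110).toNat (x2 + 2 ^ 110).toNat) (x3 + 2 ^ 110).toNat)
      - min (64 * min (min (x1 + 2 ^ 110).toNat (x2 + 2 ^ 110).toNat) (x3 + 2 ^ 110).toNat)
        ((64 - j) * (y + 2 ^ 110).toNat
          + j * min (min (x1 + 2 ^ 110).toNat (x2 + 2 ^ 110).toNat) (x3 + 2 ^ 110).toNat) : ℕ) : ℤ)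
      = rgT j y x1 x2 x3 := by
  have eM : max (max (x1 + 2 ^ 110).toNat (x2 + 2 ^ 110).toNat) (x3 + 2 ^ 110).toNat
      = (max (max x1 x2) x3 + 2 ^ 110).toNat := by omega
  have em : min (min (x1 + 2 ^ 110).toNat (x2 + 2 ^ 110).toNat) (x3 + 2 ^ 110).toNat
      = (min (min x1 x2) x3 + 2 ^ 110).toNat := by omega
  rw [eM, em]
  unfold rgT
  have hM : -2 ^ 110 < max (max x1 x2) x3 := lt_of_lt_of_le c3 (le_max_right _ _)
  have hm : -2 ^ 110 < min (min x1 x2) x3 := lt_min (lt_min c1 c2) c3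
  have hmM : min (min x1 x2) x3 ≤ max (max x1 x2) x3 := le_trans (min_le_right _ _) (le_max_right _ _)
  generalize max (max x1 x2) x3 = M at *
  generalize min (min x1 x2) x3 = m at *
  obtain ⟨Y, hY⟩ := Int.eq_ofNat_of_zero_le (show 0 ≤ y + 2 ^ 110 by linarith)
  obtain ⟨A, hA⟩ := Int.eq_ofNat_of_zero_le (show 0 ≤ M + 2 ^ 110 by linarith)
  obtain ⟨B, hB⟩ := Int.eq_ofNat_of_zero_le (show 0 ≤ m + 2 ^ 110 by linarith)
  have hy : y = (Y : ℤ) - 2 ^ 110 := by linarith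
  have hM' : M = (A : ℤ) - 2 ^ 110 := by linarith
  have hm' : m = (B : ℤ) - 2 ^ 110 := by linarith
  subst hy hM' hm'
  have hBA : B ≤ A := by
    have : (B : ℤ) ≤ A := by linarith
    exact_mod_cast this
  simp only [sub_add_cancel, Int.toNat_natCast]
  have hle : min (64 * B) ((64 - j) * Y + j * B) ≤ max (64 * A) ((64 - j) * Y + j * A) :=
    le_trans (min_le_left _ _) (le_trans (Nat.mul_le_mul_left _ hBA) (le_max_left _ _))
  rw [Nat.cast_sub hle, Nat.cast_max, Nat.cast_min]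
  have h64 : (((64 - j : ℕ) : ℤ)) = 64 - (j : ℤ) := by
    rw [Nat.cast_sub hj]; norm_num
  rw [Nat.cast_mul, Nat.cast_add, Nat.cast_mul, Nat.cast_mul, Nat.cast_mul, Nat.cast_add,
    Nat.cast_mul, Nat.cast_mul, h64]
  have e1 : (64 : ℤ) * ((A : ℤ) - 2 ^ 110) = 64 * A - 64 * 2 ^ 110 := by ring
  have e2 : (64 - (j : ℤ)) * ((Y : ℤ) - 2 ^ 110) + j * ((A : ℤ) - 2 ^ 110)
      = ((64 - (j : ℤ)) * Y + j * A) - 64 * 2 ^ 110 := by ring
  have e3 : (64 : ℤ) * ((B : ℤ) - 2 ^ 110) = 64 * B - 64 * 2 ^ 110 := by ring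
  have e4 : (64 - (j : ℤ)) * ((Y : ℤ) - 2 ^ 110) + j * ((B : ℤ) - 2 ^ 110)
      = ((64 - (j : ℤ)) * Y + j * B) - 64 * 2 ^ 110 := by ring
  rw [e1, e2, e3, e4, max_sub_sub_right, min_sub_sub_right, sub_sub_sub_cancel_right]
  rfl

lemma rngT_sound (j : ℕ) (hj : j ≤ 64) {Y A1 A2 A3 : ℕ} {y x1 x2 x3 : (Fin 4 → Fin 3) → ℤ}
    (h0 : Np Y (fun r => (y r + 2 ^ 110).toNat)) (h1 : Np A1 (fun r => (x1 r + 2 ^ 110).toNat))
    (h2 : Np A2 (fun r => (x2 r + 2 ^ 110).toNat)) (h3 : Np A3 (fun r => (x3 r + 2 ^ 110).toNat))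
    (b0 : ∀ r, |y r| < 2 ^ 110) (b1 : ∀ r, |x1 r| < 2 ^ 110) (b2 : ∀ r, |x2 r| < 2 ^ 110)
    (b3 : ∀ r, |x3 r| < 2 ^ 110) :
    Rd (rngT j Y A1 A2 A3) (pk (fun r => rgT j (y r) (x1 r) (x2 r) (x3 r))) := by
  have t0 := fun r => toNat_lt_of (b0 r)
  have t1 := fun r => toNat_lt_of (b1 r)
  have t2 := fun r => toNat_lt_of (b2 r)
  have t3 := fun r => toNat_lt_of (b3 r)
  have hM := (h1.max h2).max h3
  have hm := (h1.min h2).min h3
  have lM : ∀ r, max (max (x1 r + 2 ^ 110).toNat (x2 r + 2 ^ 110).toNat) (x3 r + 2 ^ 110).toNat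
      < 2 ^ 111 := fun r => max_lt (max_lt (t1 r) (t2 r)) (t3 r)
  have lm : ∀ r, min (min (x1 r + 2 ^ 110).toNat (x2 r + 2 ^ 110).toNat) (x3 r + 2 ^ 110).toNat
      < 2 ^ 111 := fun r => lt_of_le_of_lt (min_le_right _ _) (t3 r)
  have hH : Hb = 2 ^ 127 := rfl
  have k1 := hM.mul 64 (fun r => by have := lM r; rw [hH]; omega)
  have k2 := h0.mul (64 - j) (fun r => by
    have := t0 r
    have h64 : 64 - j ≤ 64 := Nat.sub_le _ _
    rw [hH]
    calc (64 - j) * _ ≤ 64 * 2 ^ 111 := Nat.mul_le_mul h64 this.le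
      _ < 2 ^ 127 := by norm_num)
  have k3 := hM.mul j (fun r => by
    have := lM r
    rw [hH]
    calc j * _ ≤ 64 * 2 ^ 111 := Nat.mul_le_mul hj this.le
      _ < 2 ^ 127 := by norm_num)
  have k4 := hm.mul 64 (fun r => by have := lm r; rw [hH]; omega)
  have k5 := hm.mul j (fun r => by
    have := lm r
    rw [hH]
    calc j * _ ≤ 64 * 2 ^ 111 := Nat.mul_le_mul hj this.le
      _ < 2 ^ 127 := by norm_num)
  have k6 := k2.add k3 (fun r => by
    have e1 := t0 r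
    have e2 := lM r
    rw [hH]
    calc _ ≤ 64 * 2 ^ 111 + 64 * 2 ^ 111 :=
          Nat.add_le_add (Nat.mul_le_mul (Nat.sub_le _ _) e1.le) (Nat.mul_le_mul hj e2.le)
      _ < 2 ^ 127 := by norm_num)
  have k7 := k2.add k5 (fun r => by
    have e1 := t0 r
    have e2 := lm r
    rw [hH]
    calc _ ≤ 64 * 2 ^ 111 + 64 * 2 ^ 111 :=
          Nat.add_le_add (Nat.mul_le_mul (Nat.sub_le _ _) e1.le) (Nat.mul_le_mul hj e2.le)
      _ < 2 ^ 127 := by norm_num)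
  have k8 := k1.max k6
  have k9 := k4.min k7
  have hR := k8.sub k9 (fun r => le_trans (min_le_left _ _) (le_trans
    (Nat.mul_le_mul_left _ (le_trans (min_le_right _ _) (le_max_right _ _))) (le_max_left _ _)))
  have e : (rngT j Y A1 A2 A3 : ℤ) = pk (fun r => rgT j (y r) (x1 r) (x2 r) (x3 r)) := by
    have := hR.toInt
    refine Eq.trans this ?_
    congr 1
    funext r
    have c0 := (abs_lt.1 (b0 r)).1
    have c1 := (abs_lt.1 (b1 r)).1
    have c2 := (abs_lt.1 (b2 r)).1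
    have c3 := (abs_lt.1 (b3 r)).1
    exact rgT_nat j hj _ _ _ _ c0 c1 c2 c3
  rw [← e]
  exact Rd.nat hR.lt_MM

attribute [irreducible] KH KQ

end Pool.Agent.Helper44.CK
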