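import Mathlib
import Pool.Agent.Helper44.CK.Rng
import Pool.Agent.Helper44.CK.Poly

/-!
# Cells (helper44, TET checker)

A vertex is a natural number with four fields of 32 bits: the coordinates times `N = 2 ^ 16`,
shifted by `N`.  A column is a triangle with three vertices.
-/

set_option autoImplicit false

namespace Pool.Agent.Helper44.CK

open Finset

/-- a triangle -/
structure Col where
  a : ℕ
  b : ℕ
  c : ℕ

/-- the field at `d = 0, 32, 64, 96` -/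
def fl (d v : ℕ) : ℕ := Nat.mod (Nat.shiftRight v d) 4294967296

/-- the square of a vertex -/
def sq (v : ℕ) : ℕ :=
  Nat.add (Nat.add (Nat.mul (fl 0 v) (fl 0 v)) (Nat.mul (fl 32 v) (fl 32 v)))
    (Nat.add (Nat.mul (fl 64 v) (fl 64 v)) (Nat.mul (fl 96 v) (fl 96 v)))

/-- a packed entry -/
def en (d s : ℕ) (c : Col) : ℕ :=
  Nat.add (Nat.add (fl d c.a) (Nat.shiftLeft (fl d c.b) s)) (Nat.shiftLeft (fl d c.c) (Nat.add s s))

/-- the packed square -/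
def es (s : ℕ) (c : Col) : ℕ :=
  Nat.add (Nat.add (sq c.a) (Nat.shiftLeft (sq c.b) s)) (Nat.shiftLeft (sq c.c) (Nat.add s s))

/-- the packed unit -/
def rp (s : ℕ) : ℕ := Nat.add (Nat.add 1 (Nat.shiftLeft 1 s)) (Nat.shiftLeft 1 (Nat.add s s))

/-- the vertices -/
def vt (c : Col) : Fin 3 → ℕ
  | 0 => c.a
  | 1 => c.b
  | 2 => c.c

/-- the entries of a vertex as naturals -/
def fn (v : ℕ) : Fin 6 → ℕ
  | 0 => fl 0 v
  | 1 => fl 32 v
  | 2 => fl 64 v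
  | 3 => fl 96 v
  | 4 => sq v
  | 5 => 1

/-- the integer columns -/
def aZ (C : Fin 4 → Col) (k : Fin 4) (i : Fin 3) (j : Fin 6) : ℤ := (fn (vt (C k) i) j : ℤ)

lemma fl_lt (d v : ℕ) : fl d v < 2 ^ 32 := by
  unfold fl
  change (v >>> d) % 4294967296 < 2 ^ 32
  exact Nat.mod_lt _ (by norm_num)

lemma sq_lt (v : ℕ) : sq v < 2 ^ 66 := by
  unfold sq
  change (fl 0 v * fl 0 v + fl 32 v * fl 32 v) + (fl 64 v * fl 64 v + fl 96 v * fl 96 v) < 2 ^ 66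
  have h := fun d => Nat.mul_lt_mul'' (fl_lt d v) (fl_lt d v)
  have h0 := h 0
  have h1 := h 32
  have h2 := h 64
  have h3 := h 96
  norm_num at h0 h1 h2 h3 ⊢
  omega

lemma fn_lt (v : ℕ) (j : Fin 6) : fn v j < 2 ^ 66 := by
  have h := fun d => lt_trans (fl_lt d v) (by norm_num : 2 ^ 32 < 2 ^ 66)
  fin_cases j
  · exact h 0
  · exact h 32
  · exact h 64
  · exact h 96
  · exact sq_lt v
  · show 1 < 2 ^ 66
    norm_num

lemma gen_lt (k : Fin 4) (x y z : ℕ) (hx : x < 2 ^ 66) (hy : y < 2 ^ 66) (hz : z < 2 ^ 66) :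
    x + y * 2 ^ (128 * 3 ^ (k : ℕ)) + z * 2 ^ (128 * 3 ^ (k : ℕ) + 128 * 3 ^ (k : ℕ)) < MM := by
  have hk : 3 ^ (k : ℕ) ≤ 27 := by fin_cases k <;> norm_num
  generalize 3 ^ (k : ℕ) = t at *
  have e1 : 2 ^ (128 * t) ≤ 2 ^ (128 * t + 128 * t) := Nat.pow_le_pow_right (by norm_num) (by omega)
  have e0 : 1 ≤ 2 ^ (128 * t + 128 * t) := Nat.one_le_two_pow
  have e2 : 2 ^ (128 * t + 128 * t) * 2 ^ 68 ≤ 2 ^ 10368 := by
    rw [← pow_add]
    exact Nat.pow_le_pow_right (by norm_num) (by omega)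
  have hM : MM = 2 ^ 10368 := by unfold MM; rfl
  rw [hM]
  refine lt_of_lt_of_le ?_ e2
  generalize 2 ^ (128 * t) = A at *
  generalize 2 ^ (128 * t + 128 * t) = B at *
  have m1 : y * A ≤ 2 ^ 66 * B := Nat.mul_le_mul hy.le e1
  have m2 : z * B ≤ 2 ^ 66 * B := Nat.mul_le_mul_right _ hz.le
  have m0 : x < 2 ^ 66 * B := lt_of_lt_of_le hx (Nat.le_mul_of_pos_right _ e0)
  calc x + y * A + z * B < 2 ^ 66 * B + 2 ^ 66 * B + 2 ^ 66 * B := by omega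
    _ ≤ B * 2 ^ 68 := by
        have : B * 2 ^ 68 = 4 * (2 ^ 66 * B) := by ring
        rw [this]; omega

lemma gen_rd (C : Fin 4 → Col) (k : Fin 4) (j : Fin 6) (s : ℕ) (hs : s = 128 * 3 ^ (k : ℕ)) :
    Rd (Nat.add (Nat.add (fn (C k).a j) (Nat.shiftLeft (fn (C k).b j) s))
      (Nat.shiftLeft (fn (C k).c j) (Nat.add s s))) (packed (aZ C) k j) := by
  have e0 : Nat.add (Nat.add (fn (C k).a j) (Nat.shiftLeft (fn (C k).b j) s))
      (Nat.shiftLeft (fn (C k).c j) (Nat.add s s))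
      = fn (C k).a j + fn (C k).b j * 2 ^ (128 * 3 ^ (k : ℕ))
        + fn (C k).c j * 2 ^ (128 * 3 ^ (k : ℕ) + 128 * 3 ^ (k : ℕ)) := by
    subst hs
    change fn (C k).a j + (fn (C k).b j) <<< (128 * 3 ^ (k : ℕ))
        + (fn (C k).c j) <<< (128 * 3 ^ (k : ℕ) + 128 * 3 ^ (k : ℕ)) = _
    rw [Nat.shiftLeft_eq, Nat.shiftLeft_eq]
  rw [e0]
  refine Rd.congr (Rd.nat (gen_lt k _ _ _ (fn_lt _ _) (fn_lt _ _) (fn_lt _ _))) ?_
  unfold packed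
  rw [Fin.sum_univ_three]
  simp only [Pi.add_apply, Pi.smul_apply, smul_eq_mul]
  unfold aZ
  have z1 : (2 : ℕ) ^ (128 * 3 ^ (k : ℕ)) = Zb ^ (1 * 3 ^ (k : ℕ)) := by
    unfold Zb; rw [one_mul, pow_mul]
  have z2 : (2 : ℕ) ^ (128 * 3 ^ (k : ℕ) + 128 * 3 ^ (k : ℕ)) = Zb ^ (2 * 3 ^ (k : ℕ)) := by
    unfold Zb; rw [← pow_mul]; congr 1; ring
  rw [z1, z2]
  have v0 : vt (C k) 0 = (C k).a := rfl
  have v1 : vt (C k) 1 = (C k).b := rfl
  have v2 : vt (C k) 2 = (C k).c := rfl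
  rw [v0, v1, v2]
  have c0 : ((0 : Fin 3) : ℕ) = 0 := rfl
  have c1 : ((1 : Fin 3) : ℕ) = 1 := rfl
  have c2 : ((2 : Fin 3) : ℕ) = 2 := rfl
  rw [c0, c1, c2, zero_mul, pow_zero, one_mul]
  generalize Zb = Z
  simp only [Nat.cast_add, Nat.cast_mul, Nat.cast_pow]
  ring

lemma en_rd0 (C : Fin 4 → Col) (k : Fin 4) (s : ℕ) (hs : s = 128 * 3 ^ (k : ℕ)) :
    Rd (en 0 s (C k)) (packed (aZ C) k 0) := gen_rd C k 0 s hs

lemma en_rd1 (C : Fin 4 → Col) (k : Fin 4) (s : ℕ) (hs : s = 128 * 3 ^ (k : ℕ)) :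
    Rd (en 32 s (C k)) (packed (aZ C) k 1) := gen_rd C k 1 s hs

lemma en_rd2 (C : Fin 4 → Col) (k : Fin 4) (s : ℕ) (hs : s = 128 * 3 ^ (k : ℕ)) :
    Rd (en 64 s (C k)) (packed (aZ C) k 2) := gen_rd C k 2 s hs

lemma en_rd3 (C : Fin 4 → Col) (k : Fin 4) (s : ℕ) (hs : s = 128 * 3 ^ (k : ℕ)) :
    Rd (en 96 s (C k)) (packed (aZ C) k 3) := gen_rd C k 3 s hs

lemma es_rd (C : Fin 4 → Col) (k : Fin 4) (s : ℕ) (hs : s = 128 * 3 ^ (k : ℕ)) :
    Rd (es s (C k)) (packed (aZ C) k 4) := gen_rd C k 4 s hs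

lemma rp_rd (C : Fin 4 → Col) (k : Fin 4) (s : ℕ) (hs : s = 128 * 3 ^ (k : ℕ)) :
    Rd (rp s) (packed (aZ C) k 5) := gen_rd C k 5 s hs

/-- a good vertex -/
structure Gd (v : ℕ) : Prop where
  b0 : fl 0 v ≤ 131072
  b1 : fl 32 v ≤ 131072
  b2 : fl 64 v ≤ 131072
  b3 : fl 96 v ≤ 131072
  s : fl 0 v + fl 32 v + fl 64 v + fl 96 v = 327680
  lt : v < 2 ^ 128

/-- a real column with its square and its unit -/
noncomputable def augv (x : Fin 4 → ℝ) : Fin 6 → ℝ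
  | 0 => 65536 * (x 0 + 1)
  | 1 => 65536 * (x 1 + 1)
  | 2 => 65536 * (x 2 + 1)
  | 3 => 65536 * (x 3 + 1)
  | 4 => ((65536 * (x 0 + 1)) * (65536 * (x 0 + 1)) + (65536 * (x 1 + 1)) * (65536 * (x 1 + 1)))
      + ((65536 * (x 2 + 1)) * (65536 * (x 2 + 1)) + (65536 * (x 3 + 1)) * (65536 * (x 3 + 1)))
  | 5 => 1

/-- four real columns -/
noncomputable def aug (D : Cols) : Fin 4 → Fin 6 → ℝ := fun k => augv (D k)

/-- the real coordinates of a vertex -/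
noncomputable def fr (v : ℕ) : Fin 4 → ℝ
  | 0 => (fl 0 v : ℝ) / 65536 - 1
  | 1 => (fl 32 v : ℝ) / 65536 - 1
  | 2 => (fl 64 v : ℝ) / 65536 - 1
  | 3 => (fl 96 v : ℝ) / 65536 - 1

/-- the corners -/
noncomputable def crn (C : Fin 4 → Col) (r : Fin 4 → Fin 3) : Cols := fun k => fr (vt (C k) (r k))

lemma augv_fr (v : ℕ) (j : Fin 6) : augv (fr v) j = ((fn v j : ℕ) : ℝ) := by
  have e : ∀ x : ℝ, 65536 * (x / 65536 - 1 + 1) = x := fun x => by ring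
  fin_cases j
  · exact e _
  · exact e _
  · exact e _
  · exact e _
  · show ((65536 * (fr v 0 + 1)) * (65536 * (fr v 0 + 1)) + (65536 * (fr v 1 + 1)) * (65536 * (fr v 1 + 1)))
      + ((65536 * (fr v 2 + 1)) * (65536 * (fr v 2 + 1)) + (65536 * (fr v 3 + 1)) * (65536 * (fr v 3 + 1)))
      = ((sq v : ℕ) : ℝ)
    have f0 : 65536 * (fr v 0 + 1) = (fl 0 v : ℝ) := e _
    have f1 : 65536 * (fr v 1 + 1) = (fl 32 v : ℝ) := e _
    have f2 : 65536 * (fr v 2 + 1) = (fl 64 v : ℝ) := e _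
    have f3 : 65536 * (fr v 3 + 1) = (fl 96 v : ℝ) := e _
    rw [f0, f1, f2, f3]
    have : sq v = (fl 0 v * fl 0 v + fl 32 v * fl 32 v) + (fl 64 v * fl 64 v + fl 96 v * fl 96 v) := rfl
    rw [this]
    push_cast
    rfl
  · show (1 : ℝ) = ((1 : ℕ) : ℝ)
    norm_num

lemma aug_crn (C : Fin 4 → Col) (r : Fin 4 → Fin 3) :
    aug (crn C r) = cX (fun k => aZ C k (r k)) := by
  funext k j
  show augv (fr (vt (C k) (r k))) j = ((aZ C k (r k) j : ℤ) : ℝ)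
  rw [augv_fr]
  unfold aZ
  push_cast
  rfl

lemma aug_update (D : Cols) (k : Fin 4) (a : Fin 4 → ℝ) :
    aug (Function.update D k a) = Function.update (aug D) k (augv a) := by
  funext m
  unfold aug
  by_cases h : m = k
  · subst h; simp
  · simp [h]

lemma bx_corner (C : Fin 4 → Col) (hC : ∀ k i, Gd (vt (C k) i)) (r : Fin 4 → Fin 3) :
    Bx (fun k => aZ C k (r k)) := by
  refine ⟨fun k j h4 h5 => ?_, fun k => ?_, fun k => rfl⟩
  · have h := hC k (r k)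
    have e : ∀ n : ℕ, n ≤ 131072 → |(n : ℤ)| ≤ 2 ^ 17 := by
      intro n hn
      rw [abs_of_nonneg (Int.natCast_nonneg n)]
      norm_num
      exact_mod_cast hn
    fin_cases j
    · exact e _ h.b0
    · exact e _ h.b1
    · exact e _ h.b2
    · exact e _ h.b3
    · exact absurd rfl h4
    · exact absurd rfl h5
  · have h := hC k (r k)
    show |((sq (vt (C k) (r k)) : ℕ) : ℤ)| ≤ 2 ^ 36
    rw [abs_of_nonneg (Int.natCast_nonneg _)]
    generalize vt (C k) (r k) = v at *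
    have : sq v = (fl 0 v * fl 0 v + fl 32 v * fl 32 v) + (fl 64 v * fl 64 v + fl 96 v * fl 96 v) := rfl
    rw [this]
    have c0 := Nat.mul_le_mul h.b0 h.b0
    have c1 := Nat.mul_le_mul h.b1 h.b1
    have c2 := Nat.mul_le_mul h.b2 h.b2
    have c3 := Nat.mul_le_mul h.b3 h.b3
    have : fl 0 v * fl 0 v + fl 32 v * fl 32 v + (fl 64 v * fl 64 v + fl 96 v * fl 96 v) ≤ 2 ^ 36 := by
      norm_num at *
      omega
    exact_mod_cast this

/-- `T` is the packed vector of the values of `Y` at the corners. -/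
def Bs (C : Fin 4 → Col) (T : ℕ) (Y : Cols → ℝ) (b : ℤ) : Prop :=
  ∃ v : (Fin 4 → Fin 3) → ℤ, Rd T (pk v) ∧ (∀ r, Y (crn C r) = v r) ∧ ∀ r, |v r| ≤ b

lemma Bs.of_lin {C : Fin 4 → Col} (hC : ∀ k i, Gd (vt (C k) i)) {T : ℕ} {b : ℤ} (FZ : C6 → ℤ)
    (FR : (Fin 4 → Fin 6 → ℝ) → ℝ) (hL : Lin univ FZ) (hc : ∀ X, ((FZ X : ℤ) : ℝ) = FR (cX X))
    (hb : ∀ X, Bx X → |FZ X| ≤ b) (hT : Rd T (FZ (packed (aZ C)))) :
    Bs C T (fun D => FR (aug D)) b := by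
  refine ⟨fun r => FZ (fun k => aZ C k (r k)), ?_, fun r => ?_, fun r => hb _ (bx_corner C hC r)⟩
  · rw [← expand FZ hL]
    exact hT
  · show FR (aug (crn C r)) = _
    rw [aug_crn, hc]

lemma Bs.add {C : Fin 4 → Col} {T U : ℕ} {Y Z : Cols → ℝ} {b c : ℤ} (h : Bs C T Y b) (h' : Bs C U Z c) :
    Bs C (ad T U) (fun D => Y D + Z D) (b + c) := by
  obtain ⟨v, h1, h2, h3⟩ := h
  obtain ⟨w, g1, g2, g3⟩ := h'
  refine ⟨fun r => v r + w r, ?_, fun r => ?_, fun r => b_add (h3 r) (g3 r)⟩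
  · rw [pk_add]; exact h1.ad g1
  · simp only []
    rw [h2, g2]; push_cast; rfl

lemma Bs.sub {C : Fin 4 → Col} {T U : ℕ} {Y Z : Cols → ℝ} {b c : ℤ} (h : Bs C T Y b) (h' : Bs C U Z c) :
    Bs C (sb T U) (fun D => Y D - Z D) (b + c) := by
  obtain ⟨v, h1, h2, h3⟩ := h
  obtain ⟨w, g1, g2, g3⟩ := h'
  refine ⟨fun r => v r - w r, ?_, fun r => ?_, fun r => b_sub (h3 r) (g3 r)⟩
  · rw [pk_sub]; exact h1.sb g1
  · simp only []
    rw [h2, g2]; push_cast; rfl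

lemma Bs.smul {C : Fin 4 → Col} {T : ℕ} {Y : Cols → ℝ} {b : ℤ} (c : ℕ) (hc : c < 2 ^ 128)
    (h : Bs C T Y b) : Bs C (mm c T) (fun D => (c : ℝ) * Y D) (c * b) := by
  obtain ⟨v, h1, h2, h3⟩ := h
  refine ⟨fun r => (c : ℤ) * v r, ?_, fun r => ?_, fun r => b_mul (le_of_eq (abs_of_nonneg (Int.natCast_nonneg c))) (h3 r)⟩
  · rw [pk_smul]
    refine Rd.mm (Rd.nat (lt_of_lt_of_le hc ?_)) h1
    have hM : MM = 2 ^ 10368 := by unfold MM; rfl
    rw [hM]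
    exact Nat.pow_le_pow_right (by norm_num) (by norm_num)
  · simp only []
    rw [h2]; push_cast; rfl

lemma Bs.mono {C : Fin 4 → Col} {T : ℕ} {Y : Cols → ℝ} {b c : ℤ} (h : Bs C T Y b) (hbc : b ≤ c) :
    Bs C T Y c := by
  obtain ⟨v, h1, h2, h3⟩ := h
  exact ⟨v, h1, h2, fun r => le_trans (h3 r) hbc⟩

lemma Bs.congr {C : Fin 4 → Col} {T : ℕ} {Y Z : Cols → ℝ} {b : ℤ} (h : Bs C T Y b)
    (e : ∀ D, Y D = Z D) : Bs C T Z b := by
  have : Y = Z := funext e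
  rw [← this]
  exact h

end Pool.Agent.Helper44.CK
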