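import Mathlib
import Pool.Agent.Helper44.CK.Cell

/-!
# The raw computations (helper44, TET checker)
-/

set_option autoImplicit false

namespace Pool.Agent.Helper44.CK

open Finset

/-- minor of two columns -/
def m2 (d e s t : ℕ) (p q : Col) : ℕ := mn (en d s p) (en e t q) (en d t q) (en e s p)

/-- minors of three columns -/
def cc (d e f s t u : ℕ) (k p q : Col) : ℕ :=
  tr (en d s k) (m2 e f t u p q) (en e s k) (m2 d f t u p q) (en f s k) (m2 d e t u p q)

/-- homogenised -/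
def hcN (d e f w s t u : ℕ) (k p q : Col) : ℕ := mm (rp w) (cc d e f s t u k p q)

/-- the determinant -/
def detN (A B C D : Col) : ℕ :=
  ad (mn (en 0 128 A) (cc 32 64 96 384 1152 3456 B C D) (en 32 128 A) (cc 0 64 96 384 1152 3456 B C D))
    (mn (en 64 128 A) (cc 0 32 96 384 1152 3456 B C D) (en 96 128 A) (cc 0 32 64 384 1152 3456 B C D))

/-- `n h + m g - (p k + q l)` -/
def l4 (n h m g p k q l : ℕ) : ℕ := sb (ad (mm n h) (mm m g)) (ad (mm p k) (mm q l))

/-- the coordinates of the adjugate times `n` -/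
def xe (d e f n0 n1 n2 n3 : ℕ) (A B C D : Col) : ℕ :=
  l4 n0 (hcN d e f 128 384 1152 3456 B C D) n2 (hcN d e f 1152 3456 128 384 D A B)
    n1 (hcN d e f 384 128 1152 3456 A C D) n3 (hcN d e f 3456 1152 128 384 C A B)

/-- the same with the other sign -/
def xo (d e f n0 n1 n2 n3 : ℕ) (A B C D : Col) : ℕ :=
  l4 n1 (hcN d e f 384 128 1152 3456 A C D) n3 (hcN d e f 3456 1152 128 384 C A B)
    n0 (hcN d e f 128 384 1152 3456 B C D) n2 (hcN d e f 1152 3456 128 384 D A B)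

/-- homogenised scalar product -/
def dtN (s t u w : ℕ) (p q : Col) : ℕ :=
  mm (ad (ad (mm (en 0 s p) (en 0 t q)) (mm (en 32 s p) (en 32 t q)))
    (ad (mm (en 64 s p) (en 64 t q)) (mm (en 96 s p) (en 96 t q)))) (mm (rp u) (rp w))

/-- product of three units -/
def r3 (t u w : ℕ) : ℕ := mm (rp t) (mm (rp u) (rp w))

/-- homogenised entry -/
def hhN (d s t u w : ℕ) (c : Col) : ℕ := mm (en d s c) (r3 t u w)

/-- homogenised square -/
def hqN (s t u w : ℕ) (c : Col) : ℕ := mm (es s c) (r3 t u w)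

/-- homogenised unit -/
def huN : ℕ := mm (rp 128) (r3 384 1152 3456)

section

variable (C : Fin 4 → Col)

lemma m2_rd (i j : Fin 6) (p q : Fin 4) (d e s t : ℕ)
    (h1 : Rd (en d s (C p)) (packed (aZ C) p i)) (h2 : Rd (en e t (C q)) (packed (aZ C) q j))
    (h3 : Rd (en d t (C q)) (packed (aZ C) q i)) (h4 : Rd (en e s (C p)) (packed (aZ C) p j)) :
    Rd (m2 d e s t (C p) (C q)) (mi p q i j (packed (aZ C))) := h1.mn h2 h3 h4

/-- the fields of an entry index -/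
def dx : Fin 6 → ℕ
  | 0 => 0
  | 1 => 32
  | 2 => 64
  | 3 => 96
  | 4 => 0
  | 5 => 0

lemma en_rd (k : Fin 4) (s : ℕ) (hs : s = 128 * 3 ^ (k : ℕ)) (j : Fin 6) (h4 : j ≠ 4) (h5 : j ≠ 5) :
    Rd (en (dx j) s (C k)) (packed (aZ C) k j) := by
  fin_cases j
  · exact en_rd0 C k s hs
  · exact en_rd1 C k s hs
  · exact en_rd2 C k s hs
  · exact en_rd3 C k s hs
  · exact absurd rfl h4
  · exact absurd rfl h5

/-- entry index without square and unit -/
def Ei (j : Fin 6) : Prop := j ≠ 4 ∧ j ≠ 5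

lemma cc_rd (i j l : Fin 6) (hi : Ei i) (hj : Ei j) (hl : Ei l) (k p q : Fin 4) (s t u : ℕ)
    (hs : s = 128 * 3 ^ (k : ℕ)) (ht : t = 128 * 3 ^ (p : ℕ)) (hu : u = 128 * 3 ^ (q : ℕ)) :
    Rd (cc (dx i) (dx j) (dx l) s t u (C k) (C p) (C q)) (cr i j l k p q (packed (aZ C))) := by
  have e := fun m s (hs : s = 128 * 3 ^ (m : Fin 4).val) (j : Fin 6) (h : Ei j) => en_rd C m s hs j h.1 h.2
  have h := fun (a b : Fin 6) (ha : Ei a) (hb : Ei b) =>
    m2_rd C a b p q (dx a) (dx b) t u (e p t ht a ha) (e q u hu b hb) (e q u hu a ha) (e p t ht b hb)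
  exact (e k s hs i hi).tr (h j l hj hl) (e k s hs j hj) (h i l hi hl) (e k s hs l hl) (h i j hi hj)

lemma hc_rd (i j l : Fin 6) (hi : Ei i) (hj : Ei j) (hl : Ei l) (m k p q : Fin 4) (w s t u : ℕ)
    (hw : w = 128 * 3 ^ (m : ℕ))
    (hs : s = 128 * 3 ^ (k : ℕ)) (ht : t = 128 * 3 ^ (p : ℕ)) (hu : u = 128 * 3 ^ (q : ℕ)) :
    Rd (hcN (dx i) (dx j) (dx l) w s t u (C k) (C p) (C q)) (hc i j l m k p q (packed (aZ C))) :=
  (rp_rd C m w hw).mm (cc_rd C i j l hi hj hl k p q s t u hs ht hu)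

lemma det_rd : Rd (detN (C 0) (C 1) (C 2) (C 3)) (det4 (packed (aZ C))) := by
  have h := fun (a b c : Fin 6) (ha : Ei a) (hb : Ei b) (hc : Ei c) =>
    cc_rd C a b c ha hb hc 1 2 3 384 1152 3456 (by norm_num) (by norm_num) (by norm_num)
  have e := fun (j : Fin 6) (hj : Ei j) => en_rd C 0 128 (by norm_num) j hj.1 hj.2
  have E0 : Ei 0 := ⟨by decide, by decide⟩
  have E1 : Ei 1 := ⟨by decide, by decide⟩
  have E2 : Ei 2 := ⟨by decide, by decide⟩
  have E3 : Ei 3 := ⟨by decide, by decide⟩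
  exact ((e 0 E0).mn (h 1 2 3 E1 E2 E3) (e 1 E1) (h 0 2 3 E0 E2 E3)).ad
    ((e 2 E2).mn (h 0 1 3 E0 E1 E3) (e 3 E3) (h 0 1 2 E0 E1 E2))

lemma dt_rd (a b c d : Fin 4) (s t u w : ℕ)
    (hs : s = 128 * 3 ^ (a : ℕ)) (ht : t = 128 * 3 ^ (b : ℕ)) (hu : u = 128 * 3 ^ (c : ℕ))
    (hw : w = 128 * 3 ^ (d : ℕ)) :
    Rd (dtN s t u w (C a) (C b)) (dd a b c d (packed (aZ C))) := by
  have h0 := (en_rd0 C a s hs).mm (en_rd0 C b t ht)
  have h1 := (en_rd1 C a s hs).mm (en_rd1 C b t ht)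
  have h2 := (en_rd2 C a s hs).mm (en_rd2 C b t ht)
  have h3 := (en_rd3 C a s hs).mm (en_rd3 C b t ht)
  exact ((h0.ad h1).ad (h2.ad h3)).mm ((rp_rd C c u hu).mm (rp_rd C d w hw))

lemma r3_rd (a b c : Fin 4) (t u w : ℕ)
    (ht : t = 128 * 3 ^ (a : ℕ)) (hu : u = 128 * 3 ^ (b : ℕ)) (hw : w = 128 * 3 ^ (c : ℕ)) :
    Rd (r3 t u w) (packed (aZ C) a 5 * (packed (aZ C) b 5 * packed (aZ C) c 5)) :=
  (rp_rd C a t ht).mm ((rp_rd C b u hu).mm (rp_rd C c w hw))

lemma hh_rd (j : Fin 6) (hj : Ei j) (k a b c : Fin 4) (s t u w : ℕ) (hs : s = 128 * 3 ^ (k : ℕ))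
    (ht : t = 128 * 3 ^ (a : ℕ)) (hu : u = 128 * 3 ^ (b : ℕ)) (hw : w = 128 * 3 ^ (c : ℕ)) :
    Rd (hhN (dx j) s t u w (C k)) (hh j k a b c (packed (aZ C))) :=
  (en_rd C k s hs j hj.1 hj.2).mm (r3_rd C a b c t u w ht hu hw)

lemma hq_rd (k a b c : Fin 4) (s t u w : ℕ) (hs : s = 128 * 3 ^ (k : ℕ))
    (ht : t = 128 * 3 ^ (a : ℕ)) (hu : u = 128 * 3 ^ (b : ℕ)) (hw : w = 128 * 3 ^ (c : ℕ)) :
    Rd (hqN s t u w (C k)) (hh 4 k a b c (packed (aZ C))) :=
  (es_rd C k s hs).mm (r3_rd C a b c t u w ht hu hw)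

lemma hu_rd : Rd huN (hh 5 0 1 2 3 (packed (aZ C))) :=
  (rp_rd C 0 128 (by norm_num)).mm (r3_rd C 1 2 3 384 1152 3456 (by norm_num) (by norm_num) (by norm_num))

end

/-- `Y` does not depend on the squares. -/
def QF (F : (Fin 4 → Fin 6 → ℝ) → ℝ) : Prop :=
  ∀ X X' : Fin 4 → Fin 6 → ℝ, (∀ k j, j ≠ 4 → X k j = X' k j) → F X = F X'

lemma augv_comb (a b : Fin 4 → ℝ) (s t : ℝ) (h : s + t = 1) (j : Fin 6) (hj : j ≠ 4) :
    augv (s • a + t • b) j = (s • augv a + t • augv b) j := by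
  have e : ∀ x y : ℝ, 65536 * (s * x + t * y + 1) = s * (65536 * (x + 1)) + t * (65536 * (y + 1)) := by
    intro x y
    have : (1 : ℝ) = s + t := h.symm
    linear_combination 65536 * this
  fin_cases j
  · exact e _ _
  · exact e _ _
  · exact e _ _
  · exact e _ _
  · exact absurd rfl hj
  · show (1 : ℝ) = s * 1 + t * 1
    linarith

lemma MA.of_lin {F : (Fin 4 → Fin 6 → ℝ) → ℝ} (hL : Lin univ F) (hQ : QF F) :
    MA (fun D => F (aug D)) := by
  intro k D a b s t hst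
  simp only []
  rw [aug_update, aug_update, aug_update, ← hL.1 k (mem_univ k) (aug D) (augv a) (augv b) s t]
  apply hQ
  intro m j hj
  by_cases h : m = k
  · subst h
    rw [Function.update_self, Function.update_self]
    exact augv_comb a b s t hst j hj
  · rw [Function.update_of_ne h, Function.update_of_ne h]

lemma QF.mi (p q : Fin 4) (i j : Fin 6) (hi : i ≠ 4) (hj : j ≠ 4) : QF (mi p q i j) := by
  intro X X' h
  unfold CK.mi
  rw [h p i hi, h q j hj, h q i hi, h p j hj]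

lemma QF.cr (i j l : Fin 6) (hi : i ≠ 4) (hj : j ≠ 4) (hl : l ≠ 4) (k p q : Fin 4) :
    QF (cr i j l k p q) := by
  intro X X' h
  unfold CK.cr
  rw [h k i hi, h k j hj, h k l hl, QF.mi p q j l hj hl X X' h, QF.mi p q i l hi hl X X' h,
    QF.mi p q i j hi hj X X' h]

lemma QF.hc (i j l : Fin 6) (hi : i ≠ 4) (hj : j ≠ 4) (hl : l ≠ 4) (m k p q : Fin 4) :
    QF (hc i j l m k p q) := by
  intro X X' h
  unfold CK.hc
  rw [h m 5 (by decide), QF.cr i j l hi hj hl k p q X X' h]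

lemma QF.det4 : QF det4 := by
  intro X X' h
  unfold CK.det4
  rw [h 0 0 (by decide), h 0 1 (by decide), h 0 2 (by decide), h 0 3 (by decide),
    QF.cr 1 2 3 (by decide) (by decide) (by decide) 1 2 3 X X' h,
    QF.cr 0 2 3 (by decide) (by decide) (by decide) 1 2 3 X X' h,
    QF.cr 0 1 3 (by decide) (by decide) (by decide) 1 2 3 X X' h,
    QF.cr 0 1 2 (by decide) (by decide) (by decide) 1 2 3 X X' h]

lemma QF.dd (a b c d : Fin 4) : QF (dd a b c d) := by
  intro X X' h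
  unfold CK.dd
  rw [h a 0 (by decide), h a 1 (by decide), h a 2 (by decide), h a 3 (by decide),
    h b 0 (by decide), h b 1 (by decide), h b 2 (by decide), h b 3 (by decide),
    h c 5 (by decide), h d 5 (by decide)]

lemma QF.hh (j : Fin 6) (hj : j ≠ 4) (k a b c : Fin 4) : QF (hh j k a b c) := by
  intro X X' h
  unfold CK.hh
  rw [h k j hj, h a 5 (by decide), h b 5 (by decide), h c 5 (by decide)]

/-- Minus a homogenised square is concave. -/
lemma CC.neg_sq (k a b c : Fin 4) : CC (fun D => - hh 4 k a b c (aug D)) := by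
  have e : ∀ D : Cols, hh 4 k a b c (aug D)
      = ((65536 * (D k 0 + 1)) * (65536 * (D k 0 + 1)) + (65536 * (D k 1 + 1)) * (65536 * (D k 1 + 1)))
      + ((65536 * (D k 2 + 1)) * (65536 * (D k 2 + 1)) + (65536 * (D k 3 + 1)) * (65536 * (D k 3 + 1))) := by
    intro D
    unfold hh
    have h5 : ∀ m, aug D m 5 = 1 := fun m => rfl
    rw [h5, h5, h5, mul_one, mul_one, mul_one]
    rfl
  intro m D x y s t hs ht hst
  simp only []
  rw [e, e, e]
  by_cases h : m = k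
  · subst h
    simp only [Function.update_self, Pi.add_apply, Pi.smul_apply, smul_eq_mul]
    have key : ∀ u v : ℝ, (65536 * (s * u + t * v + 1)) * (65536 * (s * u + t * v + 1))
        ≤ s * ((65536 * (u + 1)) * (65536 * (u + 1))) + t * ((65536 * (v + 1)) * (65536 * (v + 1))) := by
      intro u v
      have ht' : t = 1 - s := by linarith
      subst ht'
      have h1 : 0 ≤ s * (1 - s) * (65536 * 65536 * ((u - v) * (u - v))) :=
        mul_nonneg (mul_nonneg hs ht) (mul_nonneg (by norm_num) (mul_self_nonneg _))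
      nlinarith [h1]
    have k0 := key (x 0) (y 0)
    have k1 := key (x 1) (y 1)
    have k2 := key (x 2) (y 2)
    have k3 := key (x 3) (y 3)
    linarith
  · simp only [Function.update_of_ne (Ne.symm h)]
    have ht' : t = 1 - s := by linarith
    subst ht'
    apply le_of_eq
    ring

end Pool.Agent.Helper44.CK
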