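import Mathlib
import Pool.Agent.Helper44.CK.Corner

/-!
# The facts used by the certificate of Theorem A (helper44)

`D k j = L_j (P_k)`: the value at the point `P_k` of the chain of the function
`L_j x = g_j . P_j - g_j . x`, which vanishes on the facet `j`; `sum_j L_j = 1`.
`D l - D (l + 1)` is the vector `G_l = (g_j . f_l)_j`.
-/

set_option autoImplicit false

namespace Pool.Agent.Helper44.CK

open Finset

/-- the order of the points in the chains of the six cones: `f`, `-f`, and plus and minus the flips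
of the two opposite pairs -/
def TT : Fin 6 → Fin 4 → Fin 4
  | 0 => ![0, 1, 2, 3]
  | 1 => ![0, 3, 2, 1]
  | 2 => ![0, 1, 3, 2]
  | 3 => ![0, 2, 3, 1]
  | 4 => ![0, 2, 1, 3]
  | 5 => ![0, 3, 1, 2]

/-- The width fact in the direction with the values `n k` at the points `P_k`: `y i` is the value at
the vertex `i` of the simplex; every interval containing the values at the vertices is long. -/
def Wid (D : Cols) (n : Fin 4 → ℤ) : Prop :=
  ∃ y : Fin 4 → ℝ, (∀ k, ∑ i, D k i * y i = n k) ∧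
    ∀ M m : ℝ, (∀ i, m ≤ y i ∧ y i ≤ M) → 577 / 169 ≤ M - m

/-- The same for the simplex truncated at the vertex `k` at depth `e`. -/
def WidT (D : Cols) (k : Fin 4) (e : ℝ) (n : Fin 4 → ℤ) : Prop :=
  ∃ y : Fin 4 → ℝ, (∀ k, ∑ i, D k i * y i = n k) ∧
    ∀ M m : ℝ, (∀ i, i ≠ k → m ≤ y i ∧ y i ≤ M ∧
      m ≤ (1 - e) * y k + e * y i ∧ (1 - e) * y k + e * y i ≤ M) → 577 / 169 ≤ M - m

/-- **The facts.** -/
structure Facts (D : Cols) : Prop where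
  diag : ∀ k, D k k = 0
  sum : ∀ k, ∑ j, D k j = 1
  box : ∀ k j, D k j ≤ 5 / 8
  obt : ∀ l m : Fin 4, l ≠ m → ∑ j, (D l j - D (l + 1) j) * (D m j - D (m + 1) j) ≤ 0
  fos : ∑ l : Fin 4, ∑ j, (D l j - D (l + 1) j) ^ 2 ≤ 4217 / 4096
  fosA : ∀ A : Finset (Fin 4), A.Nonempty → A ≠ univ →
    (1 / 2) * ∑ l : Fin 4, ∑ j, (D l j - D (l + 1) j) ^ 2
      - ∑ j, (∑ l ∈ A, (D l j - D (l + 1) j)) ^ 2 ≤ 703 / 2048
  wid : ∀ n : Fin 4 → ℤ, (∃ k, n k ≠ n 0) → Wid D n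
  row0 : ∀ i, ∑ k, D k i ≤ ∑ k, D k 0
  row3 : ∑ k, D k 3 ≤ ∑ k, D k 1
  cut : ∀ z : Fin 4 → ℤ, ∑ k, z k = 1 → ∀ e : ℝ, 0 ≤ e → e < 1 →
    (∃ i, ∑ k, (z k : ℝ) * D k i ≤ e) ∨ ∃ k, ∀ n : Fin 4 → ℤ, (∃ l, n l ≠ n 0) → WidT D k e n
  noM : ∀ (i : Fin 6) (pos : Fin 4 → Fin 4),
    ¬ ∀ j m, m ≠ pos j → D (TT i (m + 1)) j ≤ D (TT i m) j

end Pool.Agent.Helper44.CK
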