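import Mathlib
import Pool.Agent.Helper44.CK.Code
import Pool.Agent.Helper44.CK.Facts

/-!
# Evaluations (helper44, TET checker)

`Ev C D T b`: the number `T` is packed with the values at the corners of a function which is concave
in each column and at most zero at `D`.
-/

set_option autoImplicit false

namespace Pool.Agent.Helper44.CK

open Finset

/-- The basic predicate. -/
def Ev (C : Fin 4 → Col) (D : Cols) (T : ℕ) (b : ℤ) : Prop :=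
  ∃ Y : Cols → ℝ, CC Y ∧ Y D ≤ 0 ∧ Bs C T Y b

lemma Bs.zero (C : Fin 4 → Col) : Bs C 0 (fun _ => 0) 0 := by
  refine ⟨fun _ => 0, ?_, fun r => by norm_num, fun r => by norm_num⟩
  have : pk (fun _ => 0) = 0 := by
    have := pk_cst 0
    simpa [cst, P] using this
  rw [this]
  exact Rd.nat MM_pos

lemma Ev.zero (C : Fin 4 → Col) (D : Cols) : Ev C D 0 0 :=
  ⟨fun _ => 0, (MA.const 0).cc, le_refl _, Bs.zero C⟩

lemma Ev.add {C : Fin 4 → Col} {D : Cols} {T U : ℕ} {b c : ℤ} (h : Ev C D T b) (h' : Ev C D U c) :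
    Ev C D (ad T U) (b + c) := by
  obtain ⟨Y, h1, h2, h3⟩ := h
  obtain ⟨Z, g1, g2, g3⟩ := h'
  exact ⟨fun D => Y D + Z D, h1.add g1, by simp only []; linarith, h3.add g3⟩

lemma Ev.smul {C : Fin 4 → Col} {D : Cols} {T : ℕ} {b : ℤ} (c : ℕ) (hc : c < 2 ^ 128)
    (h : Ev C D T b) : Ev C D (mm c T) (c * b) := by
  obtain ⟨Y, h1, h2, h3⟩ := h
  exact ⟨fun D => (c : ℝ) * Y D, h1.smul (Nat.cast_nonneg c),
    mul_nonpos_of_nonneg_of_nonpos (Nat.cast_nonneg c) h2, h3.smul c hc⟩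

lemma Ev.mono {C : Fin 4 → Col} {D : Cols} {T : ℕ} {b c : ℤ} (h : Ev C D T b) (hbc : b ≤ c) :
    Ev C D T c := by
  obtain ⟨Y, h1, h2, h3⟩ := h
  exact ⟨Y, h1, h2, h3.mono hbc⟩

/-- `D` lies in the cell. -/
def In (C : Fin 4 → Col) (D : Cols) : Prop :=
  ∀ k, ∃ w : Fin 3 → ℝ, (∀ i, 0 ≤ w i) ∧ ∑ i, w i = 1 ∧ D k = ∑ i, w i • fr (vt (C k) i)

/-- The constant of the test. -/
def KT : ℕ := Nat.mul RU 170141183460469231731687303715884105727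

lemma KT_eq : KT = cst (2 ^ 127 - 1) := by
  rw [cst_eq (2 ^ 127 - 1)]
  unfold KT
  norm_num

/-- the test -/
def ts (T : ℕ) : Bool := Nat.beq (Nat.land (ad T KT) KH) KH

/-- **The end of a leaf.** -/
theorem Ev.false {C : Fin 4 → Col} {D : Cols} {T : ℕ} {b : ℤ} (h : Ev C D T b) (hb : b < 2 ^ 127)
    (hD : In C D) (ht : ts T = true) : False := by
  obtain ⟨Y, h1, h2, v, h3, h4, h5⟩ := h
  have ht' : Nat.land (ad T KT) (cst (2 ^ 127)) = cst (2 ^ 127) := by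
    rw [← KH_eq]
    exact Nat.eq_of_beq_eq_true ht
  have hv : ∀ r, |v r| < 2 ^ 127 := fun r => lt_of_le_of_lt (h5 r) hb
  have hR : Rd (ad T KT) (pk v + (cst (2 ^ 127 - 1) : ℤ)) := by
    rw [← KT_eq]
    refine h3.ad (Rd.nat ?_)
    rw [KT_eq]
    exact cst_lt _ (by norm_num)
  have hT : ((ad T KT : ℕ) : ℤ) = pk v + (cst (2 ^ 127 - 1) : ℤ) := by
    refine Rd.exact hR (fun r => ?_) (fun r => ?_)
    · have := (abs_lt.1 (hv r)).1
      push_cast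
      linarith
    · have := (abs_lt.1 (hv r)).2
      push_cast
      linarith
  have hpos := test_sound v hv (ad T KT) hT ht'
  choose w hw hs he using hD
  refine corner_false h1 D h2 (fun k i => fr (vt (C k) i)) w hw hs he fun r => ?_
  have := h4 r
  unfold crn at this
  rw [this]
  exact_mod_cast hpos r

attribute [irreducible] ts KT

/-! ### Ranges -/

/-- the range of four reals -/
noncomputable def rg4r (x0 x1 x2 x3 : ℝ) : ℝ := max (max x0 x1) (max x2 x3) - min (min x0 x1) (min x2 x3)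

/-- the truncated range -/
noncomputable def rgTr (j : ℕ) (y x1 x2 x3 : ℝ) : ℝ :=
  max (64 * max (max x1 x2) x3) ((64 - (j : ℝ)) * y + j * max (max x1 x2) x3)
    - min (64 * min (min x1 x2) x3) ((64 - (j : ℝ)) * y + j * min (min x1 x2) x3)

lemma cast_rg4 (a b c d : ℤ) : ((rg4 a b c d : ℤ) : ℝ) = rg4r a b c d := by
  unfold rg4 rg4r; push_cast; rfl

lemma cast_rgT (j : ℕ) (a b c d : ℤ) : ((rgT j a b c d : ℤ) : ℝ) = rgTr j a b c d := by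
  unfold rgT rgTr; push_cast; rfl

lemma bd_rg4 {a b c d B : ℤ} (h0 : |a| ≤ B) (h1 : |b| ≤ B) (h2 : |c| ≤ B) (h3 : |d| ≤ B) :
    |rg4 a b c d| ≤ 2 * B := by
  have a0 := abs_le.1 h0
  have a1 := abs_le.1 h1
  have a2 := abs_le.1 h2
  have a3 := abs_le.1 h3
  unfold rg4
  rw [abs_le]
  constructor <;> omega

lemma bd_rgT (j : ℕ) (hj : j ≤ 64) {a b c d B : ℤ} (h0 : |a| ≤ B) (h1 : |b| ≤ B) (h2 : |c| ≤ B)
    (h3 : |d| ≤ B) : |rgT j a b c d| ≤ 256 * B := by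
  have a0 := abs_le.1 h0
  have a1 := abs_le.1 h1
  have a2 := abs_le.1 h2
  have a3 := abs_le.1 h3
  have hB : 0 ≤ B := le_trans (abs_nonneg _) h0
  have hM : |max (max b c) d| ≤ B := by rw [abs_le]; constructor <;> omega
  have hm : |min (min b c) d| ≤ B := by rw [abs_le]; constructor <;> omega
  have hj' : (j : ℤ) ≤ 64 := by exact_mod_cast hj
  have hj0 : (0 : ℤ) ≤ j := Int.natCast_nonneg j
  have e : ∀ x y : ℤ, |x| ≤ B → |y| ≤ B → |(64 - (j : ℤ)) * x + j * y| ≤ 64 * B := by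
    intro x y hx hy
    have h1 := b_mul (le_of_eq (abs_of_nonneg (by linarith : (0 : ℤ) ≤ 64 - j))) hx
    have h2 := b_mul (le_of_eq (abs_of_nonneg hj0)) hy
    have := b_add h1 h2
    linarith [this]
  have e1 := e a _ h0 hM
  have e2 := e a _ h0 hm
  have e3 : |64 * max (max b c) d| ≤ 64 * B := b_mul (by norm_num) hM
  have e4 : |64 * min (min b c) d| ≤ 64 * B := b_mul (by norm_num) hm
  unfold rgT
  generalize (64 - (j : ℤ)) * a + j * max (max b c) d = u at *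
  generalize (64 - (j : ℤ)) * a + j * min (min b c) d = v at *
  generalize 64 * max (max b c) d = u' at *
  generalize 64 * min (min b c) d = v' at *
  have b1 := abs_le.1 e1
  have b2 := abs_le.1 e2
  have b3 := abs_le.1 e3
  have b4 := abs_le.1 e4
  rw [abs_le]
  constructor <;> omega

lemma Bs.rg4 {C : Fin 4 → Col} {T0 T1 T2 T3 : ℕ} {Y0 Y1 Y2 Y3 : Cols → ℝ} {b : ℤ} (hb : b < 2 ^ 110)
    (h0 : Bs C T0 Y0 b) (h1 : Bs C T1 Y1 b) (h2 : Bs C T2 Y2 b) (h3 : Bs C T3 Y3 b) :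
    Bs C (rng4 (ad T0 KQ) (ad T1 KQ) (ad T2 KQ) (ad T3 KQ))
      (fun D => rg4r (Y0 D) (Y1 D) (Y2 D) (Y3 D)) (2 * b) := by
  obtain ⟨v0, a0, c0, d0⟩ := h0
  obtain ⟨v1, a1, c1, d1⟩ := h1
  obtain ⟨v2, a2, c2, d2⟩ := h2
  obtain ⟨v3, a3, c3, d3⟩ := h3
  refine ⟨fun r => CK.rg4 (v0 r) (v1 r) (v2 r) (v3 r), ?_, fun r => ?_, fun r =>
    bd_rg4 (d0 r) (d1 r) (d2 r) (d3 r)⟩
  · have l0 : ∀ r, |v0 r| < 2 ^ 110 := fun r => lt_of_le_of_lt (d0 r) hb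
    have l1 : ∀ r, |v1 r| < 2 ^ 110 := fun r => lt_of_le_of_lt (d1 r) hb
    have l2 : ∀ r, |v2 r| < 2 ^ 110 := fun r => lt_of_le_of_lt (d2 r) hb
    have l3 : ∀ r, |v3 r| < 2 ^ 110 := fun r => lt_of_le_of_lt (d3 r) hb
    exact rng4_sound (Np.of_rd a0 l0) (Np.of_rd a1 l1) (Np.of_rd a2 l2) (Np.of_rd a3 l3) l0 l1 l2 l3
  · simp only []
    rw [cast_rg4, c0, c1, c2, c3]

lemma Bs.rgT {C : Fin 4 → Col} {T0 T1 T2 T3 : ℕ} {Y0 Y1 Y2 Y3 : Cols → ℝ} {b : ℤ} (hb : b < 2 ^ 110)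
    (j : ℕ) (hj : j ≤ 64)
    (h0 : Bs C T0 Y0 b) (h1 : Bs C T1 Y1 b) (h2 : Bs C T2 Y2 b) (h3 : Bs C T3 Y3 b) :
    Bs C (rngT j (ad T0 KQ) (ad T1 KQ) (ad T2 KQ) (ad T3 KQ))
      (fun D => rgTr j (Y0 D) (Y1 D) (Y2 D) (Y3 D)) (256 * b) := by
  obtain ⟨v0, a0, c0, d0⟩ := h0
  obtain ⟨v1, a1, c1, d1⟩ := h1
  obtain ⟨v2, a2, c2, d2⟩ := h2
  obtain ⟨v3, a3, c3, d3⟩ := h3
  refine ⟨fun r => CK.rgT j (v0 r) (v1 r) (v2 r) (v3 r), ?_, fun r => ?_, fun r =>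
    bd_rgT j hj (d0 r) (d1 r) (d2 r) (d3 r)⟩
  · have l0 : ∀ r, |v0 r| < 2 ^ 110 := fun r => lt_of_le_of_lt (d0 r) hb
    have l1 : ∀ r, |v1 r| < 2 ^ 110 := fun r => lt_of_le_of_lt (d1 r) hb
    have l2 : ∀ r, |v2 r| < 2 ^ 110 := fun r => lt_of_le_of_lt (d2 r) hb
    have l3 : ∀ r, |v3 r| < 2 ^ 110 := fun r => lt_of_le_of_lt (d3 r) hb
    exact rngT_sound j hj (Np.of_rd a0 l0) (Np.of_rd a1 l1) (Np.of_rd a2 l2) (Np.of_rd a3 l3) l0 l1 l2 l3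
  · simp only []
    rw [cast_rgT, c0, c1, c2, c3]

lemma CC.congr {Y Z : Cols → ℝ} (h : CC Y) (e : ∀ D, Y D = Z D) : CC Z := by
  have : Y = Z := funext e
  rw [← this]
  exact h

lemma cc_rg4 {Y0 Y1 Y2 Y3 : Cols → ℝ} (h0 : MA Y0) (h1 : MA Y1) (h2 : MA Y2) (h3 : MA Y3) :
    CC (fun D => - rg4r (Y0 D) (Y1 D) (Y2 D) (Y3 D)) := by
  have a := ((h0.neg.cc.min h1.neg.cc).min (h2.neg.cc.min h3.neg.cc)).add
    ((h0.cc.min h1.cc).min (h2.cc.min h3.cc))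
  refine a.congr fun D => ?_
  unfold rg4r
  rw [min_neg_neg, min_neg_neg, min_neg_neg]
  ring

lemma cc_rgT (j : ℕ) (hj : j ≤ 64) {Y0 Y1 Y2 Y3 : Cols → ℝ} (h0 : MA Y0) (h1 : MA Y1) (h2 : MA Y2)
    (h3 : MA Y3) :
    CC (fun D => - rgTr j (Y0 D) (Y1 D) (Y2 D) (Y3 D)) := by
  have hj' : (0 : ℝ) ≤ 64 - (j : ℝ) := by
    have : (j : ℝ) ≤ 64 := by exact_mod_cast hj
    linarith
  have hj0 : (0 : ℝ) ≤ (j : ℝ) := Nat.cast_nonneg j
  have mM := (h1.neg.cc.min h2.neg.cc).min h3.neg.cc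
  have mm := (h1.cc.min h2.cc).min h3.cc
  have a := ((mM.smul (by norm_num : (0 : ℝ) ≤ 64)).min ((h0.neg.cc.smul hj').add (mM.smul hj0))).add
    ((mm.smul (by norm_num : (0 : ℝ) ≤ 64)).min ((h0.cc.smul hj').add (mm.smul hj0)))
  refine a.congr fun D => ?_
  unfold rgTr
  have e : ∀ x y z : ℝ, min (min (-x) (-y)) (-z) = - max (max x y) z := by
    intro x y z
    rw [min_neg_neg, min_neg_neg]
  rw [e]
  generalize max (max (Y1 D) (Y2 D)) (Y3 D) = M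
  generalize min (min (Y1 D) (Y2 D)) (Y3 D) = m
  have e2 : (64 - (j : ℝ)) * (-(Y0 D)) + j * (-M) = -((64 - (j : ℝ)) * Y0 D + j * M) := by ring
  have e3 : (64 : ℝ) * (-M) = -(64 * M) := by ring
  rw [e2, e3, min_neg_neg]
  ring

end Pool.Agent.Helper44.CK
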