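import Mathlib
import Pool.Agent.Helper44.CK.Ev

/-!
# The width items (helper44, TET checker)
-/

set_option autoImplicit false

namespace Pool.Agent.Helper44.CK

open Finset

/-- a coordinate of the adjugate times `n` -/
def xR (i j l : Fin 6) (n0 n1 n2 n3 : ℕ) (X : Fin 4 → Fin 6 → ℝ) : ℝ :=
  ((n0 : ℝ) * hc i j l 0 1 2 3 X + (n2 : ℝ) * hc i j l 2 3 0 1 X)
    - ((n1 : ℝ) * hc i j l 1 0 2 3 X + (n3 : ℝ) * hc i j l 3 2 0 1 X)

/-- the same with the other sign -/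
def xRo (i j l : Fin 6) (n0 n1 n2 n3 : ℕ) (X : Fin 4 → Fin 6 → ℝ) : ℝ :=
  ((n1 : ℝ) * hc i j l 1 0 2 3 X + (n3 : ℝ) * hc i j l 3 2 0 1 X)
    - ((n0 : ℝ) * hc i j l 0 1 2 3 X + (n2 : ℝ) * hc i j l 2 3 0 1 X)

section

variable {C : Fin 4 → Col} (hC : ∀ k i, Gd (vt (C k) i))
include hC

lemma hcB (i j l : Fin 6) (hi : Ei i) (hj : Ei j) (hl : Ei l) (m k p q : Fin 4) (w s t u : ℕ)
    (hw : w = 128 * 3 ^ (m : ℕ))
    (hs : s = 128 * 3 ^ (k : ℕ)) (ht : t = 128 * 3 ^ (p : ℕ)) (hu : u = 128 * 3 ^ (q : ℕ))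
    (h : ({p} : Finset (Fin 4)) ∩ {q} = ∅)
    (h' : ({k} : Finset (Fin 4)) ∩ ({p} ∪ {q}) = ∅)
    (h'' : ({m} : Finset (Fin 4)) ∩ ({k} ∪ ({p} ∪ {q})) = ∅)
    (hun : ({m} : Finset (Fin 4)) ∪ ({k} ∪ ({p} ∪ {q})) = univ) :
    Bs C (hcN (dx i) (dx j) (dx l) w s t u (C k) (C p) (C q))
      (fun D => hc i j l m k p q (aug D)) (2 ^ 54) :=
  Bs.of_lin hC (hc i j l m k p q) (hc i j l m k p q) (Lin.hc i j l h h' h'' hun)
    (cast_hc i j l m k p q) (fun _ hX => bd_hc hX m k p q i j l hi hj hl)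
    (hc_rd C i j l hi hj hl m k p q w s t u hw hs ht hu)

lemma h0B (i j l : Fin 6) (hi : Ei i) (hj : Ei j) (hl : Ei l) :
    Bs C (hcN (dx i) (dx j) (dx l) 128 384 1152 3456 (C 1) (C 2) (C 3))
      (fun D => hc i j l 0 1 2 3 (aug D)) (2 ^ 54) :=
  hcB hC i j l hi hj hl 0 1 2 3 128 384 1152 3456 (by norm_num) (by norm_num) (by norm_num)
    (by norm_num) (by decide) (by decide) (by decide) (by decide)

lemma h1B (i j l : Fin 6) (hi : Ei i) (hj : Ei j) (hl : Ei l) :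
    Bs C (hcN (dx i) (dx j) (dx l) 384 128 1152 3456 (C 0) (C 2) (C 3))
      (fun D => hc i j l 1 0 2 3 (aug D)) (2 ^ 54) :=
  hcB hC i j l hi hj hl 1 0 2 3 384 128 1152 3456 (by norm_num) (by norm_num) (by norm_num)
    (by norm_num) (by decide) (by decide) (by decide) (by decide)

lemma h2B (i j l : Fin 6) (hi : Ei i) (hj : Ei j) (hl : Ei l) :
    Bs C (hcN (dx i) (dx j) (dx l) 1152 3456 128 384 (C 3) (C 0) (C 1))
      (fun D => hc i j l 2 3 0 1 (aug D)) (2 ^ 54) :=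
  hcB hC i j l hi hj hl 2 3 0 1 1152 3456 128 384 (by norm_num) (by norm_num) (by norm_num)
    (by norm_num) (by decide) (by decide) (by decide) (by decide)

lemma h3B (i j l : Fin 6) (hi : Ei i) (hj : Ei j) (hl : Ei l) :
    Bs C (hcN (dx i) (dx j) (dx l) 3456 1152 128 384 (C 2) (C 0) (C 1))
      (fun D => hc i j l 3 2 0 1 (aug D)) (2 ^ 54) :=
  hcB hC i j l hi hj hl 3 2 0 1 3456 1152 128 384 (by norm_num) (by norm_num) (by norm_num)
    (by norm_num) (by decide) (by decide) (by decide) (by decide)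

lemma xeB (i j l : Fin 6) (hi : Ei i) (hj : Ei j) (hl : Ei l) (n0 n1 n2 n3 : ℕ)
    (b0 : n0 ≤ 7) (b1 : n1 ≤ 7) (b2 : n2 ≤ 7) (b3 : n3 ≤ 7) :
    Bs C (xe (dx i) (dx j) (dx l) n0 n1 n2 n3 (C 0) (C 1) (C 2) (C 3))
      (fun D => xR i j l n0 n1 n2 n3 (aug D)) (2 ^ 59) := by
  have l64 : ∀ n : ℕ, n ≤ 7 → n < 2 ^ 128 := fun n hn => lt_of_le_of_lt hn (by norm_num)
  have k := (((h0B hC i j l hi hj hl).smul n0 (l64 _ b0)).add
    ((h2B hC i j l hi hj hl).smul n2 (l64 _ b2))).sub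
    (((h1B hC i j l hi hj hl).smul n1 (l64 _ b1)).add ((h3B hC i j l hi hj hl).smul n3 (l64 _ b3)))
  refine k.mono ?_
  have z0 : (n0 : ℤ) ≤ 7 := by exact_mod_cast b0
  have z1 : (n1 : ℤ) ≤ 7 := by exact_mod_cast b1
  have z2 : (n2 : ℤ) ≤ 7 := by exact_mod_cast b2
  have z3 : (n3 : ℤ) ≤ 7 := by exact_mod_cast b3
  linarith

lemma xoB (i j l : Fin 6) (hi : Ei i) (hj : Ei j) (hl : Ei l) (n0 n1 n2 n3 : ℕ)
    (b0 : n0 ≤ 7) (b1 : n1 ≤ 7) (b2 : n2 ≤ 7) (b3 : n3 ≤ 7) :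
    Bs C (xo (dx i) (dx j) (dx l) n0 n1 n2 n3 (C 0) (C 1) (C 2) (C 3))
      (fun D => xRo i j l n0 n1 n2 n3 (aug D)) (2 ^ 59) := by
  have l64 : ∀ n : ℕ, n ≤ 7 → n < 2 ^ 128 := fun n hn => lt_of_le_of_lt hn (by norm_num)
  have k := (((h1B hC i j l hi hj hl).smul n1 (l64 _ b1)).add
    ((h3B hC i j l hi hj hl).smul n3 (l64 _ b3))).sub
    (((h0B hC i j l hi hj hl).smul n0 (l64 _ b0)).add ((h2B hC i j l hi hj hl).smul n2 (l64 _ b2)))
  refine k.mono ?_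
  have z0 : (n0 : ℤ) ≤ 7 := by exact_mod_cast b0
  have z1 : (n1 : ℤ) ≤ 7 := by exact_mod_cast b1
  have z2 : (n2 : ℤ) ≤ 7 := by exact_mod_cast b2
  have z3 : (n3 : ℤ) ≤ 7 := by exact_mod_cast b3
  linarith

lemma detB : Bs C (detN (C 0) (C 1) (C 2) (C 3)) (fun D => det4 (aug D)) (2 ^ 73) :=
  Bs.of_lin hC det4 det4 Lin.det4 cast_det4 (fun _ hX => bd_det4 hX) (det_rd C)

end

lemma hcM (i j l : Fin 6) (hi : Ei i) (hj : Ei j) (hl : Ei l) (m k p q : Fin 4)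
    (h : ({p} : Finset (Fin 4)) ∩ {q} = ∅)
    (h' : ({k} : Finset (Fin 4)) ∩ ({p} ∪ {q}) = ∅)
    (h'' : ({m} : Finset (Fin 4)) ∩ ({k} ∪ ({p} ∪ {q})) = ∅)
    (hun : ({m} : Finset (Fin 4)) ∪ ({k} ∪ ({p} ∪ {q})) = univ) :
    MA (fun D => hc i j l m k p q (aug D)) :=
  MA.of_lin (Lin.hc i j l h h' h'' hun) (QF.hc i j l hi.1 hj.1 hl.1 m k p q)

lemma xR_MA (i j l : Fin 6) (hi : Ei i) (hj : Ei j) (hl : Ei l) (n0 n1 n2 n3 : ℕ) :
    MA (fun D => xR i j l n0 n1 n2 n3 (aug D)) := by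
  have a0 := hcM i j l hi hj hl 0 1 2 3 (by decide) (by decide) (by decide) (by decide)
  have a1 := hcM i j l hi hj hl 1 0 2 3 (by decide) (by decide) (by decide) (by decide)
  have a2 := hcM i j l hi hj hl 2 3 0 1 (by decide) (by decide) (by decide) (by decide)
  have a3 := hcM i j l hi hj hl 3 2 0 1 (by decide) (by decide) (by decide) (by decide)
  exact ((a0.smul (n0 : ℝ)).add (a2.smul (n2 : ℝ))).sub ((a1.smul (n1 : ℝ)).add (a3.smul (n3 : ℝ)))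

lemma xRo_MA (i j l : Fin 6) (hi : Ei i) (hj : Ei j) (hl : Ei l) (n0 n1 n2 n3 : ℕ) :
    MA (fun D => xRo i j l n0 n1 n2 n3 (aug D)) := by
  have a0 := hcM i j l hi hj hl 0 1 2 3 (by decide) (by decide) (by decide) (by decide)
  have a1 := hcM i j l hi hj hl 1 0 2 3 (by decide) (by decide) (by decide) (by decide)
  have a2 := hcM i j l hi hj hl 2 3 0 1 (by decide) (by decide) (by decide) (by decide)
  have a3 := hcM i j l hi hj hl 3 2 0 1 (by decide) (by decide) (by decide) (by decide)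
  exact ((a1.smul (n1 : ℝ)).add (a3.smul (n3 : ℝ))).sub ((a0.smul (n0 : ℝ)).add (a2.smul (n2 : ℝ)))

/-- **Cramer.** -/
lemma cramer (X : Fin 4 → Fin 6 → ℝ) (h5 : ∀ k, X k 5 = 1) (n0 n1 n2 n3 : ℕ) (w0 w1 w2 w3 : ℝ)
    (e0 : X 0 0 * w0 + X 0 1 * w1 + X 0 2 * w2 + X 0 3 * w3 = n0)
    (e1 : X 1 0 * w0 + X 1 1 * w1 + X 1 2 * w2 + X 1 3 * w3 = n1)
    (e2 : X 2 0 * w0 + X 2 1 * w1 + X 2 2 * w2 + X 2 3 * w3 = n2)
    (e3 : X 3 0 * w0 + X 3 1 * w1 + X 3 2 * w2 + X 3 3 * w3 = n3) :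
    xR 1 2 3 n0 n1 n2 n3 X = det4 X * w0 ∧ xRo 0 2 3 n0 n1 n2 n3 X = det4 X * w1 ∧
    xR 0 1 3 n0 n1 n2 n3 X = det4 X * w2 ∧ xRo 0 1 2 n0 n1 n2 n3 X = det4 X * w3 := by
  unfold xR xRo hc det4 cr mi
  rw [h5, h5, h5, h5, ← e0, ← e1, ← e2, ← e3]
  refine ⟨by ring, by ring, by ring, by ring⟩

/-- The four coordinates at `D`. -/
lemma x_at {D : Cols} (hsum : ∀ k, ∑ j, D k j = 1) (n0 n1 n2 n3 : ℕ) (y : Fin 4 → ℝ)
    (e0 : ∑ i, D 0 i * y i = n0) (e1 : ∑ i, D 1 i * y i = n1)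
    (e2 : ∑ i, D 2 i * y i = n2) (e3 : ∑ i, D 3 i * y i = n3) :
    xR 1 2 3 n0 n1 n2 n3 (aug D) = det4 (aug D) * ((y 0 - (y 0 + y 1 + y 2 + y 3) / 5) / 65536) ∧
    xRo 0 2 3 n0 n1 n2 n3 (aug D) = det4 (aug D) * ((y 1 - (y 0 + y 1 + y 2 + y 3) / 5) / 65536) ∧
    xR 0 1 3 n0 n1 n2 n3 (aug D) = det4 (aug D) * ((y 2 - (y 0 + y 1 + y 2 + y 3) / 5) / 65536) ∧
    xRo 0 1 2 n0 n1 n2 n3 (aug D) = det4 (aug D) * ((y 3 - (y 0 + y 1 + y 2 + y 3) / 5) / 65536) := by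
  have key : ∀ k : Fin 4, ∀ n : ℕ, ∑ i, D k i * y i = n →
      aug D k 0 * ((y 0 - (y 0 + y 1 + y 2 + y 3) / 5) / 65536)
      + aug D k 1 * ((y 1 - (y 0 + y 1 + y 2 + y 3) / 5) / 65536)
      + aug D k 2 * ((y 2 - (y 0 + y 1 + y 2 + y 3) / 5) / 65536)
      + aug D k 3 * ((y 3 - (y 0 + y 1 + y 2 + y 3) / 5) / 65536) = n := by
    intro k n hn
    have h1 := hsum k
    rw [Fin.sum_univ_four] at h1 hn
    have a0 : aug D k 0 = 65536 * (D k 0 + 1) := rfl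
    have a1 : aug D k 1 = 65536 * (D k 1 + 1) := rfl
    have a2 : aug D k 2 = 65536 * (D k 2 + 1) := rfl
    have a3 : aug D k 3 = 65536 * (D k 3 + 1) := rfl
    rw [a0, a1, a2, a3]
    have h3 : D k 3 = 1 - D k 0 - D k 1 - D k 2 := by linarith
    rw [h3] at hn ⊢
    rw [← hn]
    ring
  exact cramer (aug D) (fun k => rfl) n0 n1 n2 n3 _ _ _ _ (key 0 n0 e0) (key 1 n1 e1) (key 2 n2 e2)
    (key 3 n3 e3)

/-- comparison of the two ranges -/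
lemma wid_key (V : Set ℝ) (d S mn Mx : ℝ) (hV : V.Nonempty)
    (h : ∀ M m : ℝ, (∀ p ∈ V, m ≤ p ∧ p ≤ M) → 577 / 169 ≤ M - m)
    (hx : ∀ p ∈ V, mn ≤ 64 * (d * ((p - S) / 65536)) ∧ 64 * (d * ((p - S) / 65536)) ≤ Mx) :
    |d| * (64 * (577 / 169) / 65536) ≤ Mx - mn := by
  rcases lt_trichotomy d 0 with hd | hd | hd
  · have hne : d ≠ 0 := hd.ne
    have h1 := h (S + mn / d * 1024) (S + Mx / d * 1024) (fun p hp => by
      obtain ⟨a, b⟩ := hx p hp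
      have hp' : p = S + (64 * (d * ((p - S) / 65536))) / d * 1024 := by
        field_simp
        ring
      generalize 64 * (d * ((p - S) / 65536)) = q at *
      have c1 : q / d ≤ mn / d := div_le_div_of_nonpos_of_le hd.le a
      have c2 : Mx / d ≤ q / d := div_le_div_of_nonpos_of_le hd.le b
      constructor <;> linarith)
    rw [abs_of_neg hd]
    have e : mn / d * 1024 - Mx / d * 1024 = (Mx - mn) / (-d) * 1024 := by
      field_simp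
      ring
    have h2 : 577 / 169 ≤ (Mx - mn) / (-d) * 1024 := by linarith
    have hd' : 0 < -d := by linarith
    have h3 : (Mx - mn) = ((Mx - mn) / (-d)) * (-d) := by
      have hne' : -d ≠ 0 := hd'.ne'
      field_simp
    rw [h3]
    generalize (Mx - mn) / (-d) = z at *
    nlinarith
  · subst hd
    obtain ⟨p, hp⟩ := hV
    obtain ⟨a, b⟩ := hx p hp
    simp only [abs_zero, zero_mul]
    linarith
  · have h1 := h (S + Mx / d * 1024) (S + mn / d * 1024) (fun p hp => by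
      obtain ⟨a, b⟩ := hx p hp
      have hp' : p = S + (64 * (d * ((p - S) / 65536))) / d * 1024 := by
        field_simp
        ring
      generalize 64 * (d * ((p - S) / 65536)) = q at *
      have c1 : mn / d ≤ q / d := div_le_div_of_nonneg_right a hd.le
      have c2 : q / d ≤ Mx / d := div_le_div_of_nonneg_right b hd.le
      constructor <;> linarith)
    rw [abs_of_pos hd]
    have e : Mx / d * 1024 - mn / d * 1024 = (Mx - mn) / d * 1024 := by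
      field_simp
    have h2 : 577 / 169 ≤ (Mx - mn) / d * 1024 := by linarith
    have h3 : (Mx - mn) = ((Mx - mn) / d) * d := by field_simp
    rw [h3]
    generalize (Mx - mn) / d = z at *
    nlinarith

end Pool.Agent.Helper44.CK
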