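import Mathlib
import Pool.Agent.Helper44.CK.XI

/-!
# The items with the determinant (helper44, TET checker)
-/

set_option autoImplicit false

namespace Pool.Agent.Helper44.CK

open Finset

/-- plain range times 64 -/
def rrP (n0 n1 n2 n3 : ℕ) (A B C D : Col) : ℕ :=
  mm 64 (rng4 (ad (xe 32 64 96 n0 n1 n2 n3 A B C D) KQ) (ad (xo 0 64 96 n0 n1 n2 n3 A B C D) KQ)
    (ad (xe 0 32 96 n0 n1 n2 n3 A B C D) KQ) (ad (xo 0 32 64 n0 n1 n2 n3 A B C D) KQ))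

/-- range truncated at the vertex 0 -/
def rr0 (j n0 n1 n2 n3 : ℕ) (A B C D : Col) : ℕ :=
  rngT j (ad (xe 32 64 96 n0 n1 n2 n3 A B C D) KQ) (ad (xo 0 64 96 n0 n1 n2 n3 A B C D) KQ)
    (ad (xe 0 32 96 n0 n1 n2 n3 A B C D) KQ) (ad (xo 0 32 64 n0 n1 n2 n3 A B C D) KQ)

/-- range truncated at the vertex 1 -/
def rr1 (j n0 n1 n2 n3 : ℕ) (A B C D : Col) : ℕ :=
  rngT j (ad (xo 0 64 96 n0 n1 n2 n3 A B C D) KQ) (ad (xe 32 64 96 n0 n1 n2 n3 A B C D) KQ)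
    (ad (xe 0 32 96 n0 n1 n2 n3 A B C D) KQ) (ad (xo 0 32 64 n0 n1 n2 n3 A B C D) KQ)

/-- range truncated at the vertex 2 -/
def rr2 (j n0 n1 n2 n3 : ℕ) (A B C D : Col) : ℕ :=
  rngT j (ad (xe 0 32 96 n0 n1 n2 n3 A B C D) KQ) (ad (xe 32 64 96 n0 n1 n2 n3 A B C D) KQ)
    (ad (xo 0 64 96 n0 n1 n2 n3 A B C D) KQ) (ad (xo 0 32 64 n0 n1 n2 n3 A B C D) KQ)

/-- range truncated at the vertex 3 -/
def rr3 (j n0 n1 n2 n3 : ℕ) (A B C D : Col) : ℕ :=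
  rngT j (ad (xo 0 32 64 n0 n1 n2 n3 A B C D) KQ) (ad (xe 32 64 96 n0 n1 n2 n3 A B C D) KQ)
    (ad (xo 0 64 96 n0 n1 n2 n3 A B C D) KQ) (ad (xe 0 32 96 n0 n1 n2 n3 A B C D) KQ)

/-- item X -/
def itX (ds rr : ℕ) : ℕ := sb (mm 332352 ds) (mm 99680256 rr)

/-- item D -/
def itD (ds : ℕ) : ℕ := sb 0 (mm 97344 ds)

/-- `T` is packed with a function, minus which is concave, and which is large at `D`. -/
def RR (C : Fin 4 → Col) (D : Cols) (T : ℕ) : Prop :=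
  ∃ Y : Cols → ℝ, CC (fun D => - Y D) ∧ Bs C T Y (2 ^ 67) ∧
    |det4 (aug D)| * (64 * (577 / 169) / 65536) ≤ Y D

/-- `ds` is packed with the determinant times a sign, nonnegative at `D`. -/
def Sg (C : Fin 4 → Col) (D : Cols) (ds : ℕ) : Prop :=
  ∃ Y : Cols → ℝ, MA Y ∧ Bs C ds Y (2 ^ 73) ∧ 0 ≤ Y D ∧ Y D = |det4 (aug D)|

lemma itX_ev {C : Fin 4 → Col} {D : Cols} {ds rr : ℕ} (h : Sg C D ds) (h' : RR C D rr) :
    Ev C D (itX ds rr) (2 ^ 96) := by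
  obtain ⟨Y, h1, h2, _, h4⟩ := h
  obtain ⟨Z, g1, g2, g3⟩ := h'
  refine ⟨fun D => (332352 : ℕ) * Y D - (99680256 : ℕ) * Z D, ?_, ?_, ?_⟩
  · have a := (h1.smul (332352 : ℝ)).cc.add (g1.smul (by norm_num : (0 : ℝ) ≤ 99680256))
    refine a.congr fun D => ?_
    push_cast
    ring
  · simp only []
    rw [h4]
    push_cast
    nlinarith
  · exact ((h2.smul 332352 (by norm_num)).sub (g2.smul 99680256 (by norm_num))).mono (by norm_num)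

lemma itD_ev {C : Fin 4 → Col} {D : Cols} {ds : ℕ} (h : Sg C D ds) : Ev C D (itD ds) (2 ^ 96) := by
  obtain ⟨Y, h1, h2, h3, _⟩ := h
  refine ⟨fun D => 0 - (97344 : ℕ) * Y D, ?_, ?_, ?_⟩
  · have a := (h1.smul (-97344 : ℝ)).cc
    refine a.congr fun D => ?_
    push_cast
    ring
  · simp only []
    push_cast
    linarith
  · exact ((Bs.zero C).sub (h2.smul 97344 (by norm_num))).mono (by norm_num)

lemma sg_pos {C : Fin 4 → Col} (hC : ∀ k i, Gd (vt (C k) i)) {D : Cols} (hd : 0 ≤ det4 (aug D)) :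
    Sg C D (detN (C 0) (C 1) (C 2) (C 3)) :=
  ⟨fun D => det4 (aug D), MA.of_lin Lin.det4 QF.det4, detB hC, hd, (abs_of_nonneg hd).symm⟩

lemma sg_neg {C : Fin 4 → Col} (hC : ∀ k i, Gd (vt (C k) i)) {D : Cols} (hd : det4 (aug D) ≤ 0) :
    Sg C D (sb 0 (detN (C 0) (C 1) (C 2) (C 3))) := by
  refine ⟨fun D => 0 - det4 (aug D), (MA.const 0).sub (MA.of_lin Lin.det4 QF.det4), ?_, ?_, ?_⟩
  · exact ((Bs.zero C).sub (detB hC)).mono (by norm_num)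
  · simp only []
    linarith
  · simp only []
    rw [abs_of_nonpos hd]
    ring

/-- the width facts in terms of naturals -/
def NC (n0 n1 n2 n3 : ℕ) : Prop := ∃ k, (![(n0 : ℤ), n1, n2, n3] : Fin 4 → ℤ) k ≠ (n0 : ℤ)

lemma E0 : Ei 0 := ⟨by decide, by decide⟩
lemma E1 : Ei 1 := ⟨by decide, by decide⟩
lemma E2 : Ei 2 := ⟨by decide, by decide⟩
lemma E3 : Ei 3 := ⟨by decide, by decide⟩

lemma le_rg4r {x0 x1 x2 x3 : ℝ} : (∀ x ∈ ({x0, x1, x2, x3} : Set ℝ),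
    min (min x0 x1) (min x2 x3) ≤ x ∧ x ≤ max (max x0 x1) (max x2 x3)) := by
  intro x hx
  simp only [Set.mem_insert_iff, Set.mem_singleton_iff] at hx
  rcases hx with rfl | rfl | rfl | rfl
  · exact ⟨le_trans (min_le_left _ _) (min_le_left _ _), le_trans (le_max_left _ _) (le_max_left _ _)⟩
  · exact ⟨le_trans (min_le_left _ _) (min_le_right _ _), le_trans (le_max_right _ _) (le_max_left _ _)⟩
  · exact ⟨le_trans (min_le_right _ _) (min_le_left _ _), le_trans (le_max_left _ _) (le_max_right _ _)⟩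
  · exact ⟨le_trans (min_le_right _ _) (min_le_right _ _), le_trans (le_max_right _ _) (le_max_right _ _)⟩

lemma rrP_ok {C : Fin 4 → Col} (hC : ∀ k i, Gd (vt (C k) i)) {D : Cols} (hsum : ∀ k, ∑ j, D k j = 1)
    (n0 n1 n2 n3 : ℕ) (b0 : n0 ≤ 7) (b1 : n1 ≤ 7) (b2 : n2 ≤ 7) (b3 : n3 ≤ 7)
    (hw : Wid D ![(n0 : ℤ), n1, n2, n3]) : RR C D (rrP n0 n1 n2 n3 (C 0) (C 1) (C 2) (C 3)) := by
  have c0 := xeB hC 1 2 3 E1 E2 E3 n0 n1 n2 n3 b0 b1 b2 b3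
  have c1 := xoB hC 0 2 3 E0 E2 E3 n0 n1 n2 n3 b0 b1 b2 b3
  have c2 := xeB hC 0 1 3 E0 E1 E3 n0 n1 n2 n3 b0 b1 b2 b3
  have c3 := xoB hC 0 1 2 E0 E1 E2 n0 n1 n2 n3 b0 b1 b2 b3
  have m0 := xR_MA 1 2 3 E1 E2 E3 n0 n1 n2 n3
  have m1 := xRo_MA 0 2 3 E0 E2 E3 n0 n1 n2 n3
  have m2 := xR_MA 0 1 3 E0 E1 E3 n0 n1 n2 n3
  have m3 := xRo_MA 0 1 2 E0 E1 E2 n0 n1 n2 n3
  refine ⟨fun D => (64 : ℕ) * rg4r (xR 1 2 3 n0 n1 n2 n3 (aug D)) (xRo 0 2 3 n0 n1 n2 n3 (aug D))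
    (xR 0 1 3 n0 n1 n2 n3 (aug D)) (xRo 0 1 2 n0 n1 n2 n3 (aug D)), ?_, ?_, ?_⟩
  · refine ((cc_rg4 m0 m1 m2 m3).smul (by norm_num : (0 : ℝ) ≤ 64)).congr fun D => ?_
    push_cast
    ring
  · exact ((Bs.rg4 (by norm_num) c0 c1 c2 c3).smul 64 (by norm_num)).mono (by norm_num)
  · obtain ⟨y, hy, hM⟩ := hw
    obtain ⟨x0, x1, x2, x3⟩ := x_at hsum n0 n1 n2 n3 y (by simpa using hy 0) (by simpa using hy 1)
      (by simpa using hy 2) (by simpa using hy 3)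
    simp only []
    rw [x0, x1, x2, x3]
    set d := det4 (aug D) with hd
    set S := (y 0 + y 1 + y 2 + y 3) / 5 with hS
    have key := wid_key (Set.range y) d S
      (64 * min (min (d * ((y 0 - S) / 65536)) (d * ((y 1 - S) / 65536)))
        (min (d * ((y 2 - S) / 65536)) (d * ((y 3 - S) / 65536))))
      (64 * max (max (d * ((y 0 - S) / 65536)) (d * ((y 1 - S) / 65536)))
        (max (d * ((y 2 - S) / 65536)) (d * ((y 3 - S) / 65536)))) (Set.range_nonempty y)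
      (fun M m h => hM M m fun i => h (y i) ⟨i, rfl⟩)
      (fun p hp => by
        obtain ⟨i, rfl⟩ := hp
        have hl := le_rg4r (x0 := d * ((y 0 - S) / 65536)) (x1 := d * ((y 1 - S) / 65536))
          (x2 := d * ((y 2 - S) / 65536)) (x3 := d * ((y 3 - S) / 65536)) (d * ((y i - S) / 65536))
          (by fin_cases i <;> simp)
        exact ⟨mul_le_mul_of_nonneg_left hl.1 (by norm_num), mul_le_mul_of_nonneg_left hl.2 (by norm_num)⟩)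
    unfold rg4r
    push_cast
    linarith

/-- the values of the truncated simplex -/
lemma le_rgTr (j : ℕ) (y x1 x2 x3 x : ℝ) (hx : x = x1 ∨ x = x2 ∨ x = x3) :
    (min (64 * min (min x1 x2) x3) ((64 - (j : ℝ)) * y + j * min (min x1 x2) x3) ≤ 64 * x ∧
    64 * x ≤ max (64 * max (max x1 x2) x3) ((64 - (j : ℝ)) * y + j * max (max x1 x2) x3)) ∧
    (min (64 * min (min x1 x2) x3) ((64 - (j : ℝ)) * y + j * min (min x1 x2) x3)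
      ≤ (64 - (j : ℝ)) * y + j * x ∧
    (64 - (j : ℝ)) * y + j * x
      ≤ max (64 * max (max x1 x2) x3) ((64 - (j : ℝ)) * y + j * max (max x1 x2) x3)) := by
  have h1 : min (min x1 x2) x3 ≤ x := by
    rcases hx with rfl | rfl | rfl
    · exact le_trans (min_le_left _ _) (min_le_left _ _)
    · exact le_trans (min_le_left _ _) (min_le_right _ _)
    · exact min_le_right _ _
  have h2 : x ≤ max (max x1 x2) x3 := by
    rcases hx with rfl | rfl | rfl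
    · exact le_trans (le_max_left _ _) (le_max_left _ _)
    · exact le_trans (le_max_right _ _) (le_max_left _ _)
    · exact le_max_right _ _
  have hj0 : (0 : ℝ) ≤ j := Nat.cast_nonneg j
  have a1 := mul_le_mul_of_nonneg_left h1 hj0
  have a2 := mul_le_mul_of_nonneg_left h2 hj0
  refine ⟨⟨le_trans (min_le_left _ _) (by linarith), le_trans (by linarith) (le_max_left _ _)⟩,
    ⟨le_trans (min_le_right _ _) (by linarith), le_trans (by linarith) (le_max_right _ _)⟩⟩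

/-- the truncated width in a symmetric form -/
lemma trunc_key (j : ℕ) (k a b c : Fin 4)
    (hk : ∀ i, i ≠ k ↔ (i = a ∨ i = b ∨ i = c)) (y : Fin 4 → ℝ)
    (hM : ∀ M m : ℝ, (∀ i, i ≠ k → m ≤ y i ∧ y i ≤ M ∧
      m ≤ (1 - (j : ℝ) / 64) * y k + (j : ℝ) / 64 * y i ∧
      (1 - (j : ℝ) / 64) * y k + (j : ℝ) / 64 * y i ≤ M) → 577 / 169 ≤ M - m) (d S : ℝ) :
    |d| * (64 * (577 / 169) / 65536) ≤ rgTr j (d * ((y k - S) / 65536)) (d * ((y a - S) / 65536))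
      (d * ((y b - S) / 65536)) (d * ((y c - S) / 65536)) := by
  have key := wid_key ({p | ∃ i, i ≠ k ∧ (p = y i ∨ p = (1 - (j : ℝ) / 64) * y k + (j : ℝ) / 64 * y i)}) d S
    (min (64 * min (min (d * ((y a - S) / 65536)) (d * ((y b - S) / 65536))) (d * ((y c - S) / 65536)))
      ((64 - (j : ℝ)) * (d * ((y k - S) / 65536)) + j *
        min (min (d * ((y a - S) / 65536)) (d * ((y b - S) / 65536))) (d * ((y c - S) / 65536))))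
    (max (64 * max (max (d * ((y a - S) / 65536)) (d * ((y b - S) / 65536))) (d * ((y c - S) / 65536)))
      ((64 - (j : ℝ)) * (d * ((y k - S) / 65536)) + j *
        max (max (d * ((y a - S) / 65536)) (d * ((y b - S) / 65536))) (d * ((y c - S) / 65536))))
    ⟨y a, a, (hk a).2 (Or.inl rfl), Or.inl rfl⟩
    (fun M m h => hM M m fun i hi => by
      obtain ⟨p1, p2⟩ := h (y i) ⟨i, hi, Or.inl rfl⟩
      obtain ⟨q1, q2⟩ := h _ ⟨i, hi, Or.inr rfl⟩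
      exact ⟨p1, p2, q1, q2⟩)
    (fun p hp => by
      obtain ⟨i, hi, hp⟩ := hp
      have hl := le_rgTr j (d * ((y k - S) / 65536)) (d * ((y a - S) / 65536))
        (d * ((y b - S) / 65536)) (d * ((y c - S) / 65536)) (d * ((y i - S) / 65536))
        (by rcases (hk i).1 hi with rfl | rfl | rfl
            · exact Or.inl rfl
            · exact Or.inr (Or.inl rfl)
            · exact Or.inr (Or.inr rfl))
      rcases hp with rfl | rfl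
      · exact hl.1
      · have e : 64 * (d * (((1 - (j : ℝ) / 64) * y k + (j : ℝ) / 64 * y i - S) / 65536))
            = (64 - (j : ℝ)) * (d * ((y k - S) / 65536)) + j * (d * ((y i - S) / 65536)) := by
          field_simp
          ring
        rw [e]
        exact hl.2)
  unfold rgTr
  exact key

lemma rr0_ok {C : Fin 4 → Col} (hC : ∀ k i, Gd (vt (C k) i)) {D : Cols} (hsum : ∀ k, ∑ j, D k j = 1)
    (j : ℕ) (hj : j ≤ 64)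
    (n0 n1 n2 n3 : ℕ) (b0 : n0 ≤ 7) (b1 : n1 ≤ 7) (b2 : n2 ≤ 7) (b3 : n3 ≤ 7)
    (hw : WidT D 0 ((j : ℝ) / 64) ![(n0 : ℤ), n1, n2, n3]) :
    RR C D (rr0 j n0 n1 n2 n3 (C 0) (C 1) (C 2) (C 3)) := by
  have c0 := xeB hC 1 2 3 E1 E2 E3 n0 n1 n2 n3 b0 b1 b2 b3
  have c1 := xoB hC 0 2 3 E0 E2 E3 n0 n1 n2 n3 b0 b1 b2 b3
  have c2 := xeB hC 0 1 3 E0 E1 E3 n0 n1 n2 n3 b0 b1 b2 b3
  have c3 := xoB hC 0 1 2 E0 E1 E2 n0 n1 n2 n3 b0 b1 b2 b3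
  have m0 := xR_MA 1 2 3 E1 E2 E3 n0 n1 n2 n3
  have m1 := xRo_MA 0 2 3 E0 E2 E3 n0 n1 n2 n3
  have m2 := xR_MA 0 1 3 E0 E1 E3 n0 n1 n2 n3
  have m3 := xRo_MA 0 1 2 E0 E1 E2 n0 n1 n2 n3
  refine ⟨_, cc_rgT j hj m0 m1 m2 m3, (Bs.rgT (by norm_num) j hj c0 c1 c2 c3).mono (by norm_num), ?_⟩
  obtain ⟨y, hy, hM⟩ := hw
  obtain ⟨x0, x1, x2, x3⟩ := x_at hsum n0 n1 n2 n3 y (by simpa using hy 0) (by simpa using hy 1)
    (by simpa using hy 2) (by simpa using hy 3)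
  rw [x0, x1, x2, x3]
  exact trunc_key j 0 1 2 3 (by decide) y hM _ _

lemma rr1_ok {C : Fin 4 → Col} (hC : ∀ k i, Gd (vt (C k) i)) {D : Cols} (hsum : ∀ k, ∑ j, D k j = 1)
    (j : ℕ) (hj : j ≤ 64)
    (n0 n1 n2 n3 : ℕ) (b0 : n0 ≤ 7) (b1 : n1 ≤ 7) (b2 : n2 ≤ 7) (b3 : n3 ≤ 7)
    (hw : WidT D 1 ((j : ℝ) / 64) ![(n0 : ℤ), n1, n2, n3]) :
    RR C D (rr1 j n0 n1 n2 n3 (C 0) (C 1) (C 2) (C 3)) := by
  have c0 := xeB hC 1 2 3 E1 E2 E3 n0 n1 n2 n3 b0 b1 b2 b3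
  have c1 := xoB hC 0 2 3 E0 E2 E3 n0 n1 n2 n3 b0 b1 b2 b3
  have c2 := xeB hC 0 1 3 E0 E1 E3 n0 n1 n2 n3 b0 b1 b2 b3
  have c3 := xoB hC 0 1 2 E0 E1 E2 n0 n1 n2 n3 b0 b1 b2 b3
  have m0 := xR_MA 1 2 3 E1 E2 E3 n0 n1 n2 n3
  have m1 := xRo_MA 0 2 3 E0 E2 E3 n0 n1 n2 n3
  have m2 := xR_MA 0 1 3 E0 E1 E3 n0 n1 n2 n3
  have m3 := xRo_MA 0 1 2 E0 E1 E2 n0 n1 n2 n3
  refine ⟨_, cc_rgT j hj m1 m0 m2 m3, (Bs.rgT (by norm_num) j hj c1 c0 c2 c3).mono (by norm_num), ?_⟩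
  obtain ⟨y, hy, hM⟩ := hw
  obtain ⟨x0, x1, x2, x3⟩ := x_at hsum n0 n1 n2 n3 y (by simpa using hy 0) (by simpa using hy 1)
    (by simpa using hy 2) (by simpa using hy 3)
  rw [x0, x1, x2, x3]
  exact trunc_key j 1 0 2 3 (by decide) y hM _ _

lemma rr2_ok {C : Fin 4 → Col} (hC : ∀ k i, Gd (vt (C k) i)) {D : Cols} (hsum : ∀ k, ∑ j, D k j = 1)
    (j : ℕ) (hj : j ≤ 64)
    (n0 n1 n2 n3 : ℕ) (b0 : n0 ≤ 7) (b1 : n1 ≤ 7) (b2 : n2 ≤ 7) (b3 : n3 ≤ 7)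
    (hw : WidT D 2 ((j : ℝ) / 64) ![(n0 : ℤ), n1, n2, n3]) :
    RR C D (rr2 j n0 n1 n2 n3 (C 0) (C 1) (C 2) (C 3)) := by
  have c0 := xeB hC 1 2 3 E1 E2 E3 n0 n1 n2 n3 b0 b1 b2 b3
  have c1 := xoB hC 0 2 3 E0 E2 E3 n0 n1 n2 n3 b0 b1 b2 b3
  have c2 := xeB hC 0 1 3 E0 E1 E3 n0 n1 n2 n3 b0 b1 b2 b3
  have c3 := xoB hC 0 1 2 E0 E1 E2 n0 n1 n2 n3 b0 b1 b2 b3
  have m0 := xR_MA 1 2 3 E1 E2 E3 n0 n1 n2 n3
  have m1 := xRo_MA 0 2 3 E0 E2 E3 n0 n1 n2 n3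
  have m2 := xR_MA 0 1 3 E0 E1 E3 n0 n1 n2 n3
  have m3 := xRo_MA 0 1 2 E0 E1 E2 n0 n1 n2 n3
  refine ⟨_, cc_rgT j hj m2 m0 m1 m3, (Bs.rgT (by norm_num) j hj c2 c0 c1 c3).mono (by norm_num), ?_⟩
  obtain ⟨y, hy, hM⟩ := hw
  obtain ⟨x0, x1, x2, x3⟩ := x_at hsum n0 n1 n2 n3 y (by simpa using hy 0) (by simpa using hy 1)
    (by simpa using hy 2) (by simpa using hy 3)
  rw [x0, x1, x2, x3]
  exact trunc_key j 2 0 1 3 (by decide) y hM _ _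

lemma rr3_ok {C : Fin 4 → Col} (hC : ∀ k i, Gd (vt (C k) i)) {D : Cols} (hsum : ∀ k, ∑ j, D k j = 1)
    (j : ℕ) (hj : j ≤ 64)
    (n0 n1 n2 n3 : ℕ) (b0 : n0 ≤ 7) (b1 : n1 ≤ 7) (b2 : n2 ≤ 7) (b3 : n3 ≤ 7)
    (hw : WidT D 3 ((j : ℝ) / 64) ![(n0 : ℤ), n1, n2, n3]) :
    RR C D (rr3 j n0 n1 n2 n3 (C 0) (C 1) (C 2) (C 3)) := by
  have c0 := xeB hC 1 2 3 E1 E2 E3 n0 n1 n2 n3 b0 b1 b2 b3
  have c1 := xoB hC 0 2 3 E0 E2 E3 n0 n1 n2 n3 b0 b1 b2 b3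
  have c2 := xeB hC 0 1 3 E0 E1 E3 n0 n1 n2 n3 b0 b1 b2 b3
  have c3 := xoB hC 0 1 2 E0 E1 E2 n0 n1 n2 n3 b0 b1 b2 b3
  have m0 := xR_MA 1 2 3 E1 E2 E3 n0 n1 n2 n3
  have m1 := xRo_MA 0 2 3 E0 E2 E3 n0 n1 n2 n3
  have m2 := xR_MA 0 1 3 E0 E1 E3 n0 n1 n2 n3
  have m3 := xRo_MA 0 1 2 E0 E1 E2 n0 n1 n2 n3
  refine ⟨_, cc_rgT j hj m3 m0 m1 m2, (Bs.rgT (by norm_num) j hj c3 c0 c1 c2).mono (by norm_num), ?_⟩
  obtain ⟨y, hy, hM⟩ := hw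
  obtain ⟨x0, x1, x2, x3⟩ := x_at hsum n0 n1 n2 n3 y (by simpa using hy 0) (by simpa using hy 1)
    (by simpa using hy 2) (by simpa using hy 3)
  rw [x0, x1, x2, x3]
  exact trunc_key j 3 0 1 2 (by decide) y hM _ _

end Pool.Agent.Helper44.CK
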