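import Mathlib
import Pool.Agent.Helper44.CK.It

/-!
# The items without the determinant (helper44, TET checker)
-/

set_option autoImplicit false

namespace Pool.Agent.Helper44.CK

open Finset

section

variable {C : Fin 4 → Col} (hC : ∀ k i, Gd (vt (C k) i))
include hC

lemma ddB (a b c d : Fin 4) (s t u w : ℕ)
    (hs : s = 128 * 3 ^ (a : ℕ)) (ht : t = 128 * 3 ^ (b : ℕ)) (hu : u = 128 * 3 ^ (c : ℕ))
    (hw : w = 128 * 3 ^ (d : ℕ)) (h1 : ({a} : Finset (Fin 4)) ∩ {b} = ∅)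
    (h2 : ({c} : Finset (Fin 4)) ∩ {d} = ∅)
    (h3 : (({a} ∪ {b}) : Finset (Fin 4)) ∩ ({c} ∪ {d}) = ∅)
    (h4 : (({a} ∪ {b}) : Finset (Fin 4)) ∪ ({c} ∪ {d}) = univ) :
    Bs C (dtN s t u w (C a) (C b)) (fun D => dd a b c d (aug D)) (2 ^ 36) :=
  Bs.of_lin hC (dd a b c d) (dd a b c d) (Lin.dd h1 h2 h3 h4) (cast_dd a b c d)
    (fun _ hX => bd_dd hX a b c d) (dt_rd C a b c d s t u w hs ht hu hw)

lemma hqB (k a b c : Fin 4) (s t u w : ℕ) (hs : s = 128 * 3 ^ (k : ℕ))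
    (ht : t = 128 * 3 ^ (a : ℕ)) (hu : u = 128 * 3 ^ (b : ℕ)) (hw : w = 128 * 3 ^ (c : ℕ))
    (h1 : ({b} : Finset (Fin 4)) ∩ {c} = ∅)
    (h2 : ({a} : Finset (Fin 4)) ∩ ({b} ∪ {c}) = ∅)
    (h3 : ({k} : Finset (Fin 4)) ∩ ({a} ∪ ({b} ∪ {c})) = ∅)
    (h4 : ({k} : Finset (Fin 4)) ∪ ({a} ∪ ({b} ∪ {c})) = univ) :
    Bs C (hqN s t u w (C k)) (fun D => hh 4 k a b c (aug D)) (2 ^ 36) :=
  Bs.of_lin hC (hh 4 k a b c) (hh 4 k a b c) (Lin.hh 4 h1 h2 h3 h4) (cast_hh 4 k a b c)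
    (fun _ hX => bd_hq hX k a b c) (hq_rd C k a b c s t u w hs ht hu hw)

lemma hhB (j : Fin 6) (hj : Ei j) (k a b c : Fin 4) (s t u w : ℕ) (hs : s = 128 * 3 ^ (k : ℕ))
    (ht : t = 128 * 3 ^ (a : ℕ)) (hu : u = 128 * 3 ^ (b : ℕ)) (hw : w = 128 * 3 ^ (c : ℕ))
    (h1 : ({b} : Finset (Fin 4)) ∩ {c} = ∅)
    (h2 : ({a} : Finset (Fin 4)) ∩ ({b} ∪ {c}) = ∅)
    (h3 : ({k} : Finset (Fin 4)) ∩ ({a} ∪ ({b} ∪ {c})) = ∅)
    (h4 : ({k} : Finset (Fin 4)) ∪ ({a} ∪ ({b} ∪ {c})) = univ) :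
    Bs C (hhN (dx j) s t u w (C k)) (fun D => hh j k a b c (aug D)) (2 ^ 17) :=
  Bs.of_lin hC (hh j k a b c) (hh j k a b c) (Lin.hh j h1 h2 h3 h4) (cast_hh j k a b c)
    (fun _ hX => bd_hh hX j k a b c hj) (hh_rd C j hj k a b c s t u w hs ht hu hw)

lemma huB : Bs C huN (fun D => hh 5 0 1 2 3 (aug D)) 1 :=
  Bs.of_lin hC (hh 5 0 1 2 3) (hh 5 0 1 2 3)
    (Lin.hh 5 (by decide) (by decide) (by decide) (by decide)) (cast_hh 5 0 1 2 3)
    (fun _ hX => bd_hu hX 0 1 2 3) (hu_rd C)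

end

lemma ddM (a b c d : Fin 4) (h1 : ({a} : Finset (Fin 4)) ∩ {b} = ∅)
    (h2 : ({c} : Finset (Fin 4)) ∩ {d} = ∅)
    (h3 : (({a} ∪ {b}) : Finset (Fin 4)) ∩ ({c} ∪ {d}) = ∅)
    (h4 : (({a} ∪ {b}) : Finset (Fin 4)) ∪ ({c} ∪ {d}) = univ) :
    MA (fun D => dd a b c d (aug D)) := MA.of_lin (Lin.dd h1 h2 h3 h4) (QF.dd a b c d)

lemma hhM (j : Fin 6) (hj : j ≠ 4) (k a b c : Fin 4)
    (h1 : ({b} : Finset (Fin 4)) ∩ {c} = ∅)
    (h2 : ({a} : Finset (Fin 4)) ∩ ({b} ∪ {c}) = ∅)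
    (h3 : ({k} : Finset (Fin 4)) ∩ ({a} ∪ ({b} ∪ {c})) = ∅)
    (h4 : ({k} : Finset (Fin 4)) ∪ ({a} ∪ ({b} ∪ {c})) = univ) :
    MA (fun D => hh j k a b c (aug D)) := MA.of_lin (Lin.hh j h1 h2 h3 h4) (QF.hh j hj k a b c)

lemma M01 : MA (fun D => dd 0 1 2 3 (aug D)) := ddM 0 1 2 3 (by decide) (by decide) (by decide) (by decide)
lemma M02 : MA (fun D => dd 0 2 1 3 (aug D)) := ddM 0 2 1 3 (by decide) (by decide) (by decide) (by decide)
lemma M03 : MA (fun D => dd 0 3 1 2 (aug D)) := ddM 0 3 1 2 (by decide) (by decide) (by decide) (by decide)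
lemma M12 : MA (fun D => dd 1 2 0 3 (aug D)) := ddM 1 2 0 3 (by decide) (by decide) (by decide) (by decide)
lemma M13 : MA (fun D => dd 1 3 0 2 (aug D)) := ddM 1 3 0 2 (by decide) (by decide) (by decide) (by decide)
lemma M23 : MA (fun D => dd 2 3 0 1 (aug D)) := ddM 2 3 0 1 (by decide) (by decide) (by decide) (by decide)

/-- scalar products -/
def d01 (A B : Col) : ℕ := dtN 128 384 1152 3456 A B
def d02 (A C : Col) : ℕ := dtN 128 1152 384 3456 A C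
def d03 (A D : Col) : ℕ := dtN 128 3456 384 1152 A D
def d12 (B C : Col) : ℕ := dtN 384 1152 128 3456 B C
def d13 (B D : Col) : ℕ := dtN 384 3456 128 1152 B D
def d23 (C D : Col) : ℕ := dtN 1152 3456 128 384 C D
/-- squares -/
def q0 (A : Col) : ℕ := hqN 128 384 1152 3456 A
def q1 (B : Col) : ℕ := hqN 384 128 1152 3456 B
def q2 (C : Col) : ℕ := hqN 1152 128 384 3456 C
def q3 (D : Col) : ℕ := hqN 3456 128 384 1152 D

section

variable {C : Fin 4 → Col} (hC : ∀ k i, Gd (vt (C k) i))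
include hC

lemma B01 : Bs C (d01 (C 0) (C 1)) (fun D => dd 0 1 2 3 (aug D)) (2 ^ 36) :=
  ddB hC 0 1 2 3 128 384 1152 3456 (by norm_num) (by norm_num) (by norm_num) (by norm_num)
    (by decide) (by decide) (by decide) (by decide)
lemma B02 : Bs C (d02 (C 0) (C 2)) (fun D => dd 0 2 1 3 (aug D)) (2 ^ 36) :=
  ddB hC 0 2 1 3 128 1152 384 3456 (by norm_num) (by norm_num) (by norm_num) (by norm_num)
    (by decide) (by decide) (by decide) (by decide)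
lemma B03 : Bs C (d03 (C 0) (C 3)) (fun D => dd 0 3 1 2 (aug D)) (2 ^ 36) :=
  ddB hC 0 3 1 2 128 3456 384 1152 (by norm_num) (by norm_num) (by norm_num) (by norm_num)
    (by decide) (by decide) (by decide) (by decide)
lemma B12 : Bs C (d12 (C 1) (C 2)) (fun D => dd 1 2 0 3 (aug D)) (2 ^ 36) :=
  ddB hC 1 2 0 3 384 1152 128 3456 (by norm_num) (by norm_num) (by norm_num) (by norm_num)
    (by decide) (by decide) (by decide) (by decide)
lemma B13 : Bs C (d13 (C 1) (C 3)) (fun D => dd 1 3 0 2 (aug D)) (2 ^ 36) :=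
  ddB hC 1 3 0 2 384 3456 128 1152 (by norm_num) (by norm_num) (by norm_num) (by norm_num)
    (by decide) (by decide) (by decide) (by decide)
lemma B23 : Bs C (d23 (C 2) (C 3)) (fun D => dd 2 3 0 1 (aug D)) (2 ^ 36) :=
  ddB hC 2 3 0 1 1152 3456 128 384 (by norm_num) (by norm_num) (by norm_num) (by norm_num)
    (by decide) (by decide) (by decide) (by decide)
lemma Q0 : Bs C (q0 (C 0)) (fun D => hh 4 0 1 2 3 (aug D)) (2 ^ 36) :=
  hqB hC 0 1 2 3 128 384 1152 3456 (by norm_num) (by norm_num) (by norm_num) (by norm_num)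
    (by decide) (by decide) (by decide) (by decide)
lemma Q1 : Bs C (q1 (C 1)) (fun D => hh 4 1 0 2 3 (aug D)) (2 ^ 36) :=
  hqB hC 1 0 2 3 384 128 1152 3456 (by norm_num) (by norm_num) (by norm_num) (by norm_num)
    (by decide) (by decide) (by decide) (by decide)
lemma Q2 : Bs C (q2 (C 2)) (fun D => hh 4 2 0 1 3 (aug D)) (2 ^ 36) :=
  hqB hC 2 0 1 3 1152 128 384 3456 (by norm_num) (by norm_num) (by norm_num) (by norm_num)
    (by decide) (by decide) (by decide) (by decide)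
lemma Q3 : Bs C (q3 (C 3)) (fun D => hh 4 3 0 1 2 (aug D)) (2 ^ 36) :=
  hqB hC 3 0 1 2 3456 128 384 1152 (by norm_num) (by norm_num) (by norm_num) (by norm_num)
    (by decide) (by decide) (by decide) (by decide)

end

/-- a scaled entry -/
noncomputable def ae (D : Cols) (k j : Fin 4) : ℝ := 65536 * (D k j + 1)

lemma dd_at (D : Cols) (a b c d : Fin 4) : dd a b c d (aug D)
    = (ae D a 0 * ae D b 0 + ae D a 1 * ae D b 1) + (ae D a 2 * ae D b 2 + ae D a 3 * ae D b 3) := by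
  unfold dd
  have h5 : ∀ m, aug D m 5 = 1 := fun m => rfl
  rw [h5, h5, mul_one, mul_one]
  rfl

lemma hq_at (D : Cols) (k a b c : Fin 4) : hh 4 k a b c (aug D)
    = (ae D k 0 * ae D k 0 + ae D k 1 * ae D k 1) + (ae D k 2 * ae D k 2 + ae D k 3 * ae D k 3) := by
  unfold hh
  have h5 : ∀ m, aug D m 5 = 1 := fun m => rfl
  rw [h5, h5, h5, mul_one, mul_one, mul_one]
  rfl

lemma hu_at (D : Cols) (k a b c : Fin 4) : hh 5 k a b c (aug D) = 1 := by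
  unfold hh
  have h5 : ∀ m, aug D m 5 = 1 := fun m => rfl
  rw [h5, h5, h5, h5]
  norm_num

lemma o_ev {C : Fin 4 → Col} {D : Cols} {TX TY TZ TW : ℕ} {X Y Z W : Cols → ℝ}
    (bX : Bs C TX X (2 ^ 36)) (bY : Bs C TY Y (2 ^ 36)) (bZ : Bs C TZ Z (2 ^ 36))
    (bW : Bs C TW W (2 ^ 36)) (cX : CC X) (cY : CC Y) (cZ : CC (fun D => - Z D))
    (cW : CC (fun D => - W D)) (h : (X D + Y D) - (Z D + W D) ≤ 0) :
    Ev C D (mm 2090446482309120 (sb (ad TX TY) (ad TZ TW))) (2 ^ 96) := by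
  refine ⟨fun D => (2090446482309120 : ℕ) * ((X D + Y D) - (Z D + W D)), ?_, ?_, ?_⟩
  · refine (((cX.add cY).add (cZ.add cW)).smul (by norm_num : (0 : ℝ) ≤ 2090446482309120)).congr fun D => ?_
    push_cast
    ring
  · simp only []
    exact mul_nonpos_of_nonneg_of_nonpos (by positivity) h
  · exact (((bX.add bY).sub (bZ.add bW)).smul 2090446482309120 (by norm_num)).mono (by norm_num)

/-- items O -/
def o01 (A B C : Col) : ℕ := mm 2090446482309120 (sb (ad (d01 A B) (d12 B C)) (ad (d02 A C) (q1 B)))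
def o02 (A B C D : Col) : ℕ := mm 2090446482309120 (sb (ad (d02 A C) (d13 B D)) (ad (d03 A D) (d12 B C)))
def o03 (A B D : Col) : ℕ := mm 2090446482309120 (sb (ad (d03 A D) (d01 A B)) (ad (d13 B D) (q0 A)))
def o12 (B C D : Col) : ℕ := mm 2090446482309120 (sb (ad (d12 B C) (d23 C D)) (ad (d13 B D) (q2 C)))
def o13 (A B C D : Col) : ℕ := mm 2090446482309120 (sb (ad (d13 B D) (d02 A C)) (ad (d01 A B) (d23 C D)))
def o23 (A C D : Col) : ℕ := mm 2090446482309120 (sb (ad (d23 C D) (d03 A D)) (ad (d02 A C) (q3 D)))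

section

variable {C : Fin 4 → Col} (hC : ∀ k i, Gd (vt (C k) i)) {D : Cols}
include hC

lemma o01_ev (h : ∑ j, (D 0 j - D 1 j) * (D 1 j - D 2 j) ≤ 0) :
    Ev C D (o01 (C 0) (C 1) (C 2)) (2 ^ 96) := by
  refine o_ev (B01 hC) (B12 hC) (B02 hC) (Q1 hC) M01.cc M12.cc M02.neg.cc (CC.neg_sq 1 0 2 3) ?_
  rw [Fin.sum_univ_four] at h
  simp only [dd_at, hq_at, ae]
  nlinarith [h]

lemma o02_ev (h : ∑ j, (D 0 j - D 1 j) * (D 2 j - D 3 j) ≤ 0) :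
    Ev C D (o02 (C 0) (C 1) (C 2) (C 3)) (2 ^ 96) := by
  refine o_ev (B02 hC) (B13 hC) (B03 hC) (B12 hC) M02.cc M13.cc M03.neg.cc M12.neg.cc ?_
  rw [Fin.sum_univ_four] at h
  simp only [dd_at, hq_at, ae]
  nlinarith [h]

lemma o03_ev (h : ∑ j, (D 0 j - D 1 j) * (D 3 j - D 0 j) ≤ 0) :
    Ev C D (o03 (C 0) (C 1) (C 3)) (2 ^ 96) := by
  refine o_ev (B03 hC) (B01 hC) (B13 hC) (Q0 hC) M03.cc M01.cc M13.neg.cc (CC.neg_sq 0 1 2 3) ?_
  rw [Fin.sum_univ_four] at h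
  simp only [dd_at, hq_at, ae]
  nlinarith [h]

lemma o12_ev (h : ∑ j, (D 1 j - D 2 j) * (D 2 j - D 3 j) ≤ 0) :
    Ev C D (o12 (C 1) (C 2) (C 3)) (2 ^ 96) := by
  refine o_ev (B12 hC) (B23 hC) (B13 hC) (Q2 hC) M12.cc M23.cc M13.neg.cc (CC.neg_sq 2 0 1 3) ?_
  rw [Fin.sum_univ_four] at h
  simp only [dd_at, hq_at, ae]
  nlinarith [h]

lemma o13_ev (h : ∑ j, (D 1 j - D 2 j) * (D 3 j - D 0 j) ≤ 0) :
    Ev C D (o13 (C 0) (C 1) (C 2) (C 3)) (2 ^ 96) := by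
  refine o_ev (B13 hC) (B02 hC) (B01 hC) (B23 hC) M13.cc M02.cc M01.neg.cc M23.neg.cc ?_
  rw [Fin.sum_univ_four] at h
  simp only [dd_at, hq_at, ae]
  nlinarith [h]

lemma o23_ev (h : ∑ j, (D 2 j - D 3 j) * (D 3 j - D 0 j) ≤ 0) :
    Ev C D (o23 (C 0) (C 2) (C 3)) (2 ^ 96) := by
  refine o_ev (B23 hC) (B03 hC) (B02 hC) (Q3 hC) M23.cc M03.cc M02.neg.cc (CC.neg_sq 3 0 1 2) ?_
  rw [Fin.sum_univ_four] at h
  simp only [dd_at, hq_at, ae]
  nlinarith [h]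

end

end Pool.Agent.Helper44.CK
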