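import Mathlib
import Pool.Agent.Helper44.CK.Jt

/-!
# Tangents, cuts, rows (helper44, TET checker)
-/

set_option autoImplicit false

namespace Pool.Agent.Helper44.CK

open Finset

/-- sum of a coordinate over the vertices -/
def sm (d : ℕ) (c : Col) : ℕ := Nat.add (Nat.add (fl d c.a) (fl d c.b)) (fl d c.c)

/-- coefficient of the column `Q` with the neighbours `P`, `R` -/
def tt (d : ℕ) (P Q R : Col) : ℕ :=
  Nat.mul 6 (Nat.sub (Nat.add (Nat.mul 2 (sm d Q)) 786432) (Nat.add (sm d P) (sm d R)))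

/-- square of a difference -/
def kd (x y : ℕ) : ℕ := Nat.sub (Nat.add (Nat.mul x x) (Nat.mul y y)) (Nat.mul 2 (Nat.mul x y))

/-- sum of the squares of the differences -/
def ka (d : ℕ) (A B C D : Col) : ℕ :=
  Nat.add (Nat.add (kd (sm d A) (sm d B)) (kd (sm d B) (sm d C)))
    (Nat.add (kd (sm d C) (sm d D)) (kd (sm d D) (sm d A)))

/-- the constant of the tangent -/
def kK (A B C D : Col) : ℕ :=
  Nat.add 6184752906240 (Nat.add (Nat.add (ka 0 A B C D) (ka 32 A B C D))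
    (Nat.add (ka 64 A B C D) (ka 96 A B C D)))

/-- the part of the tangent linear in the column `Q` -/
def ltN (s t u w : ℕ) (P Q R : Col) : ℕ :=
  mm (ad (ad (mm (tt 0 P Q R) (en 0 s Q)) (mm (tt 32 P Q R) (en 32 s Q)))
    (ad (mm (tt 64 P Q R) (en 64 s Q)) (mm (tt 96 P Q R) (en 96 s Q)))) (r3 t u w)

/-- the tangent -/
def tgN (A B C D : Col) : ℕ :=
  sb (ad (ad (ltN 128 384 1152 3456 D A B) (ltN 384 128 1152 3456 A B C))
    (ad (ltN 1152 128 384 3456 B C D) (ltN 3456 128 384 1152 C D A))) (mm (kK A B C D) huN)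

section
variable {R : Type*} [CommRing R]

/-- the linear part -/
def lt (t0 t1 t2 t3 : ℕ) (k a b c : Fin 4) (X : Fin 4 → Fin 6 → R) : R :=
  (((t0 : R) * X k 0 + (t1 : R) * X k 1) + ((t2 : R) * X k 2 + (t3 : R) * X k 3))
    * (X a 5 * (X b 5 * X c 5))

lemma Lin.lt {k a b c : Fin 4} (t0 t1 t2 t3 : ℕ) (h1 : ({b} : Finset (Fin 4)) ∩ {c} = ∅)
    (h2 : ({a} : Finset (Fin 4)) ∩ ({b} ∪ {c}) = ∅)
    (h3 : ({k} : Finset (Fin 4)) ∩ ({a} ∪ ({b} ∪ {c})) = ∅)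
    (h4 : ({k} : Finset (Fin 4)) ∪ ({a} ∪ ({b} ∪ {c})) = univ) :
    Lin univ (lt t0 t1 t2 t3 k a b c : (Fin 4 → Fin 6 → R) → R) := by
  unfold CK.lt
  exact ((((Lin.ent k 0).smul (t0 : R)).add ((Lin.ent k 1).smul (t1 : R))).add
    (((Lin.ent k 2).smul (t2 : R)).add ((Lin.ent k 3).smul (t3 : R)))).mul
    ((Lin.ent a 5).mul ((Lin.ent b 5).mul (Lin.ent c 5) h1 rfl) h2 rfl) h3 h4

end

lemma cast_lt (t0 t1 t2 t3 : ℕ) (k a b c : Fin 4) (X : C6) :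
    ((lt t0 t1 t2 t3 k a b c X : ℤ) : ℝ) = lt t0 t1 t2 t3 k a b c (cX X) := by
  unfold lt cX; push_cast; rfl

lemma bd_lt {X : C6} (h : Bx X) (t0 t1 t2 t3 : ℕ) (k a b c : Fin 4) (h0 : t0 ≤ 2 ^ 24)
    (h1 : t1 ≤ 2 ^ 24) (h2 : t2 ≤ 2 ^ 24) (h3 : t3 ≤ 2 ^ 24) : |lt t0 t1 t2 t3 k a b c X| ≤ 2 ^ 43 := by
  unfold lt
  rw [h.u, h.u, h.u, mul_one, mul_one, mul_one]
  have e := fun (t : ℕ) (ht : t ≤ 2 ^ 24) (j : Fin 6) (hj : j ≠ 4) (hj' : j ≠ 5) =>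
    b_mul (show |(t : ℤ)| ≤ 2 ^ 24 by
      rw [abs_of_nonneg (Int.natCast_nonneg t)]; exact_mod_cast ht) (h.e k j hj hj')
  have := b_add (b_add (e t0 h0 0 (by decide) (by decide)) (e t1 h1 1 (by decide) (by decide)))
    (b_add (e t2 h2 2 (by decide) (by decide)) (e t3 h3 3 (by decide) (by decide)))
  refine le_trans this (by norm_num)

lemma QF.lt (t0 t1 t2 t3 : ℕ) (k a b c : Fin 4) : QF (lt t0 t1 t2 t3 k a b c) := by
  intro X X' h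
  unfold CK.lt
  rw [h k 0 (by decide), h k 1 (by decide), h k 2 (by decide), h k 3 (by decide),
    h a 5 (by decide), h b 5 (by decide), h c 5 (by decide)]

lemma sm_le {c : Col} (h : ∀ i, Gd (vt c i)) :
    sm 0 c ≤ 393216 ∧ sm 32 c ≤ 393216 ∧ sm 64 c ≤ 393216 ∧ sm 96 c ≤ 393216 := by
  have h0 : Gd c.a := h 0
  have h1 : Gd c.b := h 1
  have h2 : Gd c.c := h 2
  have e : ∀ d, sm d c = fl d c.a + fl d c.b + fl d c.c := fun d => rfl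
  rw [e, e, e, e]
  have a0 := h0.b0
  have a1 := h0.b1
  have a2 := h0.b2
  have a3 := h0.b3
  have b0 := h1.b0
  have b1 := h1.b1
  have b2 := h1.b2
  have b3 := h1.b3
  have c0 := h2.b0
  have c1 := h2.b1
  have c2 := h2.b2
  have c3 := h2.b3
  refine ⟨by omega, by omega, by omega, by omega⟩

lemma tt_le {P Q R : Col} {d : ℕ} (hQ : sm d Q ≤ 393216) : tt d P Q R ≤ 2 ^ 24 := by
  change 6 * ((2 * sm d Q + 786432) - (sm d P + sm d R)) ≤ 2 ^ 24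
  norm_num
  omega

lemma tt_cast {P Q R : Col} {d : ℕ} (hP : sm d P ≤ 393216) (hR : sm d R ≤ 393216) :
    ((tt d P Q R : ℕ) : ℝ) = 6 * (2 * (sm d Q : ℝ) + 786432 - ((sm d P : ℝ) + (sm d R : ℝ))) := by
  change (((6 * ((2 * sm d Q + 786432) - (sm d P + sm d R)) : ℕ)) : ℝ) = _
  rw [Nat.cast_mul, Nat.cast_sub (by omega)]
  push_cast
  ring

lemma kd_cast (x y : ℕ) : ((kd x y : ℕ) : ℝ) = ((x : ℝ) - y) ^ 2 := by
  have h : 2 * (x * y) ≤ x * x + y * y := by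
    have := two_mul_le_add_sq x y
    nlinarith
  change (((x * x + y * y - 2 * (x * y) : ℕ)) : ℝ) = _
  rw [Nat.cast_sub h]
  push_cast
  ring

lemma kd_le {x y : ℕ} (hx : x ≤ 393216) (hy : y ≤ 393216) : kd x y ≤ 2 ^ 39 := by
  change x * x + y * y - 2 * (x * y) ≤ 2 ^ 39
  have h1 := Nat.mul_le_mul hx hx
  have h2 := Nat.mul_le_mul hy hy
  norm_num at h1 h2 ⊢
  omega

/-- one coordinate of the tangent -/
lemma tang_one (S0 S1 S2 S3 A0 A1 A2 A3 : ℝ) :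
    (6 * (2 * S0 + 786432 - (S3 + S1)) * A0 + 6 * (2 * S1 + 786432 - (S0 + S2)) * A1)
      + (6 * (2 * S2 + 786432 - (S1 + S3)) * A2 + 6 * (2 * S3 + 786432 - (S2 + S0)) * A3)
      - ((S0 - S1) ^ 2 + (S1 - S2) ^ 2 + ((S2 - S3) ^ 2 + (S3 - S0) ^ 2))
      ≤ 4718592 * (A0 + A1 + A2 + A3)
        + 9 * ((A0 - A1) ^ 2 + (A1 - A2) ^ 2 + (A2 - A3) ^ 2 + (A3 - A0) ^ 2) := by
  nlinarith [sq_nonneg (3 * (A0 - A1) - (S0 - S1)), sq_nonneg (3 * (A1 - A2) - (S1 - S2)),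
    sq_nonneg (3 * (A2 - A3) - (S2 - S3)), sq_nonneg (3 * (A3 - A0) - (S3 - S0))]

/-- `9` times the sum of the squares of the differences at `D` -/
noncomputable def F9 (D : Cols) : ℝ :=
  9 * ∑ j, ((ae D 0 j - ae D 1 j) ^ 2 + (ae D 1 j - ae D 2 j) ^ 2 + (ae D 2 j - ae D 3 j) ^ 2
    + (ae D 3 j - ae D 0 j) ^ 2)

/-- The tangent. -/
lemma tgB {C : Fin 4 → Col} (hC : ∀ k i, Gd (vt (C k) i)) :
    ∃ Y : Cols → ℝ, MA Y ∧ Bs C (tgN (C 0) (C 1) (C 2) (C 3)) Y (2 ^ 46) ∧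
      ∀ D : Cols, (∀ k, ∑ j, D k j = 1) → Y D ≤ F9 D := by
  have s0 := sm_le (hC 0)
  have s1 := sm_le (hC 1)
  have s2 := sm_le (hC 2)
  have s3 := sm_le (hC 3)
  have g : ∀ (k a b c p q : Fin 4) (s t u w : ℕ), s = 128 * 3 ^ (k : ℕ) →
      t = 128 * 3 ^ (a : ℕ) → u = 128 * 3 ^ (b : ℕ) → w = 128 * 3 ^ (c : ℕ) →
      (({b} : Finset (Fin 4)) ∩ {c} = ∅) → (({a} : Finset (Fin 4)) ∩ ({b} ∪ {c}) = ∅) →
      (({k} : Finset (Fin 4)) ∩ ({a} ∪ ({b} ∪ {c})) = ∅) →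
      (({k} : Finset (Fin 4)) ∪ ({a} ∪ ({b} ∪ {c})) = univ) →
      Bs C (ltN s t u w (C p) (C k) (C q)) (fun D => lt (tt 0 (C p) (C k) (C q))
        (tt 32 (C p) (C k) (C q)) (tt 64 (C p) (C k) (C q)) (tt 96 (C p) (C k) (C q)) k a b c (aug D))
        (2 ^ 43) := by
    intro k a b c p q s t u w hs ht hu hw h1 h2 h3 h4
    have l := sm_le (hC k)
    have t0 := tt_le (P := C p) (R := C q) l.1
    have t1 := tt_le (P := C p) (R := C q) l.2.1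
    have t2 := tt_le (P := C p) (R := C q) l.2.2.1
    have t3 := tt_le (P := C p) (R := C q) l.2.2.2
    refine Bs.of_lin hC (lt _ _ _ _ k a b c) (lt _ _ _ _ k a b c) (Lin.lt _ _ _ _ h1 h2 h3 h4)
      (cast_lt _ _ _ _ k a b c) (fun _ hX => bd_lt hX _ _ _ _ k a b c t0 t1 t2 t3) ?_
    have r : ∀ n : ℕ, n ≤ 2 ^ 24 → Rd n (n : ℤ) := fun n hn => Rd.nat (lt_of_le_of_lt hn (by
      have hM : MM = Zb ^ (3 ^ 4) := MM_eq
      rw [hM]
      calc 2 ^ 24 < Zb := by norm_num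
        _ ≤ Zb ^ (3 ^ 4) := Nat.le_self_pow (by norm_num) _))
    exact (((r _ t0).mm (en_rd0 C k s hs)).ad ((r _ t1).mm (en_rd1 C k s hs))).ad
      (((r _ t2).mm (en_rd2 C k s hs)).ad ((r _ t3).mm (en_rd3 C k s hs))) |>.mm
      (r3_rd C a b c t u w ht hu hw)
  have g0 := g 0 1 2 3 3 1 128 384 1152 3456 (by norm_num) (by norm_num) (by norm_num) (by norm_num)
    (by decide) (by decide) (by decide) (by decide)
  have g1 := g 1 0 2 3 0 2 384 128 1152 3456 (by norm_num) (by norm_num) (by norm_num) (by norm_num)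
    (by decide) (by decide) (by decide) (by decide)
  have g2 := g 2 0 1 3 1 3 1152 128 384 3456 (by norm_num) (by norm_num) (by norm_num) (by norm_num)
    (by decide) (by decide) (by decide) (by decide)
  have g3 := g 3 0 1 2 2 0 3456 128 384 1152 (by norm_num) (by norm_num) (by norm_num) (by norm_num)
    (by decide) (by decide) (by decide) (by decide)
  have m : ∀ (t0 t1 t2 t3 : ℕ) (k a b c : Fin 4),
      (({b} : Finset (Fin 4)) ∩ {c} = ∅) → (({a} : Finset (Fin 4)) ∩ ({b} ∪ {c}) = ∅) →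
      (({k} : Finset (Fin 4)) ∩ ({a} ∪ ({b} ∪ {c})) = ∅) →
      (({k} : Finset (Fin 4)) ∪ ({a} ∪ ({b} ∪ {c})) = univ) →
      MA (fun D => lt t0 t1 t2 t3 k a b c (aug D)) := fun t0 t1 t2 t3 k a b c h1 h2 h3 h4 =>
    MA.of_lin (Lin.lt t0 t1 t2 t3 h1 h2 h3 h4) (QF.lt t0 t1 t2 t3 k a b c)
  have kle : kK (C 0) (C 1) (C 2) (C 3) ≤ 2 ^ 44 := by
    have e := fun d (h0 : sm d (C 0) ≤ 393216) (h1 : sm d (C 1) ≤ 393216) (h2 : sm d (C 2) ≤ 393216)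
      (h3 : sm d (C 3) ≤ 393216) => (show ka d (C 0) (C 1) (C 2) (C 3) ≤ 2 ^ 41 by
        have a0 := kd_le h0 h1
        have a1 := kd_le h1 h2
        have a2 := kd_le h2 h3
        have a3 := kd_le h3 h0
        change (kd _ _ + kd _ _) + (kd _ _ + kd _ _) ≤ 2 ^ 41
        norm_num at *
        omega)
    have e0 := e 0 s0.1 s1.1 s2.1 s3.1
    have e1 := e 32 s0.2.1 s1.2.1 s2.2.1 s3.2.1
    have e2 := e 64 s0.2.2.1 s1.2.2.1 s2.2.2.1 s3.2.2.1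
    have e3 := e 96 s0.2.2.2 s1.2.2.2 s2.2.2.2 s3.2.2.2
    change 6184752906240 + ((ka _ _ _ _ _ + ka _ _ _ _ _) + (ka _ _ _ _ _ + ka _ _ _ _ _)) ≤ 2 ^ 44
    norm_num at *
    omega
  have hu := (huB hC).smul (kK (C 0) (C 1) (C 2) (C 3)) (lt_of_le_of_lt kle (by norm_num))
  refine ⟨_, ?_, ((g0.add g1).add (g2.add g3)).sub hu |>.mono ?_, ?_⟩
  · exact (((m _ _ _ _ 0 1 2 3 (by decide) (by decide) (by decide) (by decide)).add
      (m _ _ _ _ 1 0 2 3 (by decide) (by decide) (by decide) (by decide))).add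
      ((m _ _ _ _ 2 0 1 3 (by decide) (by decide) (by decide) (by decide)).add
      (m _ _ _ _ 3 0 1 2 (by decide) (by decide) (by decide) (by decide)))).sub
      ((hhM 5 (by decide) 0 1 2 3 (by decide) (by decide) (by decide) (by decide)).smul _)
  · have : ((kK (C 0) (C 1) (C 2) (C 3) : ℕ) : ℤ) ≤ 2 ^ 44 := by exact_mod_cast kle
    linarith
  · intro D hD
    have lt_at : ∀ (t0 t1 t2 t3 : ℕ) (k a b c : Fin 4), lt t0 t1 t2 t3 k a b c (aug D)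
        = (t0 * ae D k 0 + t1 * ae D k 1) + (t2 * ae D k 2 + t3 * ae D k 3) := by
      intro t0 t1 t2 t3 k a b c
      unfold lt
      have h5 : ∀ m, aug D m 5 = 1 := fun m => rfl
      rw [h5, h5, h5, mul_one, mul_one, mul_one]
      rfl
    simp only [lt_at, hu_at]
    rw [tt_cast s3.1 s1.1, tt_cast s3.2.1 s1.2.1, tt_cast s3.2.2.1 s1.2.2.1, tt_cast s3.2.2.2 s1.2.2.2,
      tt_cast s0.1 s2.1, tt_cast s0.2.1 s2.2.1, tt_cast s0.2.2.1 s2.2.2.1, tt_cast s0.2.2.2 s2.2.2.2,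
      tt_cast s1.1 s3.1, tt_cast s1.2.1 s3.2.1, tt_cast s1.2.2.1 s3.2.2.1, tt_cast s1.2.2.2 s3.2.2.2,
      tt_cast s2.1 s0.1, tt_cast s2.2.1 s0.2.1, tt_cast s2.2.2.1 s0.2.2.1, tt_cast s2.2.2.2 s0.2.2.2]
    have kc : ((kK (C 0) (C 1) (C 2) (C 3) : ℕ) : ℝ) = 6184752906240
        + ((((sm 0 (C 0) : ℝ) - sm 0 (C 1)) ^ 2 + ((sm 0 (C 1) : ℝ) - sm 0 (C 2)) ^ 2
          + (((sm 0 (C 2) : ℝ) - sm 0 (C 3)) ^ 2 + ((sm 0 (C 3) : ℝ) - sm 0 (C 0)) ^ 2))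
        + (((sm 32 (C 0) : ℝ) - sm 32 (C 1)) ^ 2 + ((sm 32 (C 1) : ℝ) - sm 32 (C 2)) ^ 2
          + (((sm 32 (C 2) : ℝ) - sm 32 (C 3)) ^ 2 + ((sm 32 (C 3) : ℝ) - sm 32 (C 0)) ^ 2))
        + ((((sm 64 (C 0) : ℝ) - sm 64 (C 1)) ^ 2 + ((sm 64 (C 1) : ℝ) - sm 64 (C 2)) ^ 2
          + (((sm 64 (C 2) : ℝ) - sm 64 (C 3)) ^ 2 + ((sm 64 (C 3) : ℝ) - sm 64 (C 0)) ^ 2))
        + (((sm 96 (C 0) : ℝ) - sm 96 (C 1)) ^ 2 + ((sm 96 (C 1) : ℝ) - sm 96 (C 2)) ^ 2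
          + (((sm 96 (C 2) : ℝ) - sm 96 (C 3)) ^ 2 + ((sm 96 (C 3) : ℝ) - sm 96 (C 0)) ^ 2)))) := by
      rw [← kd_cast, ← kd_cast, ← kd_cast, ← kd_cast, ← kd_cast, ← kd_cast, ← kd_cast, ← kd_cast,
        ← kd_cast, ← kd_cast, ← kd_cast, ← kd_cast, ← kd_cast, ← kd_cast, ← kd_cast, ← kd_cast]
      change (((6184752906240 + (((kd _ _ + kd _ _) + (kd _ _ + kd _ _))
        + ((kd _ _ + kd _ _) + (kd _ _ + kd _ _)) + (((kd _ _ + kd _ _) + (kd _ _ + kd _ _))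
        + ((kd _ _ + kd _ _) + (kd _ _ + kd _ _)))) : ℕ)) : ℝ) = _
      push_cast
      rfl
    rw [kc]
    have k0 := tang_one (sm 0 (C 0)) (sm 0 (C 1)) (sm 0 (C 2)) (sm 0 (C 3)) (ae D 0 0) (ae D 1 0)
      (ae D 2 0) (ae D 3 0)
    have k1 := tang_one (sm 32 (C 0)) (sm 32 (C 1)) (sm 32 (C 2)) (sm 32 (C 3)) (ae D 0 1) (ae D 1 1)
      (ae D 2 1) (ae D 3 1)
    have k2 := tang_one (sm 64 (C 0)) (sm 64 (C 1)) (sm 64 (C 2)) (sm 64 (C 3)) (ae D 0 2) (ae D 1 2)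
      (ae D 2 2) (ae D 3 2)
    have k3 := tang_one (sm 96 (C 0)) (sm 96 (C 1)) (sm 96 (C 2)) (sm 96 (C 3)) (ae D 0 3) (ae D 1 3)
      (ae D 2 3) (ae D 3 3)
    have hs : ∀ k, ae D k 0 + ae D k 1 + ae D k 2 + ae D k 3 = 327680 := by
      intro k
      have := hD k
      rw [Fin.sum_univ_four] at this
      unfold ae
      linarith
    have h0 := hs 0
    have h1 := hs 1
    have h2 := hs 2
    have h3 := hs 3
    unfold F9
    rw [Fin.sum_univ_four]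
    linarith

end Pool.Agent.Helper44.CK
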