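import Mathlib
import Pool.Agent.Helper44.CK.Kt

/-!
# The items F, A, R, Z (helper44, TET checker)
-/

set_option autoImplicit false

namespace Pool.Agent.Helper44.CK

open Finset

/-- item F -/
def itF (A B C D : Col) : ℕ :=
  sb (mm 232271831367680 (tgN A B C D)) (mm 9243630308842598867927040 huN)

/-- squares of the cuts -/
def cut1 (A B : Col) : ℕ := sb (ad (q0 A) (q1 B)) (mm 2 (d01 A B))
def cut2 (B C : Col) : ℕ := sb (ad (q1 B) (q2 C)) (mm 2 (d12 B C))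
def cut3 (A C : Col) : ℕ := sb (ad (q0 A) (q2 C)) (mm 2 (d02 A C))
def cut4 (C D : Col) : ℕ := sb (ad (q2 C) (q3 D)) (mm 2 (d23 C D))
def cut5 (A B C D : Col) : ℕ :=
  sb (ad (ad (ad (q0 A) (q1 B)) (ad (q2 C) (q3 D))) (mm 2 (ad (d02 A C) (d13 B D))))
    (mm 2 (ad (ad (d01 A B) (d03 A D)) (ad (d12 B C) (d23 C D))))
def cut6 (B D : Col) : ℕ := sb (ad (q1 B) (q3 D)) (mm 2 (d13 B D))
def cut7 (A D : Col) : ℕ := sb (ad (q0 A) (q3 D)) (mm 2 (d03 A D))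

/-- item A -/
def itA (g : ℕ) (A B C D : Col) : ℕ :=
  sb (mm 116135915683840 (tgN A B C D)) (ad (mm 2090446482309120 g) (mm 3081940766951077545246720 huN))

/-- the packed square of a cut -/
def Cu (C : Fin 4 → Col) (D : Cols) (g : ℕ) : Prop :=
  ∃ Y : Cols → ℝ, CC (fun D => - Y D) ∧ Bs C g Y (2 ^ 40) ∧
    (1 / 2) * ∑ l : Fin 4, ∑ j, (D l j - D (l + 1) j) ^ 2 - Y D / 4294967296 ≤ 703 / 2048

lemma F9_eq (D : Cols) : F9 D = 9 * 4294967296 * ∑ l : Fin 4, ∑ j, (D l j - D (l + 1) j) ^ 2 := by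
  unfold F9 ae
  have a0 : (0 : Fin 4) + 1 = 1 := rfl
  have a1 : (1 : Fin 4) + 1 = 2 := rfl
  have a2 : (2 : Fin 4) + 1 = 3 := rfl
  have a3 : (3 : Fin 4) + 1 = 0 := rfl
  simp only [Fin.sum_univ_four, a0, a1, a2, a3]
  ring

lemma itF_ev {C : Fin 4 → Col} (hC : ∀ k i, Gd (vt (C k) i)) {D : Cols} (hsum : ∀ k, ∑ j, D k j = 1)
    (h : ∑ l : Fin 4, ∑ j, (D l j - D (l + 1) j) ^ 2 ≤ 4217 / 4096) :
    Ev C D (itF (C 0) (C 1) (C 2) (C 3)) (2 ^ 96) := by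
  obtain ⟨Y, h1, h2, h3⟩ := tgB hC
  refine ⟨fun D => (232271831367680 : ℕ) * Y D - (9243630308842598867927040 : ℕ) * hh 5 0 1 2 3 (aug D),
    ?_, ?_, ?_⟩
  · exact ((h1.smul _).sub ((hhM 5 (by decide) 0 1 2 3 (by decide) (by decide) (by decide)
      (by decide)).smul _)).cc
  · have h4 := h3 D hsum
    rw [F9_eq] at h4
    simp only [hu_at]
    push_cast
    linarith
  · exact ((h2.smul 232271831367680 (by norm_num)).sub
      ((huB hC).smul 9243630308842598867927040 (by norm_num))).mono (by norm_num)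

lemma itA_ev {C : Fin 4 → Col} (hC : ∀ k i, Gd (vt (C k) i)) {D : Cols} (hsum : ∀ k, ∑ j, D k j = 1)
    {g : ℕ} (h : Cu C D g) :
    Ev C D (itA g (C 0) (C 1) (C 2) (C 3)) (2 ^ 96) := by
  obtain ⟨Y, h1, h2, h3⟩ := tgB hC
  obtain ⟨Z, g1, g2, g3⟩ := h
  refine ⟨fun D => (116135915683840 : ℕ) * Y D - ((2090446482309120 : ℕ) * Z D
    + (3081940766951077545246720 : ℕ) * hh 5 0 1 2 3 (aug D)), ?_, ?_, ?_⟩
  · have a := ((h1.smul (116135915683840 : ℝ)).sub ((hhM 5 (by decide) 0 1 2 3 (by decide) (by decide)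
      (by decide) (by decide)).smul (3081940766951077545246720 : ℝ))).cc.add
      (g1.smul (by norm_num : (0 : ℝ) ≤ 2090446482309120))
    refine a.congr fun D => ?_
    push_cast
    ring
  · have h4 := h3 D hsum
    rw [F9_eq] at h4
    simp only [hu_at]
    push_cast
    have h5 : (1 / 2) * ∑ l : Fin 4, ∑ j, (D l j - D (l + 1) j) ^ 2 ≤ 703 / 2048 + Z D / 4294967296 := by
      linarith
    linarith
  · exact ((h2.smul 116135915683840 (by norm_num)).sub ((g2.smul 2090446482309120 (by norm_num)).add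
      ((huB hC).smul 3081940766951077545246720 (by norm_num)))).mono (by norm_num)

section

variable {C : Fin 4 → Col} (hC : ∀ k i, Gd (vt (C k) i)) {D : Cols}
include hC

/-- a cut between two points -/
lemma cu_two {ta tb td : ℕ} {X Y Z : Cols → ℝ} (a : Bs C ta X (2 ^ 36)) (b : Bs C tb Y (2 ^ 36))
    (d : Bs C td Z (2 ^ 36)) (ca : CC (fun D => - X D)) (cb : CC (fun D => - Y D)) (cd : CC Z)
    (h : (1 / 2) * ∑ l : Fin 4, ∑ j, (D l j - D (l + 1) j) ^ 2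
      - (X D + Y D - 2 * Z D) / 4294967296 ≤ 703 / 2048) :
    Cu C D (sb (ad ta tb) (mm 2 td)) := by
  refine ⟨fun D => (X D + Y D) - (2 : ℕ) * Z D, ?_, ?_, ?_⟩
  · refine ((ca.add cb).add (cd.smul (by norm_num : (0 : ℝ) ≤ 2))).congr fun D => ?_
    push_cast
    ring
  · exact ((a.add b).sub (d.smul 2 (by norm_num))).mono (by norm_num)
  · simp only []
    push_cast
    exact h

omit hC in
/-- the form of the hypothesis -/
lemma cut_form (hA : ∀ A : Finset (Fin 4), A.Nonempty → A ≠ univ →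
    (1 / 2) * ∑ l : Fin 4, ∑ j, (D l j - D (l + 1) j) ^ 2
      - ∑ j, (∑ l ∈ A, (D l j - D (l + 1) j)) ^ 2 ≤ 703 / 2048) (A : Finset (Fin 4))
    (h1 : A.Nonempty) (h2 : A ≠ univ) (x : ℝ)
    (hx : x = 4294967296 * ∑ j, (∑ l ∈ A, (D l j - D (l + 1) j)) ^ 2) :
    (1 / 2) * ∑ l : Fin 4, ∑ j, (D l j - D (l + 1) j) ^ 2 - x / 4294967296 ≤ 703 / 2048 := by
  have := hA A h1 h2
  have e : x / 4294967296 = ∑ j, (∑ l ∈ A, (D l j - D (l + 1) j)) ^ 2 := by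
    rw [hx]; ring
  rw [e]
  exact this

variable (hA : ∀ A : Finset (Fin 4), A.Nonempty → A ≠ univ →
    (1 / 2) * ∑ l : Fin 4, ∑ j, (D l j - D (l + 1) j) ^ 2
      - ∑ j, (∑ l ∈ A, (D l j - D (l + 1) j)) ^ 2 ≤ 703 / 2048)
include hA

lemma cut1_ok : Cu C D (cut1 (C 0) (C 1)) := by
  refine cu_two hC (Q0 hC) (Q1 hC) (B01 hC) (CC.neg_sq 0 1 2 3) (CC.neg_sq 1 0 2 3) M01.cc ?_
  refine cut_form hA {0} (by decide) (by decide) _ ?_
  have a0 : (0 : Fin 4) + 1 = 1 := rfl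
  simp only [Finset.sum_singleton, Fin.sum_univ_four, a0, dd_at, hq_at, ae]
  ring

lemma cut2_ok : Cu C D (cut2 (C 1) (C 2)) := by
  refine cu_two hC (Q1 hC) (Q2 hC) (B12 hC) (CC.neg_sq 1 0 2 3) (CC.neg_sq 2 0 1 3) M12.cc ?_
  refine cut_form hA {1} (by decide) (by decide) _ ?_
  have a1 : (1 : Fin 4) + 1 = 2 := rfl
  simp only [Finset.sum_singleton, Fin.sum_univ_four, a1, dd_at, hq_at, ae]
  ring

lemma cut3_ok : Cu C D (cut3 (C 0) (C 2)) := by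
  refine cu_two hC (Q0 hC) (Q2 hC) (B02 hC) (CC.neg_sq 0 1 2 3) (CC.neg_sq 2 0 1 3) M02.cc ?_
  refine cut_form hA {0, 1} (by decide) (by decide) _ ?_
  have a0 : (0 : Fin 4) + 1 = 1 := rfl
  have a1 : (1 : Fin 4) + 1 = 2 := rfl
  simp only [Finset.sum_pair (show (0 : Fin 4) ≠ 1 by decide), Fin.sum_univ_four, a0, a1, dd_at, hq_at, ae]
  ring

lemma cut4_ok : Cu C D (cut4 (C 2) (C 3)) := by
  refine cu_two hC (Q2 hC) (Q3 hC) (B23 hC) (CC.neg_sq 2 0 1 3) (CC.neg_sq 3 0 1 2) M23.cc ?_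
  refine cut_form hA {2} (by decide) (by decide) _ ?_
  have a2 : (2 : Fin 4) + 1 = 3 := rfl
  simp only [Finset.sum_singleton, Fin.sum_univ_four, a2, dd_at, hq_at, ae]
  ring

lemma cut6_ok : Cu C D (cut6 (C 1) (C 3)) := by
  refine cu_two hC (Q1 hC) (Q3 hC) (B13 hC) (CC.neg_sq 1 0 2 3) (CC.neg_sq 3 0 1 2) M13.cc ?_
  refine cut_form hA {1, 2} (by decide) (by decide) _ ?_
  have a1 : (1 : Fin 4) + 1 = 2 := rfl
  have a2 : (2 : Fin 4) + 1 = 3 := rfl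
  simp only [Finset.sum_pair (show (1 : Fin 4) ≠ 2 by decide), Fin.sum_univ_four, a1, a2, dd_at, hq_at, ae]
  ring

lemma cut7_ok : Cu C D (cut7 (C 0) (C 3)) := by
  refine cu_two hC (Q0 hC) (Q3 hC) (B03 hC) (CC.neg_sq 0 1 2 3) (CC.neg_sq 3 0 1 2) M03.cc ?_
  refine cut_form hA {3} (by decide) (by decide) _ ?_
  have a3 : (3 : Fin 4) + 1 = 0 := rfl
  simp only [Finset.sum_singleton, Fin.sum_univ_four, a3, dd_at, hq_at, ae]
  ring

lemma cut5_ok : Cu C D (cut5 (C 0) (C 1) (C 2) (C 3)) := by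
  refine ⟨fun D => ((((hh 4 0 1 2 3 (aug D)) + hh 4 1 0 2 3 (aug D)) + (hh 4 2 0 1 3 (aug D)
    + hh 4 3 0 1 2 (aug D))) + (2 : ℕ) * (dd 0 2 1 3 (aug D) + dd 1 3 0 2 (aug D)))
    - (2 : ℕ) * ((dd 0 1 2 3 (aug D) + dd 0 3 1 2 (aug D)) + (dd 1 2 0 3 (aug D)
      + dd 2 3 0 1 (aug D))), ?_, ?_, ?_⟩
  · refine (((((CC.neg_sq 0 1 2 3).add (CC.neg_sq 1 0 2 3)).add ((CC.neg_sq 2 0 1 3).add
      (CC.neg_sq 3 0 1 2))).add ((M02.add M13).smul (-2)).cc).add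
      (((M01.add M03).add (M12.add M23)).smul 2).cc).congr fun D => ?_
    push_cast
    ring
  · exact (((((Q0 hC).add (Q1 hC)).add ((Q2 hC).add (Q3 hC))).add
      (((B02 hC).add (B13 hC)).smul 2 (by norm_num))).sub
      ((((B01 hC).add (B03 hC)).add ((B12 hC).add (B23 hC))).smul 2 (by norm_num))).mono (by norm_num)
  · refine cut_form hA {0, 2} (by decide) (by decide) _ ?_
    have a0 : (0 : Fin 4) + 1 = 1 := rfl
    have a2 : (2 : Fin 4) + 1 = 3 := rfl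
    simp only [Finset.sum_pair (show (0 : Fin 4) ≠ 2 by decide), Fin.sum_univ_four, a0, a2, dd_at,
      hq_at, ae]
    push_cast
    ring

end

/-! ### Rows -/

/-- a row sum -/
def rwN (d : ℕ) (A B C D : Col) : ℕ :=
  ad (ad (hhN d 128 384 1152 3456 A) (hhN d 384 128 1152 3456 B))
    (ad (hhN d 1152 128 384 3456 C) (hhN d 3456 128 384 1152 D))

/-- item R: the row `d` is at most the row `e` -/
def itR (d e : ℕ) (A B C D : Col) : ℕ :=
  mm 136999500664610488320 (sb (rwN d A B C D) (rwN e A B C D))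

/-- a combination of a row -/
def rcN (d m0 m1 m2 m3 : ℕ) (A B C D : Col) : ℕ :=
  ad (ad (mm m0 (hhN d 128 384 1152 3456 A)) (mm m1 (hhN d 384 128 1152 3456 B)))
    (ad (mm m2 (hhN d 1152 128 384 3456 C)) (mm m3 (hhN d 3456 128 384 1152 D)))

/-- item Z: the combination with the coefficients `m - 8` of the row `d` is at most `j / 64` -/
def itZ (d j m0 m1 m2 m3 : ℕ) (A B C D : Col) : ℕ :=
  sb (mm 136999500664610488320 (rcN d m0 m1 m2 m3 A B C D))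
    (ad (mm 1095996005316883906560 (rwN d A B C D))
      (mm (Nat.mul 140287488680561140039680 (Nat.add 64 j)) huN))

section

variable {C : Fin 4 → Col} (hC : ∀ k i, Gd (vt (C k) i)) {D : Cols}

/-- the real row -/
def rwR (j : Fin 6) (X : Fin 4 → Fin 6 → ℝ) : ℝ :=
  (hh j 0 1 2 3 X + hh j 1 0 2 3 X) + (hh j 2 0 1 3 X + hh j 3 0 1 2 X)

/-- the real combination -/
def rcR (j : Fin 6) (m0 m1 m2 m3 : ℕ) (X : Fin 4 → Fin 6 → ℝ) : ℝ :=
  ((m0 : ℝ) * hh j 0 1 2 3 X + (m1 : ℝ) * hh j 1 0 2 3 X)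
    + ((m2 : ℝ) * hh j 2 0 1 3 X + (m3 : ℝ) * hh j 3 0 1 2 X)

lemma h0M (j : Fin 6) (hj : Ei j) : MA (fun D => hh j 0 1 2 3 (aug D)) :=
  hhM j hj.1 0 1 2 3 (by decide) (by decide) (by decide) (by decide)
lemma h1M (j : Fin 6) (hj : Ei j) : MA (fun D => hh j 1 0 2 3 (aug D)) :=
  hhM j hj.1 1 0 2 3 (by decide) (by decide) (by decide) (by decide)
lemma h2M (j : Fin 6) (hj : Ei j) : MA (fun D => hh j 2 0 1 3 (aug D)) :=
  hhM j hj.1 2 0 1 3 (by decide) (by decide) (by decide) (by decide)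
lemma h3M (j : Fin 6) (hj : Ei j) : MA (fun D => hh j 3 0 1 2 (aug D)) :=
  hhM j hj.1 3 0 1 2 (by decide) (by decide) (by decide) (by decide)

include hC

lemma k0B (j : Fin 6) (hj : Ei j) :
    Bs C (hhN (dx j) 128 384 1152 3456 (C 0)) (fun D => hh j 0 1 2 3 (aug D)) (2 ^ 17) :=
  hhB hC j hj 0 1 2 3 128 384 1152 3456 (by norm_num) (by norm_num) (by norm_num) (by norm_num)
    (by decide) (by decide) (by decide) (by decide)
lemma k1B (j : Fin 6) (hj : Ei j) :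
    Bs C (hhN (dx j) 384 128 1152 3456 (C 1)) (fun D => hh j 1 0 2 3 (aug D)) (2 ^ 17) :=
  hhB hC j hj 1 0 2 3 384 128 1152 3456 (by norm_num) (by norm_num) (by norm_num) (by norm_num)
    (by decide) (by decide) (by decide) (by decide)
lemma k2B (j : Fin 6) (hj : Ei j) :
    Bs C (hhN (dx j) 1152 128 384 3456 (C 2)) (fun D => hh j 2 0 1 3 (aug D)) (2 ^ 17) :=
  hhB hC j hj 2 0 1 3 1152 128 384 3456 (by norm_num) (by norm_num) (by norm_num) (by norm_num)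
    (by decide) (by decide) (by decide) (by decide)
lemma k3B (j : Fin 6) (hj : Ei j) :
    Bs C (hhN (dx j) 3456 128 384 1152 (C 3)) (fun D => hh j 3 0 1 2 (aug D)) (2 ^ 17) :=
  hhB hC j hj 3 0 1 2 3456 128 384 1152 (by norm_num) (by norm_num) (by norm_num) (by norm_num)
    (by decide) (by decide) (by decide) (by decide)

lemma rwB (j : Fin 6) (hj : Ei j) :
    Bs C (rwN (dx j) (C 0) (C 1) (C 2) (C 3)) (fun D => rwR j (aug D)) (2 ^ 20) :=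
  (((k0B hC j hj).add (k1B hC j hj)).add ((k2B hC j hj).add (k3B hC j hj))).mono (by norm_num)

lemma rcB (j : Fin 6) (hj : Ei j) (m0 m1 m2 m3 : ℕ) (b0 : m0 ≤ 15) (b1 : m1 ≤ 15) (b2 : m2 ≤ 15)
    (b3 : m3 ≤ 15) :
    Bs C (rcN (dx j) m0 m1 m2 m3 (C 0) (C 1) (C 2) (C 3)) (fun D => rcR j m0 m1 m2 m3 (aug D))
      (2 ^ 23) := by
  have l : ∀ n : ℕ, n ≤ 15 → n < 2 ^ 128 := fun n hn => lt_of_le_of_lt hn (by norm_num)
  refine ((((k0B hC j hj).smul m0 (l _ b0)).add ((k1B hC j hj).smul m1 (l _ b1))).add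
    (((k2B hC j hj).smul m2 (l _ b2)).add ((k3B hC j hj).smul m3 (l _ b3)))).mono ?_
  have z0 : (m0 : ℤ) ≤ 15 := by exact_mod_cast b0
  have z1 : (m1 : ℤ) ≤ 15 := by exact_mod_cast b1
  have z2 : (m2 : ℤ) ≤ 15 := by exact_mod_cast b2
  have z3 : (m3 : ℤ) ≤ 15 := by exact_mod_cast b3
  linarith

omit hC

lemma rw_MA (j : Fin 6) (hj : Ei j) : MA (fun D => rwR j (aug D)) :=
  ((h0M j hj).add (h1M j hj)).add ((h2M j hj).add (h3M j hj))

lemma rc_MA (j : Fin 6) (hj : Ei j) (m0 m1 m2 m3 : ℕ) : MA (fun D => rcR j m0 m1 m2 m3 (aug D)) :=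
  (((h0M j hj).smul _).add ((h1M j hj).smul _)).add (((h2M j hj).smul _).add ((h3M j hj).smul _))

/-- the entry index of a coordinate -/
def ix (i : Fin 4) : Fin 6 := ⟨i, by omega⟩

lemma ix_Ei (i : Fin 4) : Ei (ix i) := by
  fin_cases i <;> exact ⟨by decide, by decide⟩

lemma aug_ix (D : Cols) (k i : Fin 4) : aug D k (ix i) = 65536 * (D k i + 1) := by
  fin_cases i <;> rfl

lemma hh_ix (D : Cols) (i k a b c : Fin 4) : hh (ix i) k a b c (aug D) = 65536 * (D k i + 1) := by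
  unfold hh
  have h5 : ∀ m, aug D m 5 = 1 := fun m => rfl
  rw [h5, h5, h5, mul_one, mul_one, mul_one]
  exact aug_ix D k i

include hC

lemma itR_ev (i i' : Fin 4) (h : ∑ k, D k i ≤ ∑ k, D k i') :
    Ev C D (itR (dx (ix i)) (dx (ix i')) (C 0) (C 1) (C 2) (C 3)) (2 ^ 96) := by
  refine ⟨fun D => (136999500664610488320 : ℕ) * (rwR (ix i) (aug D) - rwR (ix i') (aug D)), ?_, ?_, ?_⟩
  · exact (((rw_MA _ (ix_Ei i)).sub (rw_MA _ (ix_Ei i'))).smul _).cc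
  · simp only [rwR, hh_ix]
    rw [Fin.sum_univ_four, Fin.sum_univ_four] at h
    push_cast
    linarith
  · exact (((rwB hC _ (ix_Ei i)).sub (rwB hC _ (ix_Ei i'))).smul _ (by norm_num)).mono (by norm_num)

lemma itZ_ev (i : Fin 4) (j : ℕ) (hj : j ≤ 64) (m0 m1 m2 m3 : ℕ) (b0 : m0 ≤ 15) (b1 : m1 ≤ 15)
    (b2 : m2 ≤ 15) (b3 : m3 ≤ 15) (hm : m0 + m1 + m2 + m3 = 33)
    (h : ∑ k, (((![(m0 : ℤ) - 8, (m1 : ℤ) - 8, (m2 : ℤ) - 8, (m3 : ℤ) - 8] : Fin 4 → ℤ) k : ℤ) : ℝ) * D k i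
      ≤ (j : ℝ) / 64) :
    Ev C D (itZ (dx (ix i)) j m0 m1 m2 m3 (C 0) (C 1) (C 2) (C 3)) (2 ^ 96) := by
  have hj' : (j : ℤ) ≤ 64 := by exact_mod_cast hj
  refine ⟨fun D => (136999500664610488320 : ℕ) * rcR (ix i) m0 m1 m2 m3 (aug D)
    - ((1095996005316883906560 : ℕ) * rwR (ix i) (aug D)
      + ((140287488680561140039680 * (64 + j) : ℕ) : ℝ) * hh 5 0 1 2 3 (aug D)), ?_, ?_, ?_⟩
  · exact (((rc_MA _ (ix_Ei i) m0 m1 m2 m3).smul _).sub (((rw_MA _ (ix_Ei i)).smul _).add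
      ((hhM 5 (by decide) 0 1 2 3 (by decide) (by decide) (by decide) (by decide)).smul _))).cc
  · have hm' : (m0 : ℝ) + m1 + m2 + m3 = 33 := by exact_mod_cast hm
    simp only [rwR, rcR, hh_ix, hu_at]
    rw [Fin.sum_univ_four] at h
    have h' : ((m0 : ℝ) - 8) * D 0 i + ((m1 : ℝ) - 8) * D 1 i + ((m2 : ℝ) - 8) * D 2 i
        + ((m3 : ℝ) - 8) * D 3 i ≤ (j : ℝ) / 64 := by
      have e0 : (((![(m0 : ℤ) - 8, (m1 : ℤ) - 8, (m2 : ℤ) - 8, (m3 : ℤ) - 8] : Fin 4 → ℤ) 0 : ℤ) : ℝ)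
        = (m0 : ℝ) - 8 := by simp
      have e1 : (((![(m0 : ℤ) - 8, (m1 : ℤ) - 8, (m2 : ℤ) - 8, (m3 : ℤ) - 8] : Fin 4 → ℤ) 1 : ℤ) : ℝ)
        = (m1 : ℝ) - 8 := by simp
      have e2 : (((![(m0 : ℤ) - 8, (m1 : ℤ) - 8, (m2 : ℤ) - 8, (m3 : ℤ) - 8] : Fin 4 → ℤ) 2 : ℤ) : ℝ)
        = (m2 : ℝ) - 8 := by simp
      have e3 : (((![(m0 : ℤ) - 8, (m1 : ℤ) - 8, (m2 : ℤ) - 8, (m3 : ℤ) - 8] : Fin 4 → ℤ) 3 : ℤ) : ℝ)
        = (m3 : ℝ) - 8 := by simp
      rw [e0, e1, e2, e3] at h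
      exact h
    push_cast
    nlinarith [h', hm']
  · have hlt : 140287488680561140039680 * (64 + j) < 2 ^ 128 := by
      calc 140287488680561140039680 * (64 + j) ≤ 140287488680561140039680 * 128 :=
            Nat.mul_le_mul_left _ (by omega)
        _ < 2 ^ 128 := by norm_num
    refine (((rcB hC _ (ix_Ei i) m0 m1 m2 m3 b0 b1 b2 b3).smul _ (by norm_num)).sub
      (((rwB hC _ (ix_Ei i)).smul _ (by norm_num)).add ((huB hC).smul _ hlt))).mono ?_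
    push_cast
    linarith

end

end Pool.Agent.Helper44.CK
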