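import Mathlib
import Pool.Agent.Helper44.CK.Mt

/-!
# The checker of the tree (helper44, TET checker)
-/

set_option autoImplicit false

namespace Pool.Agent.Helper44.CK

open Finset

/-- case distinction on a natural number -/
def cs (t : ℕ) (z : ℕ) (f : ℕ → ℕ) : ℕ := Nat.rec (motive := fun _ => ℕ) z (fun n _ => f n) t

/-- conjunction -/
def an (a b : Bool) : Bool := Bool.rec (motive := fun _ => Bool) false b a

/-- disjunction -/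
def orr (a b : Bool) : Bool := Bool.rec (motive := fun _ => Bool) b true a

/-- conditional -/
def cd (a : Bool) (x y : ℕ) : ℕ := Bool.rec (motive := fun _ => ℕ) y x a

lemma cd_false (x y : ℕ) : cd false x y = y := rfl
lemma cd_true (x y : ℕ) : cd true x y = x := rfl
lemma cs_zero (z : ℕ) (f : ℕ → ℕ) : cs 0 z f = z := rfl
lemma cs_succ (n z : ℕ) (f : ℕ → ℕ) : cs (n + 1) z f = f n := rfl

lemma an_eq {a b : Bool} (h : an a b = true) : a = true ∧ b = true := by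
  cases a
  · exact absurd h (by simp [an])
  · exact ⟨rfl, h⟩

lemma orr_eq {a b : Bool} (h : orr a b = true) : a = true ∨ b = true := by
  cases a
  · exact Or.inr h
  · exact Or.inl rfl

/-- zero iff all four numbers are equal -/
def nq (n0 n1 n2 n3 : ℕ) : Bool :=
  Nat.beq (Nat.add (Nat.add (Nat.sub n0 n1) (Nat.sub n1 n2)) (Nat.add (Nat.sub n2 n3) (Nat.sub n3 n0))) 0

/-- the item X -/
def iX (ds : ℕ) (xf : ℕ → ℕ → ℕ → ℕ → ℕ) (n0 n1 n2 n3 : ℕ) : ℕ :=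
  cd (nq n0 n1 n2 n3) 0 (itX ds (xf n0 n1 n2 n3))

/-- the items O -/
def iO (p q : ℕ) (A B C D : Col) : ℕ :=
  cs p (cs q 0 fun q => cs q (o01 A B C) fun q => cs q (o02 A B C D) fun q => cs q (o03 A B D) fun _ => 0)
    fun p => cs p (cs q 0 fun q => cs q 0 fun q => cs q (o12 B C D) fun q => cs q (o13 A B C D) fun _ => 0)
    fun p => cs p (cs q 0 fun q => cs q 0 fun q => cs q 0 fun q => cs q (o23 A C D) fun _ => 0) fun _ => 0

/-- the items A -/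
def iA (a : ℕ) (A B C D : Col) : ℕ :=
  cs a 0 fun a => cs a (itA (cut1 A B) A B C D) fun a => cs a (itA (cut2 B C) A B C D)
    fun a => cs a (itA (cut3 A C) A B C D) fun a => cs a (itA (cut4 C D) A B C D)
    fun a => cs a (itA (cut5 A B C D) A B C D) fun a => cs a (itA (cut6 B D) A B C D)
    fun a => cs a (itA (cut7 A D) A B C D) fun _ => 0

/-- the items R -/
def iR (p q : ℕ) (A B C D : Col) : ℕ :=
  cs p 0 fun p => cs p (cs q (itR 32 0 A B C D) fun _ => 0)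
    fun p => cs p (cs q (itR 64 0 A B C D) fun _ => 0)
    fun p => cs p (cs q (itR 96 0 A B C D) fun q => cs q (itR 96 32 A B C D) fun _ => 0) fun _ => 0

/-- an item: type `t`, parameters `p q r u` -/
def im (ds zf : ℕ) (xf : ℕ → ℕ → ℕ → ℕ → ℕ) (A B C D : Col) (t p q r u : ℕ) : ℕ :=
  cs t (iX ds xf p q r u) fun t => cs t (itD ds) fun t => cs t (iO p q A B C D)
    fun t => cs t (itF A B C D) fun t => cs t (iA p A B C D) fun t => cs t (iR p q A B C D)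
    fun t => cs t zf fun _ => 0

/-- an item from its code -/
def ic (ds zf : ℕ) (xf : ℕ → ℕ → ℕ → ℕ → ℕ) (A B C D : Col) (n : ℕ) : ℕ :=
  im ds zf xf A B C D (Nat.land n 15) (Nat.land (Nat.shiftRight n 4) 7) (Nat.land (Nat.shiftRight n 7) 7)
    (Nat.land (Nat.shiftRight n 10) 7) (Nat.land (Nat.shiftRight n 13) 7)

/-- the sum of a list -/
def su (ds zf : ℕ) (xf : ℕ → ℕ → ℕ → ℕ → ℕ) (A B C D : Col) (m : ℕ) : ℕ → ℕ :=
  Nat.rec (motive := fun _ => ℕ → ℕ) (fun _ => 0)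
    (fun _ ih n => ad (mm (Nat.land (Nat.shiftRight n 16) 65535) (ic ds zf xf A B C D n))
      (ih (Nat.shiftRight n 32))) m

/-- the test of a list -/
def tl (ds zf : ℕ) (xf : ℕ → ℕ → ℕ → ℕ → ℕ) (A B C D : Col) (n : ℕ) : Bool :=
  ts (su ds zf xf A B C D (Nat.land n 15) (Nat.shiftRight n 4))

section Sound

variable {C : Fin 4 → Col} {D : Cols}

/-- everything needed for the items -/
structure Ok (C : Fin 4 → Col) (D : Cols) (ds zf : ℕ) (xf : ℕ → ℕ → ℕ → ℕ → ℕ) : Prop where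
  gd : ∀ k i, Gd (vt (C k) i)
  fa : Facts D
  sg : Sg C D ds
  zf : Ev C D zf (2 ^ 96)
  xf : ∀ n0 n1 n2 n3 : ℕ, n0 ≤ 7 → n1 ≤ 7 → n2 ≤ 7 → n3 ≤ 7 →
    (∃ k, (![(n0 : ℤ), n1, n2, n3] : Fin 4 → ℤ) k ≠ (![(n0 : ℤ), n1, n2, n3] : Fin 4 → ℤ) 0) →
    RR C D (xf n0 n1 n2 n3)

variable {ds zf : ℕ} {xf : ℕ → ℕ → ℕ → ℕ → ℕ}

lemma zero96 : Ev C D 0 (2 ^ 96) := (Ev.zero C D).mono (by norm_num)

lemma cs_ev {b : ℤ} {z : ℕ} {f : ℕ → ℕ} (t : ℕ) (h0 : Ev C D z b) (h1 : ∀ n, Ev C D (f n) b) :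
    Ev C D (cs t z f) b := by
  cases t with
  | zero => rw [cs_zero]; exact h0
  | succ n => rw [cs_succ]; exact h1 n

lemma nq_ne {n0 n1 n2 n3 : ℕ} (h : nq n0 n1 n2 n3 = false) :
    ∃ k, (![(n0 : ℤ), n1, n2, n3] : Fin 4 → ℤ) k ≠ (![(n0 : ℤ), n1, n2, n3] : Fin 4 → ℤ) 0 := by
  by_contra hcon
  push Not at hcon
  have h1 : (n1 : ℤ) = n0 := hcon 1
  have h2 : (n2 : ℤ) = n0 := hcon 2
  have h3 : (n3 : ℤ) = n0 := hcon 3
  have e1 : n1 = n0 := by exact_mod_cast h1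
  have e2 : n2 = n0 := by exact_mod_cast h2
  have e3 : n3 = n0 := by exact_mod_cast h3
  rw [e1, e2, e3] at h
  have : nq n0 n0 n0 n0 = true := by
    change Nat.beq ((n0 - n0 + (n0 - n0)) + ((n0 - n0) + (n0 - n0))) 0 = true
    rw [Nat.sub_self]
    rfl
  rw [this] at h
  exact absurd h (by decide)

lemma iX_ev (h : Ok C D ds zf xf) {n0 n1 n2 n3 : ℕ} (b0 : n0 ≤ 7) (b1 : n1 ≤ 7) (b2 : n2 ≤ 7)
    (b3 : n3 ≤ 7) : Ev C D (iX ds xf n0 n1 n2 n3) (2 ^ 96) := by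
  unfold iX
  cases hq : nq n0 n1 n2 n3
  · rw [cd_false]
    exact itX_ev h.sg (h.xf n0 n1 n2 n3 b0 b1 b2 b3 (nq_ne hq))
  · rw [cd_true]
    exact zero96

lemma iO_ev (h : Ok C D ds zf xf) (p q : ℕ) : Ev C D (iO p q (C 0) (C 1) (C 2) (C 3)) (2 ^ 96) := by
  have a0 : (0 : Fin 4) + 1 = 1 := rfl
  have a1 : (1 : Fin 4) + 1 = 2 := rfl
  have a2 : (2 : Fin 4) + 1 = 3 := rfl
  have a3 : (3 : Fin 4) + 1 = 0 := rfl
  have e01 := h.fa.obt 0 1 (by decide)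
  have e02 := h.fa.obt 0 2 (by decide)
  have e03 := h.fa.obt 0 3 (by decide)
  have e12 := h.fa.obt 1 2 (by decide)
  have e13 := h.fa.obt 1 3 (by decide)
  have e23 := h.fa.obt 2 3 (by decide)
  simp only [a0, a1, a2, a3] at e01 e02 e03 e12 e13 e23
  unfold iO
  exact cs_ev p (cs_ev q zero96 fun q => cs_ev q (o01_ev h.gd e01) fun q => cs_ev q (o02_ev h.gd e02)
      fun q => cs_ev q (o03_ev h.gd e03) fun _ => zero96)
    fun p => cs_ev p (cs_ev q zero96 fun q => cs_ev q zero96 fun q => cs_ev q (o12_ev h.gd e12)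
      fun q => cs_ev q (o13_ev h.gd e13) fun _ => zero96)
    fun p => cs_ev p (cs_ev q zero96 fun q => cs_ev q zero96 fun q => cs_ev q zero96
      fun q => cs_ev q (o23_ev h.gd e23) fun _ => zero96) fun _ => zero96

lemma iA_ev (h : Ok C D ds zf xf) (a : ℕ) : Ev C D (iA a (C 0) (C 1) (C 2) (C 3)) (2 ^ 96) := by
  unfold iA
  exact cs_ev a zero96 fun a => cs_ev a (itA_ev h.gd h.fa.sum (cut1_ok h.gd h.fa.fosA))
    fun a => cs_ev a (itA_ev h.gd h.fa.sum (cut2_ok h.gd h.fa.fosA))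
    fun a => cs_ev a (itA_ev h.gd h.fa.sum (cut3_ok h.gd h.fa.fosA))
    fun a => cs_ev a (itA_ev h.gd h.fa.sum (cut4_ok h.gd h.fa.fosA))
    fun a => cs_ev a (itA_ev h.gd h.fa.sum (cut5_ok h.gd h.fa.fosA))
    fun a => cs_ev a (itA_ev h.gd h.fa.sum (cut6_ok h.gd h.fa.fosA))
    fun a => cs_ev a (itA_ev h.gd h.fa.sum (cut7_ok h.gd h.fa.fosA)) fun _ => zero96

lemma iR_ev (h : Ok C D ds zf xf) (p q : ℕ) : Ev C D (iR p q (C 0) (C 1) (C 2) (C 3)) (2 ^ 96) := by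
  unfold iR
  exact cs_ev p zero96 fun p => cs_ev p (cs_ev q (itR_ev h.gd 1 0 (h.fa.row0 1)) fun _ => zero96)
    fun p => cs_ev p (cs_ev q (itR_ev h.gd 2 0 (h.fa.row0 2)) fun _ => zero96)
    fun p => cs_ev p (cs_ev q (itR_ev h.gd 3 0 (h.fa.row0 3)) fun q =>
      cs_ev q (itR_ev h.gd 3 1 h.fa.row3) fun _ => zero96) fun _ => zero96

lemma im_ev (h : Ok C D ds zf xf) (t : ℕ) {p q r u : ℕ} (b0 : p ≤ 7) (b1 : q ≤ 7) (b2 : r ≤ 7)
    (b3 : u ≤ 7) : Ev C D (im ds zf xf (C 0) (C 1) (C 2) (C 3) t p q r u) (2 ^ 96) := by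
  unfold im
  exact cs_ev t (iX_ev h b0 b1 b2 b3) fun t => cs_ev t (itD_ev h.sg) fun t => cs_ev t (iO_ev h p q)
    fun t => cs_ev t (itF_ev h.gd h.fa.sum h.fa.fos) fun t => cs_ev t (iA_ev h p)
    fun t => cs_ev t (iR_ev h p q) fun t => cs_ev t h.zf fun _ => zero96

lemma land7 (n : ℕ) : Nat.land n 7 ≤ 7 := Nat.and_le_right

lemma ic_ev (h : Ok C D ds zf xf) (n : ℕ) :
    Ev C D (ic ds zf xf (C 0) (C 1) (C 2) (C 3) n) (2 ^ 96) :=
  im_ev h _ (land7 _) (land7 _) (land7 _) (land7 _)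

lemma su_ev (h : Ok C D ds zf xf) (m : ℕ) : ∀ n : ℕ,
    Ev C D (su ds zf xf (C 0) (C 1) (C 2) (C 3) m n) (m * 2 ^ 112) := by
  induction m with
  | zero => intro n; exact (Ev.zero C D).mono (by norm_num)
  | succ m ih =>
    intro n
    have h1 : Nat.land (Nat.shiftRight n 16) 65535 ≤ 65535 := Nat.and_le_right
    have h2 := ((ic_ev h n).smul (Nat.land (Nat.shiftRight n 16) 65535)
      (lt_of_le_of_lt h1 (by norm_num))).add (ih (Nat.shiftRight n 32))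
    refine h2.mono ?_
    have h3 : ((Nat.land (Nat.shiftRight n 16) 65535 : ℕ) : ℤ) ≤ 65535 := by exact_mod_cast h1
    generalize ((Nat.land (Nat.shiftRight n 16) 65535 : ℕ) : ℤ) = w at *
    push_cast
    nlinarith

/-- **A list.** -/
lemma tl_false (h : Ok C D ds zf xf) (hD : In C D) (n : ℕ)
    (ht : tl ds zf xf (C 0) (C 1) (C 2) (C 3) n = true) : False := by
  have h1 : Nat.land n 15 ≤ 15 := Nat.and_le_right
  refine (su_ev h (Nat.land n 15) (Nat.shiftRight n 4)).false ?_ hD ht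
  have h3 : ((Nat.land n 15 : ℕ) : ℤ) ≤ 15 := by exact_mod_cast h1
  generalize ((Nat.land n 15 : ℕ) : ℤ) = w at *
  nlinarith

end Sound

/-! ### Leaves -/

/-- plain leaf -/
def lf (p q : ℕ) (A B C D : Col) : Bool :=
  an (tl (detN A B C D) 0 (fun n0 n1 n2 n3 => rrP n0 n1 n2 n3 A B C D) A B C D p)
    (tl (sb 0 (detN A B C D)) 0 (fun n0 n1 n2 n3 => rrP n0 n1 n2 n3 A B C D) A B C D q)

/-- two lists -/
def l2 (zf : ℕ) (xf : ℕ → ℕ → ℕ → ℕ → ℕ) (A B C D : Col) (p q : ℕ) : Bool :=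
  an (tl (detN A B C D) zf xf A B C D p) (tl (sb 0 (detN A B C D)) zf xf A B C D q)

lemma l2_false {C : Fin 4 → Col} {D : Cols} {zf : ℕ} {xf : ℕ → ℕ → ℕ → ℕ → ℕ}
    (gd : ∀ k i, Gd (vt (C k) i)) (fa : Facts D) (hz : Ev C D zf (2 ^ 96))
    (hx : ∀ n0 n1 n2 n3 : ℕ, n0 ≤ 7 → n1 ≤ 7 → n2 ≤ 7 → n3 ≤ 7 →
      (∃ k, (![(n0 : ℤ), n1, n2, n3] : Fin 4 → ℤ) k ≠ (![(n0 : ℤ), n1, n2, n3] : Fin 4 → ℤ) 0) →
      RR C D (xf n0 n1 n2 n3)) (hD : In C D) (p q : ℕ)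
    (h : l2 zf xf (C 0) (C 1) (C 2) (C 3) p q = true) : False := by
  obtain ⟨h1, h2⟩ := an_eq h
  rcases le_total 0 (det4 (aug D)) with hd | hd
  · exact tl_false ⟨gd, fa, sg_pos gd hd, hz, hx⟩ hD p h1
  · exact tl_false ⟨gd, fa, sg_neg gd hd, hz, hx⟩ hD q h2

lemma plain_xf {C : Fin 4 → Col} {D : Cols} (gd : ∀ k i, Gd (vt (C k) i)) (fa : Facts D)
    (n0 n1 n2 n3 : ℕ) (b0 : n0 ≤ 7) (b1 : n1 ≤ 7) (b2 : n2 ≤ 7) (b3 : n3 ≤ 7)
    (h : ∃ k, (![(n0 : ℤ), n1, n2, n3] : Fin 4 → ℤ) k ≠ (![(n0 : ℤ), n1, n2, n3] : Fin 4 → ℤ) 0) :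
    RR C D (rrP n0 n1 n2 n3 (C 0) (C 1) (C 2) (C 3)) :=
  rrP_ok gd fa.sum n0 n1 n2 n3 b0 b1 b2 b3 (fa.wid _ h)

lemma lf_false {C : Fin 4 → Col} {D : Cols}
    (gd : ∀ k i, Gd (vt (C k) i)) (fa : Facts D) (hD : In C D) (p q : ℕ)
    (h : lf p q (C 0) (C 1) (C 2) (C 3) = true) : False :=
  l2_false gd fa zero96 (plain_xf gd fa) hD p q h

/-- the branches of a cut at a row -/
def zr (d j m0 m1 m2 m3 : ℕ) (A B C D : Col) (p q : ℕ) : Bool :=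
  l2 (itZ d j m0 m1 m2 m3 A B C D) (fun n0 n1 n2 n3 => rrP n0 n1 n2 n3 A B C D) A B C D p q

/-- coefficients of a point -/
def y0 (z : ℕ) : ℕ := Nat.land z 15
def y1 (z : ℕ) : ℕ := Nat.land (Nat.shiftRight z 4) 15
def y2 (z : ℕ) : ℕ := Nat.land (Nat.shiftRight z 8) 15
def y3 (z : ℕ) : ℕ := Nat.land (Nat.shiftRight z 12) 15
/-- depth -/
def yj (z : ℕ) : ℕ := Nat.land (Nat.shiftRight z 16) 63

/-- cut leaf -/
def zl (z a0 b0 a1 b1 a2 b2 a3 b3 c0 e0 c1 e1 c2 e2 c3 e3 : ℕ) (A B C D : Col) : Bool :=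
  an (Nat.beq (Nat.add (Nat.add (y0 z) (y1 z)) (Nat.add (y2 z) (y3 z))) 33)
  (an (an (an (zr 0 (yj z) (y0 z) (y1 z) (y2 z) (y3 z) A B C D a0 b0)
        (zr 32 (yj z) (y0 z) (y1 z) (y2 z) (y3 z) A B C D a1 b1))
      (an (zr 64 (yj z) (y0 z) (y1 z) (y2 z) (y3 z) A B C D a2 b2)
        (zr 96 (yj z) (y0 z) (y1 z) (y2 z) (y3 z) A B C D a3 b3)))
    (an (an (l2 0 (fun n0 n1 n2 n3 => rr0 (yj z) n0 n1 n2 n3 A B C D) A B C D c0 e0)
        (l2 0 (fun n0 n1 n2 n3 => rr1 (yj z) n0 n1 n2 n3 A B C D) A B C D c1 e1))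
      (an (l2 0 (fun n0 n1 n2 n3 => rr2 (yj z) n0 n1 n2 n3 A B C D) A B C D c2 e2)
        (l2 0 (fun n0 n1 n2 n3 => rr3 (yj z) n0 n1 n2 n3 A B C D) A B C D c3 e3))))

lemma zl_false {C : Fin 4 → Col} {D : Cols}
    (gd : ∀ k i, Gd (vt (C k) i)) (fa : Facts D) (hD : In C D)
    (z a0 b0 a1 b1 a2 b2 a3 b3 c0 e0 c1 e1 c2 e2 c3 e3 : ℕ)
    (h : zl z a0 b0 a1 b1 a2 b2 a3 b3 c0 e0 c1 e1 c2 e2 c3 e3 (C 0) (C 1) (C 2) (C 3) = true) :
    False := by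
  obtain ⟨hm, h⟩ := an_eq h
  obtain ⟨h1, h2⟩ := an_eq h
  obtain ⟨h01, h23⟩ := an_eq h1
  obtain ⟨r0, r1⟩ := an_eq h01
  obtain ⟨r2, r3⟩ := an_eq h23
  obtain ⟨g01, g23⟩ := an_eq h2
  obtain ⟨t0, t1⟩ := an_eq g01
  obtain ⟨t2, t3⟩ := an_eq g23
  have hm' : y0 z + y1 z + y2 z + y3 z = 33 := by
    have := Nat.eq_of_beq_eq_true hm
    change (y0 z + y1 z) + (y2 z + y3 z) = 33 at this
    omega
  have l0 : y0 z ≤ 15 := Nat.and_le_right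
  have l1 : y1 z ≤ 15 := Nat.and_le_right
  have l2 : y2 z ≤ 15 := Nat.and_le_right
  have l3 : y3 z ≤ 15 := Nat.and_le_right
  have lj : yj z ≤ 63 := Nat.and_le_right
  generalize y0 z = m0 at *
  generalize y1 z = m1 at *
  generalize y2 z = m2 at *
  generalize y3 z = m3 at *
  generalize yj z = j at *
  have lj' : j ≤ 64 := by omega
  have hj1 : (j : ℝ) / 64 < 1 := by
    have : (j : ℝ) ≤ 63 := by exact_mod_cast lj
    rw [div_lt_one (by norm_num)]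
    linarith
  have hj0 : (0 : ℝ) ≤ (j : ℝ) / 64 := by positivity
  rcases fa.cut ![(m0 : ℤ) - 8, (m1 : ℤ) - 8, (m2 : ℤ) - 8, (m3 : ℤ) - 8] (by
      rw [Fin.sum_univ_four]
      have : (m0 : ℤ) + m1 + m2 + m3 = 33 := by exact_mod_cast hm'
      show (m0 : ℤ) - 8 + ((m1 : ℤ) - 8) + ((m2 : ℤ) - 8) + ((m3 : ℤ) - 8) = 1
      linarith) ((j : ℝ) / 64) hj0 hj1 with ⟨i, hi⟩ | ⟨k, hk⟩
  · have e := itZ_ev gd i j lj' m0 m1 m2 m3 l0 l1 l2 l3 hm' hi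
    fin_cases i
    · exact l2_false gd fa e (plain_xf gd fa) hD a0 b0 r0
    · exact l2_false gd fa e (plain_xf gd fa) hD a1 b1 r1
    · exact l2_false gd fa e (plain_xf gd fa) hD a2 b2 r2
    · exact l2_false gd fa e (plain_xf gd fa) hD a3 b3 r3
  · fin_cases k
    · exact l2_false gd fa zero96 (fun n0 n1 n2 n3 b0 b1 b2 b3 hn =>
        rr0_ok gd fa.sum j lj' n0 n1 n2 n3 b0 b1 b2 b3 (hk _ hn)) hD c0 e0 t0
    · exact l2_false gd fa zero96 (fun n0 n1 n2 n3 b0 b1 b2 b3 hn =>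
        rr1_ok gd fa.sum j lj' n0 n1 n2 n3 b0 b1 b2 b3 (hk _ hn)) hD c1 e1 t1
    · exact l2_false gd fa zero96 (fun n0 n1 n2 n3 b0 b1 b2 b3 hn =>
        rr2_ok gd fa.sum j lj' n0 n1 n2 n3 b0 b1 b2 b3 (hk _ hn)) hD c2 e2 t2
    · exact l2_false gd fa zero96 (fun n0 n1 n2 n3 b0 b1 b2 b3 hn =>
        rr3_ok gd fa.sum j lj' n0 n1 n2 n3 b0 b1 b2 b3 (hk _ hn)) hD c3 e3 t3

end Pool.Agent.Helper44.CK
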