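import Mathlib
import Pool.Agent.Helper44.CK.Check
import Pool.Agent.Helper93.TET.Split

/-!
# The tree (helper44, TET checker)
-/

set_option autoImplicit false

namespace Pool.Agent.Helper44.CK

open Finset

/-! ### Comparison of two columns -/

/-- one vertex against three -/
def g3 (d x : ℕ) (P : Col) : Bool :=
  an (Nat.ble x (fl d P.a)) (an (Nat.ble x (fl d P.b)) (Nat.ble x (fl d P.c)))

/-- the field `d` of `Q` is everywhere at most the field `d` of `P` -/
def g9 (d : ℕ) (Q P : Col) : Bool := an (g3 d (fl d Q.a) P) (an (g3 d (fl d Q.b) P) (g3 d (fl d Q.c) P))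

/-- three of four -/
def o4 (a b c d : Bool) : Bool := orr (an b (an c d)) (orr (an a (an c d)) (orr (an a (an b d)) (an a (an b c))))

/-- the cone of the order `P Q R S`, one coordinate -/
def c4 (d : ℕ) (P Q R S : Col) : Bool := o4 (g9 d Q P) (g9 d R Q) (g9 d S R) (g9 d P S)

/-- the cone of the order `P Q R S` -/
def cn (P Q R S : Col) : Bool := an (an (c4 0 P Q R S) (c4 32 P Q R S)) (an (c4 64 P Q R S) (c4 96 P Q R S))

/-- M leaf -/
def ml (i : ℕ) (A B C D : Col) : Bool :=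
  Nat.rec (motive := fun _ => Bool) (cn A B C D) (fun i _ =>
  Nat.rec (motive := fun _ => Bool) (cn A D C B) (fun i _ =>
  Nat.rec (motive := fun _ => Bool) (cn A B D C) (fun i _ =>
  Nat.rec (motive := fun _ => Bool) (cn A C D B) (fun i _ =>
  Nat.rec (motive := fun _ => Bool) (cn A C B D) (fun i _ =>
  Nat.rec (motive := fun _ => Bool) (cn A D B C) (fun _ _ => false) i) i) i) i) i) i

lemma g3_eq {d x : ℕ} {P : Col} (h : g3 d x P = true) (i : Fin 3) : x ≤ fl d (vt P i) := by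
  obtain ⟨h0, h⟩ := an_eq h
  obtain ⟨h1, h2⟩ := an_eq h
  fin_cases i
  · exact Nat.le_of_ble_eq_true h0
  · exact Nat.le_of_ble_eq_true h1
  · exact Nat.le_of_ble_eq_true h2

lemma g9_eq {d : ℕ} {Q P : Col} (h : g9 d Q P = true) (i' i : Fin 3) : fl d (vt Q i') ≤ fl d (vt P i) := by
  obtain ⟨h0, h⟩ := an_eq h
  obtain ⟨h1, h2⟩ := an_eq h
  fin_cases i'
  · exact g3_eq h0 i
  · exact g3_eq h1 i
  · exact g3_eq h2 i

/-- the field of a coordinate -/
def df : Fin 4 → ℕ
  | 0 => 0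
  | 1 => 32
  | 2 => 64
  | 3 => 96

lemma fr_df (v : ℕ) (j : Fin 4) : fr v j = (fl (df j) v : ℝ) / 65536 - 1 := by
  fin_cases j <;> rfl

lemma g9_le {C : Fin 4 → Col} {D : Cols} (hD : In C D) {j a b : Fin 4}
    (h : g9 (df j) (C b) (C a) = true) : D b j ≤ D a j := by
  obtain ⟨w, hw, hs, ha⟩ := hD a
  obtain ⟨w', hw', hs', hb⟩ := hD b
  have ea : D a j = ∑ i, w i * fr (vt (C a) i) j := by
    rw [ha]; simp [Finset.sum_apply]
  have eb : D b j = ∑ i, w' i * fr (vt (C b) i) j := by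
    rw [hb]; simp [Finset.sum_apply]
  have hle : ∀ i' i, fr (vt (C b) i') j ≤ fr (vt (C a) i) j := by
    intro i' i
    rw [fr_df, fr_df]
    have := g9_eq h i' i
    have h2 : (fl (df j) (vt (C b) i') : ℝ) ≤ (fl (df j) (vt (C a) i) : ℝ) := by exact_mod_cast this
    linarith
  have h1 : ∀ i, D b j ≤ fr (vt (C a) i) j := by
    intro i
    rw [eb]
    calc ∑ i', w' i' * fr (vt (C b) i') j ≤ ∑ i', w' i' * fr (vt (C a) i) j :=
          Finset.sum_le_sum fun i' _ => mul_le_mul_of_nonneg_left (hle i' i) (hw' i')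
      _ = fr (vt (C a) i) j := by rw [← Finset.sum_mul, hs', one_mul]
  rw [ea]
  calc D b j = ∑ i, w i * D b j := by rw [← Finset.sum_mul, hs, one_mul]
    _ ≤ ∑ i, w i * fr (vt (C a) i) j :=
      Finset.sum_le_sum fun i _ => mul_le_mul_of_nonneg_left (h1 i) (hw i)

lemma o4_eq {a b c d : Bool} (h : o4 a b c d = true) :
    ∃ p : Fin 4, ∀ m, m ≠ p → (![a, b, c, d] : Fin 4 → Bool) m = true := by
  revert h
  revert a b c d
  decide

lemma cn_false {C : Fin 4 → Col} {D : Cols} (hD : In C D) (fa : Facts D) (i : Fin 6)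
    (h : cn (C (TT i 0)) (C (TT i 1)) (C (TT i 2)) (C (TT i 3)) = true) : False := by
  obtain ⟨h1, h2⟩ := an_eq h
  obtain ⟨d0, d1⟩ := an_eq h1
  obtain ⟨d2, d3⟩ := an_eq h2
  have key : ∀ j : Fin 4, ∃ p : Fin 4, ∀ m, m ≠ p → D (TT i (m + 1)) j ≤ D (TT i m) j := by
    intro j
    have hj : c4 (df j) (C (TT i 0)) (C (TT i 1)) (C (TT i 2)) (C (TT i 3)) = true := by
      fin_cases j
      · exact d0
      · exact d1
      · exact d2
      · exact d3
    obtain ⟨p, hp⟩ := o4_eq hj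
    refine ⟨p, fun m hm => ?_⟩
    have hm' := hp m hm
    fin_cases m
    · exact g9_le hD hm'
    · exact g9_le hD hm'
    · exact g9_le hD hm'
    · exact g9_le hD hm'
  choose pos hpos using key
  exact fa.noM i pos fun j m hm => hpos j m hm

lemma ml_false {C : Fin 4 → Col} {D : Cols} (hD : In C D) (fa : Facts D) (i : ℕ)
    (h : ml i (C 0) (C 1) (C 2) (C 3) = true) : False := by
  rcases i with _ | _ | _ | _ | _ | _ | i
  · exact cn_false hD fa 0 h
  · exact cn_false hD fa 1 h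
  · exact cn_false hD fa 2 h
  · exact cn_false hD fa 3 h
  · exact cn_false hD fa 4 h
  · exact cn_false hD fa 5 h
  · exact absurd h (by simp [ml])

/-! ### Refutation of cells -/

/-- the cell `A B C D` contains no point with the facts -/
def Ref (A B C D : Col) : Prop :=
  (∀ i, Gd (vt A i)) → (∀ i, Gd (vt B i)) → (∀ i, Gd (vt C i)) → (∀ i, Gd (vt D i)) →
    ∀ X : Cols, Facts X → InT A (X 0) → InT B (X 1) → InT C (X 2) → InT D (X 3) → False

lemma in_of {A B C D : Col} {X : Cols} (hA : InT A (X 0)) (hB : InT B (X 1)) (hC : InT C (X 2))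
    (hD : InT D (X 3)) : In ![A, B, C, D] X := by
  intro k
  fin_cases k
  · exact hA
  · exact hB
  · exact hC
  · exact hD

lemma gd_of4 {A B C D : Col} (hA : ∀ i, Gd (vt A i)) (hB : ∀ i, Gd (vt B i)) (hC : ∀ i, Gd (vt C i))
    (hD : ∀ i, Gd (vt D i)) : ∀ (k : Fin 4) i, Gd (vt ((![A, B, C, D] : Fin 4 → Col) k) i) := by
  intro k
  fin_cases k
  · exact hA
  · exact hB
  · exact hC
  · exact hD

theorem Ref.M {A B C D : Col} (i : ℕ) (h : ml i A B C D = true) : Ref A B C D :=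
  fun _ _ _ _ X hX a b c d => ml_false (C := ![A, B, C, D]) (in_of a b c d) hX i h

theorem Ref.L {A B C D : Col} (p q : ℕ) (h : lf p q A B C D = true) : Ref A B C D :=
  fun gA gB gC gD X hX a b c d =>
    lf_false (C := ![A, B, C, D]) (gd_of4 gA gB gC gD) hX (in_of a b c d) p q h

theorem Ref.Z {A B C D : Col} (z a0 b0 a1 b1 a2 b2 a3 b3 c0 e0 c1 e1 c2 e2 c3 e3 : ℕ)
    (h : zl z a0 b0 a1 b1 a2 b2 a3 b3 c0 e0 c1 e1 c2 e2 c3 e3 A B C D = true) : Ref A B C D :=
  fun gA gB gC gD X hX a b c d =>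
    zl_false (C := ![A, B, C, D]) (gd_of4 gA gB gC gD) hX (in_of a b c d)
      z a0 b0 a1 b1 a2 b2 a3 b3 c0 e0 c1 e1 c2 e2 c3 e3 h

theorem Ref.s00 {A B C D : Col} (hp : p0 A = true) (hl : Ref (sa0 A) B C D)
    (hr : Ref (sb0 A) B C D) : Ref A B C D := by
  intro gA gB gC gD X hX a b c d
  rcases split0 gA hp a with h | h
  · exact hl (gd_s0 gA hp).1 gB gC gD X hX h b c d
  · exact hr (gd_s0 gA hp).2 gB gC gD X hX h b c d

theorem Ref.s01 {A B C D : Col} (hp : p1 A = true) (hl : Ref (sa1 A) B C D)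
    (hr : Ref (sb1 A) B C D) : Ref A B C D := by
  intro gA gB gC gD X hX a b c d
  rcases split1 gA hp a with h | h
  · exact hl (gd_s1 gA hp).1 gB gC gD X hX h b c d
  · exact hr (gd_s1 gA hp).2 gB gC gD X hX h b c d

theorem Ref.s02 {A B C D : Col} (hp : p2 A = true) (hl : Ref (sa2 A) B C D)
    (hr : Ref (sb2 A) B C D) : Ref A B C D := by
  intro gA gB gC gD X hX a b c d
  rcases split2 gA hp a with h | h
  · exact hl (gd_s2 gA hp).1 gB gC gD X hX h b c d
  · exact hr (gd_s2 gA hp).2 gB gC gD X hX h b c d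

theorem Ref.s10 {A B C D : Col} (hp : p0 B = true) (hl : Ref A (sa0 B) C D)
    (hr : Ref A (sb0 B) C D) : Ref A B C D := by
  intro gA gB gC gD X hX a b c d
  rcases split0 gB hp b with h | h
  · exact hl gA (gd_s0 gB hp).1 gC gD X hX a h c d
  · exact hr gA (gd_s0 gB hp).2 gC gD X hX a h c d

theorem Ref.s11 {A B C D : Col} (hp : p1 B = true) (hl : Ref A (sa1 B) C D)
    (hr : Ref A (sb1 B) C D) : Ref A B C D := by
  intro gA gB gC gD X hX a b c d
  rcases split1 gB hp b with h | h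
  · exact hl gA (gd_s1 gB hp).1 gC gD X hX a h c d
  · exact hr gA (gd_s1 gB hp).2 gC gD X hX a h c d

theorem Ref.s12 {A B C D : Col} (hp : p2 B = true) (hl : Ref A (sa2 B) C D)
    (hr : Ref A (sb2 B) C D) : Ref A B C D := by
  intro gA gB gC gD X hX a b c d
  rcases split2 gB hp b with h | h
  · exact hl gA (gd_s2 gB hp).1 gC gD X hX a h c d
  · exact hr gA (gd_s2 gB hp).2 gC gD X hX a h c d

theorem Ref.s20 {A B C D : Col} (hp : p0 C = true) (hl : Ref A B (sa0 C) D)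
    (hr : Ref A B (sb0 C) D) : Ref A B C D := by
  intro gA gB gC gD X hX a b c d
  rcases split0 gC hp c with h | h
  · exact hl gA gB (gd_s0 gC hp).1 gD X hX a b h d
  · exact hr gA gB (gd_s0 gC hp).2 gD X hX a b h d

theorem Ref.s21 {A B C D : Col} (hp : p1 C = true) (hl : Ref A B (sa1 C) D)
    (hr : Ref A B (sb1 C) D) : Ref A B C D := by
  intro gA gB gC gD X hX a b c d
  rcases split1 gC hp c with h | h
  · exact hl gA gB (gd_s1 gC hp).1 gD X hX a b h d
  · exact hr gA gB (gd_s1 gC hp).2 gD X hX a b h d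

theorem Ref.s22 {A B C D : Col} (hp : p2 C = true) (hl : Ref A B (sa2 C) D)
    (hr : Ref A B (sb2 C) D) : Ref A B C D := by
  intro gA gB gC gD X hX a b c d
  rcases split2 gC hp c with h | h
  · exact hl gA gB (gd_s2 gC hp).1 gD X hX a b h d
  · exact hr gA gB (gd_s2 gC hp).2 gD X hX a b h d

theorem Ref.s30 {A B C D : Col} (hp : p0 D = true) (hl : Ref A B C (sa0 D))
    (hr : Ref A B C (sb0 D)) : Ref A B C D := by
  intro gA gB gC gD X hX a b c d
  rcases split0 gD hp d with h | h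
  · exact hl gA gB gC (gd_s0 gD hp).1 X hX a b c h
  · exact hr gA gB gC (gd_s0 gD hp).2 X hX a b c h

theorem Ref.s31 {A B C D : Col} (hp : p1 D = true) (hl : Ref A B C (sa1 D))
    (hr : Ref A B C (sb1 D)) : Ref A B C D := by
  intro gA gB gC gD X hX a b c d
  rcases split1 gD hp d with h | h
  · exact hl gA gB gC (gd_s1 gD hp).1 X hX a b c h
  · exact hr gA gB gC (gd_s1 gD hp).2 X hX a b c h

theorem Ref.s32 {A B C D : Col} (hp : p2 D = true) (hl : Ref A B C (sa2 D))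
    (hr : Ref A B C (sb2 D)) : Ref A B C D := by
  intro gA gB gC gD X hX a b c d
  rcases split2 gD hp d with h | h
  · exact hl gA gB gC (gd_s2 gD hp).1 X hX a b c h
  · exact hr gA gB gC (gd_s2 gD hp).2 X hX a b c h

/-! ### The tree -/

/-- The tree of splits. -/
inductive Tree
  | s00 (l r : Tree)
  | s01 (l r : Tree)
  | s02 (l r : Tree)
  | s10 (l r : Tree)
  | s11 (l r : Tree)
  | s12 (l r : Tree)
  | s20 (l r : Tree)
  | s21 (l r : Tree)
  | s22 (l r : Tree)
  | s30 (l r : Tree)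
  | s31 (l r : Tree)
  | s32 (l r : Tree)
  | M (i : ℕ)
  | L (p q : ℕ)
  | Z (z a0 b0 a1 b1 a2 b2 a3 b3 c0 e0 c1 e1 c2 e2 c3 e3 : ℕ)

/-- the check of a tree -/
noncomputable def wk (t : Tree) : Col → Col → Col → Col → Bool :=
  Tree.rec (motive := fun _ => Col → Col → Col → Col → Bool)
    (fun _ _ il ir A B C D => an (p0 A) (an (il (sa0 A) B C D) (ir (sb0 A) B C D)))
    (fun _ _ il ir A B C D => an (p1 A) (an (il (sa1 A) B C D) (ir (sb1 A) B C D)))
    (fun _ _ il ir A B C D => an (p2 A) (an (il (sa2 A) B C D) (ir (sb2 A) B C D)))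
    (fun _ _ il ir A B C D => an (p0 B) (an (il A (sa0 B) C D) (ir A (sb0 B) C D)))
    (fun _ _ il ir A B C D => an (p1 B) (an (il A (sa1 B) C D) (ir A (sb1 B) C D)))
    (fun _ _ il ir A B C D => an (p2 B) (an (il A (sa2 B) C D) (ir A (sb2 B) C D)))
    (fun _ _ il ir A B C D => an (p0 C) (an (il A B (sa0 C) D) (ir A B (sb0 C) D)))
    (fun _ _ il ir A B C D => an (p1 C) (an (il A B (sa1 C) D) (ir A B (sb1 C) D)))
    (fun _ _ il ir A B C D => an (p2 C) (an (il A B (sa2 C) D) (ir A B (sb2 C) D)))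
    (fun _ _ il ir A B C D => an (p0 D) (an (il A B C (sa0 D)) (ir A B C (sb0 D))))
    (fun _ _ il ir A B C D => an (p1 D) (an (il A B C (sa1 D)) (ir A B C (sb1 D))))
    (fun _ _ il ir A B C D => an (p2 D) (an (il A B C (sa2 D)) (ir A B C (sb2 D))))
    (fun i A B C D => ml i A B C D)
    (fun p q A B C D => lf p q A B C D)
    (fun z a0 b0 a1 b1 a2 b2 a3 b3 c0 e0 c1 e1 c2 e2 c3 e3 A B C D =>
      zl z a0 b0 a1 b1 a2 b2 a3 b3 c0 e0 c1 e1 c2 e2 c3 e3 A B C D) t

/-- **Soundness of the check.** -/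
theorem Ref.of_wk (t : Tree) : ∀ A B C D : Col, wk t A B C D = true → Ref A B C D := by
  induction t with
  | s00 l r il ir =>
    intro A B C D h
    obtain ⟨h1, h2⟩ := an_eq h
    obtain ⟨h3, h4⟩ := an_eq h2
    exact Ref.s00 h1 (il _ _ _ _ h3) (ir _ _ _ _ h4)
  | s01 l r il ir =>
    intro A B C D h
    obtain ⟨h1, h2⟩ := an_eq h
    obtain ⟨h3, h4⟩ := an_eq h2
    exact Ref.s01 h1 (il _ _ _ _ h3) (ir _ _ _ _ h4)
  | s02 l r il ir =>
    intro A B C D h
    obtain ⟨h1, h2⟩ := an_eq h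
    obtain ⟨h3, h4⟩ := an_eq h2
    exact Ref.s02 h1 (il _ _ _ _ h3) (ir _ _ _ _ h4)
  | s10 l r il ir =>
    intro A B C D h
    obtain ⟨h1, h2⟩ := an_eq h
    obtain ⟨h3, h4⟩ := an_eq h2
    exact Ref.s10 h1 (il _ _ _ _ h3) (ir _ _ _ _ h4)
  | s11 l r il ir =>
    intro A B C D h
    obtain ⟨h1, h2⟩ := an_eq h
    obtain ⟨h3, h4⟩ := an_eq h2
    exact Ref.s11 h1 (il _ _ _ _ h3) (ir _ _ _ _ h4)
  | s12 l r il ir =>
    intro A B C D h
    obtain ⟨h1, h2⟩ := an_eq h
    obtain ⟨h3, h4⟩ := an_eq h2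
    exact Ref.s12 h1 (il _ _ _ _ h3) (ir _ _ _ _ h4)
  | s20 l r il ir =>
    intro A B C D h
    obtain ⟨h1, h2⟩ := an_eq h
    obtain ⟨h3, h4⟩ := an_eq h2
    exact Ref.s20 h1 (il _ _ _ _ h3) (ir _ _ _ _ h4)
  | s21 l r il ir =>
    intro A B C D h
    obtain ⟨h1, h2⟩ := an_eq h
    obtain ⟨h3, h4⟩ := an_eq h2
    exact Ref.s21 h1 (il _ _ _ _ h3) (ir _ _ _ _ h4)
  | s22 l r il ir =>
    intro A B C D h
    obtain ⟨h1, h2⟩ := an_eq h
    obtain ⟨h3, h4⟩ := an_eq h2
    exact Ref.s22 h1 (il _ _ _ _ h3) (ir _ _ _ _ h4)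
  | s30 l r il ir =>
    intro A B C D h
    obtain ⟨h1, h2⟩ := an_eq h
    obtain ⟨h3, h4⟩ := an_eq h2
    exact Ref.s30 h1 (il _ _ _ _ h3) (ir _ _ _ _ h4)
  | s31 l r il ir =>
    intro A B C D h
    obtain ⟨h1, h2⟩ := an_eq h
    obtain ⟨h3, h4⟩ := an_eq h2
    exact Ref.s31 h1 (il _ _ _ _ h3) (ir _ _ _ _ h4)
  | s32 l r il ir =>
    intro A B C D h
    obtain ⟨h1, h2⟩ := an_eq h
    obtain ⟨h3, h4⟩ := an_eq h2
    exact Ref.s32 h1 (il _ _ _ _ h3) (ir _ _ _ _ h4)
  | M i => intro A B C D h; exact Ref.M i h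
  | L p q => intro A B C D h; exact Ref.L p q h
  | Z z a0 b0 a1 b1 a2 b2 a3 b3 c0 e0 c1 e1 c2 e2 c3 e3 =>
    intro A B C D h
    exact Ref.Z z a0 b0 a1 b1 a2 b2 a3 b3 c0 e0 c1 e1 c2 e2 c3 e3 h

/-! ### The root -/

/-- root triangle -/
def R0 : Col := ⟨8437482397083599353446935176478720, 8437482396025789261530425253232640,
  3894222645865625178729041493032960⟩
/-- root triangle -/
def R1 : Col := ⟨8437482397083599353517303920640000, 8437482396025789261354503392829440,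
  3894222645865625178553119632629760⟩
/-- root triangle -/
def R2 : Col := ⟨8437482396328020716434082546892800, 8437482396328020716187791942328320,
  3894222645110046541469898258882560⟩
/-- root triangle -/
def R3 : Col := ⟨5192296860499332085861665575321600, 5192296860499332085615374970757120,
  5192296859441521993698865047511040⟩

end Pool.Agent.Helper44.CK
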