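import Mathlib
import Pool.Agent.Helper44.CK.Tree

/-!
# The root cell (helper44, TET checker)
-/

set_option autoImplicit false

namespace Pool.Agent.Helper44.CK

open Finset

lemma gd_R0 : ∀ i, Gd (vt R0 i) := gd_of
  ⟨by decide +kernel, by decide +kernel, by decide +kernel, by decide +kernel, by decide +kernel, by decide +kernel⟩
  ⟨by decide +kernel, by decide +kernel, by decide +kernel, by decide +kernel, by decide +kernel, by decide +kernel⟩
  ⟨by decide +kernel, by decide +kernel, by decide +kernel, by decide +kernel, by decide +kernel, by decide +kernel⟩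
lemma gd_R1 : ∀ i, Gd (vt R1 i) := gd_of
  ⟨by decide +kernel, by decide +kernel, by decide +kernel, by decide +kernel, by decide +kernel, by decide +kernel⟩
  ⟨by decide +kernel, by decide +kernel, by decide +kernel, by decide +kernel, by decide +kernel, by decide +kernel⟩
  ⟨by decide +kernel, by decide +kernel, by decide +kernel, by decide +kernel, by decide +kernel, by decide +kernel⟩
lemma gd_R2 : ∀ i, Gd (vt R2 i) := gd_of
  ⟨by decide +kernel, by decide +kernel, by decide +kernel, by decide +kernel, by decide +kernel, by decide +kernel⟩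
  ⟨by decide +kernel, by decide +kernel, by decide +kernel, by decide +kernel, by decide +kernel, by decide +kernel⟩
  ⟨by decide +kernel, by decide +kernel, by decide +kernel, by decide +kernel, by decide +kernel, by decide +kernel⟩
lemma gd_R3 : ∀ i, Gd (vt R3 i) := gd_of
  ⟨by decide +kernel, by decide +kernel, by decide +kernel, by decide +kernel, by decide +kernel, by decide +kernel⟩
  ⟨by decide +kernel, by decide +kernel, by decide +kernel, by decide +kernel, by decide +kernel, by decide +kernel⟩
  ⟨by decide +kernel, by decide +kernel, by decide +kernel, by decide +kernel, by decide +kernel, by decide +kernel⟩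

/-- membership in a root triangle from the values of its fields -/
lemma inT_root {T : Col} {x : Fin 4 → ℝ} (k p q r : Fin 4)
    (hk : ∀ j, j = k ∨ j = p ∨ j = q ∨ j = r)
    (hpq : p ≠ q) (hpr : p ≠ r) (hqr : q ≠ r) (hkp : k ≠ p) (hkq : k ≠ q) (hkr : k ≠ r)
    (ak : fr T.a k = 0) (bk : fr T.b k = 0) (ck : fr T.c k = 0)
    (ap : fr T.a p = -1 / 4) (bp : fr T.b p = 5 / 8) (cp : fr T.c p = 5 / 8)
    (aq : fr T.a q = 5 / 8) (bq : fr T.b q = -1 / 4) (cq : fr T.c q = 5 / 8)
    (ar : fr T.a r = 5 / 8) (br : fr T.b r = 5 / 8) (cr : fr T.c r = -1 / 4)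
    (hx : x k = 0) (hs : x p + x q + x r = 1) (h1 : x p ≤ 5 / 8) (h2 : x q ≤ 5 / 8)
    (h3 : x r ≤ 5 / 8) : InT T x := by
  refine inT_iff.2 ⟨(5 / 8 - x p) * (8 / 7), (5 / 8 - x q) * (8 / 7), (5 / 8 - x r) * (8 / 7),
    by linarith, by linarith, by linarith, by linarith, fun j => ?_⟩
  rcases hk j with rfl | rfl | rfl | rfl
  · rw [ak, bk, ck, hx]; ring
  · rw [ap, bp, cp]; linarith
  · rw [aq, bq, cq]; linarith
  · rw [ar, br, cr]; linarith

lemma frv (v : ℕ) (j : Fin 4) (n : ℕ) (h : fl (df j) v = n) : fr v j = (n : ℝ) / 65536 - 1 := by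
  rw [fr_df, h]

lemma v0 {v : ℕ} {j : Fin 4} (h : fl (df j) v = 65536) : fr v j = 0 := by
  rw [frv v j 65536 h]; norm_num

lemma v1 {v : ℕ} {j : Fin 4} (h : fl (df j) v = 49152) : fr v j = -1 / 4 := by
  rw [frv v j 49152 h]; norm_num

lemma v2 {v : ℕ} {j : Fin 4} (h : fl (df j) v = 106496) : fr v j = 5 / 8 := by
  rw [frv v j 106496 h]; norm_num

theorem in_R0 {D : Cols} (h : Facts D) : InT R0 (D 0) := by
  have hs := h.sum 0
  rw [Fin.sum_univ_four, h.diag 0] at hs
  exact inT_root 0 1 2 3 (by decide) (by decide) (by decide) (by decide) (by decide) (by decide)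
    (by decide) (v0 (by decide +kernel)) (v0 (by decide +kernel)) (v0 (by decide +kernel))
    (v1 (by decide +kernel)) (v2 (by decide +kernel)) (v2 (by decide +kernel))
    (v2 (by decide +kernel)) (v1 (by decide +kernel)) (v2 (by decide +kernel))
    (v2 (by decide +kernel)) (v2 (by decide +kernel)) (v1 (by decide +kernel))
    (h.diag 0) (by linarith) (h.box 0 1) (h.box 0 2) (h.box 0 3)

theorem in_R1 {D : Cols} (h : Facts D) : InT R1 (D 1) := by
  have hs := h.sum 1
  rw [Fin.sum_univ_four, h.diag 1] at hs
  exact inT_root 1 0 2 3 (by decide) (by decide) (by decide) (by decide) (by decide) (by decide)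
    (by decide) (v0 (by decide +kernel)) (v0 (by decide +kernel)) (v0 (by decide +kernel))
    (v1 (by decide +kernel)) (v2 (by decide +kernel)) (v2 (by decide +kernel))
    (v2 (by decide +kernel)) (v1 (by decide +kernel)) (v2 (by decide +kernel))
    (v2 (by decide +kernel)) (v2 (by decide +kernel)) (v1 (by decide +kernel))
    (h.diag 1) (by linarith) (h.box 1 0) (h.box 1 2) (h.box 1 3)

theorem in_R2 {D : Cols} (h : Facts D) : InT R2 (D 2) := by
  have hs := h.sum 2
  rw [Fin.sum_univ_four, h.diag 2] at hs
  exact inT_root 2 0 1 3 (by decide) (by decide) (by decide) (by decide) (by decide) (by decide)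
    (by decide) (v0 (by decide +kernel)) (v0 (by decide +kernel)) (v0 (by decide +kernel))
    (v1 (by decide +kernel)) (v2 (by decide +kernel)) (v2 (by decide +kernel))
    (v2 (by decide +kernel)) (v1 (by decide +kernel)) (v2 (by decide +kernel))
    (v2 (by decide +kernel)) (v2 (by decide +kernel)) (v1 (by decide +kernel))
    (h.diag 2) (by linarith) (h.box 2 0) (h.box 2 1) (h.box 2 3)

theorem in_R3 {D : Cols} (h : Facts D) : InT R3 (D 3) := by
  have hs := h.sum 3
  rw [Fin.sum_univ_four, h.diag 3] at hs
  exact inT_root 3 0 1 2 (by decide) (by decide) (by decide) (by decide) (by decide) (by decide)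
    (by decide) (v0 (by decide +kernel)) (v0 (by decide +kernel)) (v0 (by decide +kernel))
    (v1 (by decide +kernel)) (v2 (by decide +kernel)) (v2 (by decide +kernel))
    (v2 (by decide +kernel)) (v1 (by decide +kernel)) (v2 (by decide +kernel))
    (v2 (by decide +kernel)) (v2 (by decide +kernel)) (v1 (by decide +kernel))
    (h.diag 3) (by linarith) (h.box 3 0) (h.box 3 1) (h.box 3 2)

/-- **The core from the refutation of the root.** -/
theorem core_of (h : Ref R0 R1 R2 R3) (D : Cols) : ¬ Facts D := fun f =>
  h gd_R0 gd_R1 gd_R2 gd_R3 D f (in_R0 f) (in_R1 f) (in_R2 f) (in_R3 f)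

end Pool.Agent.Helper44.CK
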